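import Pool.Agent.Lib.MP_6d5d56_co.Subst

/-! Closure of the orthogonality property and of concavity under substitution. -/

set_option autoImplicit false

namespace Pool.Agent.Lib.MP_6d5d56_co

open List

variable {V W : Type} [DecidableEq W] [Fintype W]
variable {A : V → V → Prop} {S : Finset V} {f : V → W} {Q : W → W → Prop}

theorem sum_levels (f : V → W) (d : W → ℤ) (Ls : List (List V)) :
    ∑ w, d w * (modp f Ls w).length =
      (Ls.map fun L => ((cut f L).map fun y => d y.1).sum).sum := by
  have : ((segs f Ls).map fun y => d y.1).sum =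
      (Ls.map fun L => ((cut f L).map fun y => d y.1).sum).sum := by
    induction Ls with
    | nil => rfl
    | cons L Ls ih =>
      simp only [segs, map_cons, flatten_cons, map_append, sum_append, sum_cons] at ih ⊢
      rw [ih]
  rw [← this, sum_fiber Prod.fst]
  refine Finset.sum_congr rfl fun w _ => ?_
  rw [List.map_congr_left (g := fun _ => d w) fun y hy => by
    rw [show y.1 = w by simpa using (List.mem_filter.1 hy).2]]
  simp [modp, mul_comm]

theorem concave_subst (hadj : ∀ u ∈ S, ∀ v ∈ S, f u ≠ f v → (A u v ↔ Q (f u) (f v)))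
    (hsurj : ∀ w, ∃ v ∈ S, f v = w)
    (hQ : ∀ S' : Finset (W × List V), (∀ w, ∃ y ∈ S', y.1 = w) → Mrg (Ext V Q) S' 1)
    (hcc : ∀ w, Concave A (S.filter fun x => f x = w)) : Concave A S := by
  intro p
  rcases Nat.eq_zero_or_pos p with rfl | hp
  · have := cov_two (A := A) (S := S)
    rw [cov_zero]; simpa using this
  by_cases hc : S.card ≤ p + 1
  · have := cov_le_card (A := A) (S := S) p
    rw [cov_card hc, cov_card (by omega)]; omega
  obtain ⟨Ls, l1, l2, l3⟩ := cov_exact (A := A) (S := S) (p := p + 1) (by omega)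
  obtain ⟨lo, hi, κ, -, -, a1, a2, a3, a4⟩ := module_levels hadj hsurj hQ hcc l1 (by omega) 0 S.card
    (Int.natCast_nonneg _) (by rw [l2, l3])
    (by have := cov_le_card (A := A) (S := S) (Ls.length + 1); omega)
    (by have := cov_mono (A := A) (S := S) (show Ls.length - 1 ≤ p + 1 by omega); omega)
  have e1 : ∑ w, (hi w - lo w) * (modp f Ls w).length = κ * Ls.length := by
    rw [sum_levels f (fun w => hi w - lo w), List.map_congr_left (g := fun _ => κ) fun L hL => ?_]
    · simp [mul_comm]
    · obtain ⟨y, t, e⟩ := List.exists_cons_of_ne_nil (cut_ne_nil f (l1.1 L hL).1)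
      have := a4 L hL
      rw [e] at this ⊢
      rw [(tele_eq (fun y => lo y.1) (fun y => hi y.1) κ t y this.1 this.2.2).1, this.2.1 y rfl]
      simp
  have e2 : ∀ Ms, Pack A S Ms →
      (Ms.flatten.length : ℤ) - Ls.flatten.length ≤ κ * Ms.length - κ * Ls.length := by
    intro Ms hM
    have b1 : ∑ w, (hi w - lo w) * (modp f Ms w).length ≤ κ * Ms.length := by
      rw [sum_levels f (fun w => hi w - lo w)]
      refine (List.sum_le_sum (g := fun _ => κ) fun L hL => ?_).trans (by simp [mul_comm])
      obtain ⟨y, t, e⟩ := List.exists_cons_of_ne_nil (cut_ne_nil f (hM.1 L hL).1)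
      have := cut_chain hadj L (hM.1 L hL).2 fun x hx => hM.2.2 x (mem_flatten.2 ⟨L, hL, hx⟩)
      rw [e] at this ⊢
      have := tele_le (fun y : W × List V => lo y.1) (fun y => hi y.1) κ t y
        (this.imp fun a b h => a2 _ _ h.1 h.2) fun x _ => (a1 _).2
      have := (a1 y.1).1
      omega
    have b2 := Finset.sum_le_sum fun w (_ : w ∈ Finset.univ) => a3 w _ (hM.modp f w)
    simp only [mul_sub, Finset.sum_sub_distrib] at b2
    rw [sum_modp f Ms, sum_modp f Ls, Nat.cast_sum, Nat.cast_sum]
    omega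
  obtain ⟨M1, m1, m2, m3⟩ := cov_exact (A := A) (S := S) (p := p + 2) (by omega)
  obtain ⟨M2, n1, n2, n3⟩ := cov_exact (A := A) (S := S) (p := p) (by omega)
  have c1 := e2 M1 m1
  have c2 := e2 M2 n1
  rw [m2, m3, l2, l3] at c1
  rw [n2, n3, l2, l3] at c2
  push_cast at c1 c2
  have : (cov A S (p + 2) : ℤ) + cov A S p ≤ 2 * cov A S (p + 1) := by linarith
  omega

theorem berge_subst (hadj : ∀ u ∈ S, ∀ v ∈ S, f u ≠ f v → (A u v ↔ Q (f u) (f v)))
    (hsurj : ∀ w, ∃ v ∈ S, f v = w)
    (hQ : ∀ S' : Finset (W × List V), (∀ w, ∃ y ∈ S', y.1 = w) → Mrg (Ext V Q) S' 1)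
    (hcc : ∀ w, Concave A (S.filter fun x => f x = w))
    (hb : ∀ w, Berge A (S.filter fun x => f x = w)) : Berge A S := by
  intro k Ls Ss hP hcov hopt
  by_cases h1 : Ls.length ≤ 1
  · exact berge_one k Ls Ss hP hcov hopt h1
  have hL : Pack A S Ls := hP.sublist (by simp)
  have hS : Pack A S Ss := hP.sublist (by simp)
  have o : ∀ q, cov A S q + k * Ls.length ≤ Ls.flatten.length + k * q := fun q => by
    obtain ⟨Ms, m1, m2, m3⟩ := cov_spec A S q
    have := hopt Ms m1
    have := Nat.mul_le_mul_left k m2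
    omega
  obtain ⟨lo, hi, κ, k1, k2, a1, a2, a3, a4⟩ := module_levels hadj hsurj hQ hcc hL (by omega) k k
    le_rfl (by have := o Ls.length; omega)
    (by have := o (Ls.length + 1); rw [mul_add] at this; omega)
    (by
      have := o (Ls.length - 1)
      rw [show k * Ls.length = k * (Ls.length - 1) + k by
        rw [← Nat.mul_succ]; congr 1; omega] at this
      omega)
  obtain rfl : κ = k := le_antisymm k2 k1
  have : ∀ w, ∃ c, Col A (S.filter fun x => f x = w) (hi w - lo w).toNat (modp f Ls w)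
      (modp f Ss w) c := by
    intro w
    refine hb w _ _ _ (modp_append f Ls Ss w ▸ hP.modp f w) (fun x hx => ?_) fun Ms hM => ?_
    · rw [Finset.mem_filter] at hx
      rw [← modp_append, ← hx.2]
      exact mem_modp_flatten (hcov x hx.1)
    · by_cases h : 0 ≤ hi w - lo w
      · have := a3 w Ms hM
        obtain ⟨d, hd⟩ := Int.eq_ofNat_of_zero_le h
        rw [hd, mul_sub] at this
        rw [hd, Int.toNat_natCast]
        zify
        linarith
      · obtain ⟨Ns, n1, n2, n3⟩ := cov_exact (A := A) (S := S.filter fun x => f x = w) le_rfl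
        have b1 := a3 w Ns n1
        have b2 := (hL.modp f w).cov_le
        have b3 := length_le_cov fun L h => ((hL.modp f w).1 L h).1
        have b4 : (hi w - lo w) * ((Ns.length : ℤ) - (modp f Ls w).length) ≤ 0 :=
          mul_nonpos_of_nonpos_of_nonneg (by omega) (by omega)
        have b5 := hM.cov_le
        rw [cov_card le_rfl] at n3
        rw [show (hi w - lo w).toNat = 0 by omega]
        omega
  choose c c1 c2 c3 c4 using this
  have d1 : ∀ x ∈ S, c (f x) x ≤ (hi (f x) - lo (f x)).toNat := fun x hx =>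
    c1 _ x (Finset.mem_filter.2 ⟨hx, rfl⟩)
  set C : V → ℕ := fun x => if c (f x) x = 0 then 0 else (lo (f x)).toNat + c (f x) x with hC
  have d2 : ∀ x ∈ S, c (f x) x ≠ 0 → (C x : ℤ) = lo (f x) + c (f x) x ∧ lo (f x) < C x ∧
      C x ≤ hi (f x) := fun x hx h => by
    have := d1 x hx
    have := a1 (f x)
    simp only [hC, if_neg h]
    omega
  have d3 : ∀ x, C x ≠ 0 → c (f x) x ≠ 0 := fun x h h' => h (by simp [hC, h'])
  refine ⟨C, fun x hx => ?_, fun u hu v hv huv a e => ?_, fun L hL' j j0 jk => ?_,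
    fun L hL' => ?_⟩
  · by_cases h : C x = 0
    · omega
    · have := d2 x hx (d3 x h)
      have := a1 (f x)
      omega
  · by_contra h0
    have b1 := d2 u hu (d3 u h0)
    have b2 := d2 v hv (d3 v (e ▸ h0))
    by_cases h : f u = f v
    · refine d3 u h0 (c2 (f u) u (Finset.mem_filter.2 ⟨hu, rfl⟩) v
        (Finset.mem_filter.2 ⟨hv, h.symm⟩) huv a ?_)
      rw [← h] at b2
      omega
    · have := a2 _ _ h ((hadj u hu v hv h).1 a)
      omega
  · obtain ⟨y, t, e⟩ := List.exists_cons_of_ne_nil (cut_ne_nil f (hL.1 L hL').1)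
    have := a4 L hL'
    rw [e] at this
    obtain ⟨z, hz, b1, b2⟩ := (tele_eq (fun y => lo y.1) (fun y => hi y.1) k t y this.1
      this.2.2).2 j (by rw [this.2.1 y rfl]; omega) (by omega)
    rw [← e] at hz
    obtain ⟨x, hx, b3⟩ := c3 z.1 z.2 (mem_modp hL' hz) (j - lo z.1).toNat (by omega) (by omega)
    have b4 := (cut_mem f L z hz).2 x hx
    have b5 := (cut_infix f L z hz).subset hx
    have := d2 x (hL.2.2 x (mem_flatten.2 ⟨L, hL', b5⟩)) (by rw [b4]; omega)
    rw [b4] at this
    exact ⟨x, b5, by omega⟩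
  · have hLS : ∀ x ∈ L, x ∈ S := fun x hx => hS.2.2 x (mem_flatten.2 ⟨L, hL', hx⟩)
    have b1 : ∀ y ∈ cut f L, ∀ x ∈ y.2, (C x : ℤ) = lo y.1 + c y.1 x ∧ lo y.1 < C x ∧
        C x ≤ hi y.1 := fun y hy x hx => by
      have b4 := (cut_mem f L y hy).2 x hx
      have := d2 x (hLS x ((cut_infix f L y hy).subset hx))
        (by rw [b4]; exact (c4 y.1 y.2 (mem_modp hL' hy)).1 x hx)
      rwa [b4] at this
    constructor
    · intro x hx
      rw [← cut_flatten f L] at hx
      obtain ⟨z, hz, hx⟩ := mem_flatten.1 hx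
      obtain ⟨y, hy, rfl⟩ := List.mem_map.1 hz
      have := b1 y hy x hx
      have := a1 y.1
      omega
    · have b2 := pairwise_levels (fun y : W × List V => lo y.1) (fun y => hi y.1) (cut f L)
        ((cut_chain hadj L (hS.1 L hL').2 hLS).imp fun a b h => a2 _ _ h.1 h.2) fun y hy => by
          obtain ⟨x, hx⟩ := List.exists_mem_of_ne_nil _ (cut_mem f L y hy).1
          have := b1 y hy x hx
          omega
      rw [List.Nodup, List.pairwise_map, ← cut_flatten f L, List.pairwise_flatten,
        List.pairwise_map]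
      refine ⟨fun z hz => ?_, b2.imp_of_mem fun {y y'} hy hy' h x hx x' hx' => ?_⟩
      · obtain ⟨y, hy, rfl⟩ := List.mem_map.1 hz
        have := (c4 y.1 y.2 (mem_modp hL' hy)).2
        rw [List.Nodup, List.pairwise_map] at this
        refine this.imp_of_mem fun {a b} ha hb h => ?_
        have := b1 y hy a ha
        have := b1 y hy b hb
        omega
      · have := b1 y hy x hx
        have := b1 y' hy' x' hx'
        omega

end Pool.Agent.Lib.MP_6d5d56_co
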