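import Pool.Agent.Lib.MP_6d5d56_co.LP

/-! The coverage function of a digraph and the internal form of the orthogonality property. -/

set_option autoImplicit false

namespace Pool.Agent.Lib.MP_6d5d56_co

open List

variable {V : Type}

/-- the largest number of vertices covered by at most `p` disjoint paths -/
noncomputable def cov (A : V → V → Prop) (S : Finset V) (p : ℕ) : ℕ :=
  sSup {c | ∃ Ls, Pack A S Ls ∧ Ls.length ≤ p ∧ Ls.flatten.length = c}

variable {A : V → V → Prop} {S : Finset V}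

theorem le_cov {Ls : List (List V)} {p : ℕ} (h : Pack A S Ls) (hp : Ls.length ≤ p) :
    Ls.flatten.length ≤ cov A S p :=
  le_csSup ⟨S.card, by rintro _ ⟨Ms, h, -, rfl⟩; exact h.cov_le⟩ ⟨Ls, h, hp, rfl⟩

theorem cov_spec (A : V → V → Prop) (S : Finset V) (p : ℕ) :
    ∃ Ls, Pack A S Ls ∧ Ls.length ≤ p ∧ Ls.flatten.length = cov A S p :=
  Nat.sSup_mem (s := {c | ∃ Ls, Pack A S Ls ∧ Ls.length ≤ p ∧ Ls.flatten.length = c})
    ⟨0, [], Pack.nil A S, by simp, rfl⟩
    ⟨S.card, by rintro _ ⟨Ms, h, -, rfl⟩; exact h.cov_le⟩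

theorem cov_mono {p q : ℕ} (h : p ≤ q) : cov A S p ≤ cov A S q := by
  obtain ⟨Ls, h1, h2, h3⟩ := cov_spec A S p
  rw [← h3]; exact le_cov h1 (h2.trans h)

theorem cov_le_card (p : ℕ) : cov A S p ≤ S.card := by
  obtain ⟨Ls, h1, -, h3⟩ := cov_spec A S p
  rw [← h3]; exact h1.cov_le

theorem cov_zero : cov A S 0 = 0 := by
  obtain ⟨Ls, -, h2, h3⟩ := cov_spec A S 0
  rw [← h3, List.length_eq_zero_iff.1 (Nat.le_zero.1 h2)]; rfl

theorem cov_two : cov A S 2 ≤ 2 * cov A S 1 := by
  obtain ⟨Ls, h1, h2, h3⟩ := cov_spec A S 2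
  rw [← h3]
  match Ls, h1, h2 with
  | [], _, _ => simp
  | [L], h1, _ => have := le_cov (p := 1) h1 le_rfl; omega
  | [L, M], h1, _ =>
    have a := le_cov (p := 1) (h1.sublist (Ms := [L]) (by simp)) le_rfl
    have b := le_cov (p := 1) (h1.sublist (Ms := [M]) (by simp)) le_rfl
    simp only [flatten_cons, flatten_nil, append_nil, length_append] at a b ⊢
    omega
  | _ :: _ :: _ :: _, _, h2 => simp at h2

theorem Pack.cons {Ls : List (List V)} (h : Pack A S Ls) {L : List V} (h1 : L ≠ [])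
    (h2 : L.IsChain A) (h3 : L.Nodup) (h4 : ∀ x ∈ L, x ∈ S) (h5 : ∀ x ∈ L, x ∉ Ls.flatten) :
    Pack A S (L :: Ls) := by
  refine ⟨fun M hM => ?_, ?_, fun x hx => ?_⟩
  · rcases List.mem_cons.1 hM with rfl | hM
    · exact ⟨h1, h2⟩
    · exact h.1 M hM
  · rw [flatten_cons, List.nodup_append]
    exact ⟨h3, h.2.1, fun a ha b hb e => h5 a ha (e ▸ hb)⟩
  · rw [flatten_cons, List.mem_append] at hx
    exact hx.elim (h4 x) (h.2.2 x)

theorem exists_long : ∀ {Ls : List (List V)}, Ls.length < Ls.flatten.length →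
    ∃ a b t, a :: b :: t ∈ Ls
  | [], h => by simp at h
  | [] :: Ls, h => by
    obtain ⟨a, b, t, h⟩ := exists_long (Ls := Ls) (by simp at h ⊢; omega)
    exact ⟨a, b, t, by simp [h]⟩
  | [x] :: Ls, h => by
    obtain ⟨a, b, t, h⟩ := exists_long (Ls := Ls) (by simp at h ⊢; omega)
    exact ⟨a, b, t, by simp [h]⟩
  | (a :: b :: t) :: Ls, _ => ⟨a, b, t, by simp⟩

theorem Pack.grow {Ls : List (List V)} (h : Pack A S Ls) (hl : Ls.length < S.card) :
    ∃ Ms, Pack A S Ms ∧ Ms.length = Ls.length + 1 ∧ Ls.flatten.length ≤ Ms.flatten.length := by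
  classical
  by_cases hx : ∃ x ∈ S, x ∉ Ls.flatten
  · obtain ⟨x, hx, hx'⟩ := hx
    exact ⟨[x] :: Ls, h.cons (by simp) (by simp) (by simp) (by simpa using hx) (by simpa using hx'),
      rfl, by simp⟩
  · push Not at hx
    have : S.card ≤ Ls.flatten.length :=
      (Finset.card_le_card fun x h => List.mem_toFinset.2 (hx x h)).trans (List.toFinset_card_le _)
    obtain ⟨a, b, t, hm⟩ := exists_long (hl.trans_le this)
    have hp := List.perm_cons_erase hm
    have h' := h.perm hp
    refine ⟨[a] :: (b :: t) :: Ls.erase (a :: b :: t), ⟨fun M hM => ?_, ?_, ?_⟩, ?_, ?_⟩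
    · rcases List.mem_cons.1 hM with rfl | hM
      · simp
      rcases List.mem_cons.1 hM with rfl | hM
      · exact ⟨by simp, (h.1 _ hm).2.of_cons⟩
      · exact h.1 M (List.mem_of_mem_erase hM)
    · exact h'.2.1
    · exact h'.2.2
    · have := hp.length_eq; simp only [length_cons] at this ⊢; omega
    · rw [hp.flatten.length_eq]; simp

theorem cov_exact {p : ℕ} (hp : p ≤ S.card) :
    ∃ Ls, Pack A S Ls ∧ Ls.length = p ∧ Ls.flatten.length = cov A S p := by
  have : ∀ n Ls, Pack A S Ls → Ls.length + n = p → Ls.flatten.length = cov A S p →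
      ∃ Ls, Pack A S Ls ∧ Ls.length = p ∧ Ls.flatten.length = cov A S p := by
    intro n
    induction n with
    | zero => exact fun Ls h1 h2 h3 => ⟨Ls, h1, h2, h3⟩
    | succ n ih =>
      intro Ls h1 h2 h3
      obtain ⟨Ms, m1, m2, m3⟩ := h1.grow (by omega)
      exact ih Ms m1 (by omega) (le_antisymm (le_cov m1 (by omega)) (by omega))
  obtain ⟨Ls, h1, h2, h3⟩ := cov_spec A S p
  exact this (p - Ls.length) Ls h1 (by omega) h3

theorem cov_card {p : ℕ} (hp : S.card ≤ p) : cov A S p = S.card := by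
  refine le_antisymm (cov_le_card p) ?_
  obtain ⟨Ls, h1, h2, h3⟩ := cov_exact (A := A) (S := S) le_rfl
  have := length_le_cov fun L hL => (h1.1 L hL).1
  have := cov_mono (A := A) (S := S) hp
  omega

/-- the coverage function is concave -/
def Concave (A : V → V → Prop) (S : Finset V) : Prop :=
  ∀ p, cov A S (p + 2) + cov A S p ≤ 2 * cov A S (p + 1)

theorem Concave.up (h : Concave A S) {j : ℕ} {k : ℤ}
    (hk : (cov A S (j + 1) : ℤ) - cov A S j ≤ k) (t : ℕ) :
    (cov A S (j + t + 1) : ℤ) - cov A S (j + t) ≤ k ∧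
      (cov A S (j + t) : ℤ) - cov A S j ≤ k * t := by
  induction t with
  | zero => simpa using hk
  | succ t ih =>
    have := h (j + t)
    rw [← add_assoc, Nat.cast_succ, mul_add, mul_one]
    simp only [add_assoc, Nat.reduceAdd] at *
    constructor <;> omega

theorem Concave.down (h : Concave A S) {k : ℤ} (q : ℕ) (t : ℕ)
    (hk : k ≤ (cov A S (q + t + 1) : ℤ) - cov A S (q + t)) :
    k * (t + 1) ≤ (cov A S (q + t + 1) : ℤ) - cov A S q := by
  induction t with
  | zero => simpa using hk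
  | succ t ih =>
    have := h (q + t)
    rw [Nat.cast_succ, mul_add, mul_one]
    simp only [← add_assoc] at hk ⊢
    simp only [add_assoc, Nat.reduceAdd] at *
    have := ih (by omega)
    omega

theorem Concave.slope (h : Concave A S) {j : ℕ} {k : ℤ} {q : ℕ}
    (h1 : j < q → (cov A S (j + 1) : ℤ) - cov A S j ≤ k)
    (h2 : q < j → k ≤ (cov A S j : ℤ) - cov A S (j - 1)) :
    (cov A S q : ℤ) - cov A S j ≤ k * (q - j) := by
  rcases lt_trichotomy j q with hj | rfl | hj
  · obtain ⟨t, rfl⟩ := Nat.exists_eq_add_of_le hj.le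
    have := (h.up (h1 hj) t).2
    simpa using this
  · simp
  · obtain ⟨t, rfl⟩ := Nat.exists_eq_add_of_lt hj
    have := h.down q t (h2 hj)
    push_cast
    linarith

/-- `Ls` maximises the number of covered vertices minus `k` times the number of paths -/
def Opt (A : V → V → Prop) (S : Finset V) (k : ℕ) (Ls : List (List V)) : Prop :=
  ∀ Ms, Pack A S Ms → Ms.flatten.length + k * Ls.length ≤ Ls.flatten.length + k * Ms.length

/-- `c` is a colouring with colours `1..k` (and `0` for no colour) orthogonal to the long paths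
`Ls` and the short paths `Ss` -/
def Col (A : V → V → Prop) (S : Finset V) (k : ℕ) (Ls Ss : List (List V)) (c : V → ℕ) : Prop :=
  (∀ x ∈ S, c x ≤ k) ∧ (∀ u ∈ S, ∀ v ∈ S, u ≠ v → A u v → c u = c v → c u = 0) ∧
    (∀ L ∈ Ls, ∀ j, 0 < j → j ≤ k → ∃ x ∈ L, c x = j) ∧
    ∀ L ∈ Ss, (∀ x ∈ L, c x ≠ 0) ∧ (L.map c).Nodup

/-- internal form of the orthogonality property -/
def Berge (A : V → V → Prop) (S : Finset V) : Prop :=
  ∀ k Ls Ss, Pack A S (Ls ++ Ss) → (∀ x ∈ S, x ∈ (Ls ++ Ss).flatten) → Opt A S k Ls →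
    ∃ c, Col A S k Ls Ss c

theorem wt_one (Ls : List (List V)) : wt (fun _ => 1) Ls = Ls.flatten.length := by
  unfold wt
  generalize Ls.flatten = l
  simp

theorem idx_pairwise [DecidableEq V] {l : List V} (h : l.Nodup) :
    l.Pairwise (fun x y => l.idxOf x < l.idxOf y) := by
  rw [List.pairwise_iff_getElem]
  intro i j hi hj hij
  rwa [h.idxOf_getElem, h.idxOf_getElem]

theorem mrg_of_rank {β : Type} [Preorder β] (ρ : V → β)
    (h : ∀ x ∈ S, ∀ y ∈ S, A x y → ρ x < ρ y) (m : ℕ) : Mrg A S m := by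
  intro Ls Ks _ h1 h2 h3 h4
  cases Ks with
  | nil => exact ⟨Ls, ⟨h1, by simpa using h3, by simpa using h4⟩, rfl, by simp⟩
  | cons K Ks =>
    exfalso
    obtain ⟨a, t, rfl, hc⟩ := h2 K (by simp)
    have hS : ∀ x ∈ a :: t ++ [a], x ∈ S := fun x hx => h4 x (by
      simp only [cons_append, mem_cons, mem_append, flatten_cons] at hx ⊢
      tauto)
    have : IsChain (· < ·) ((a :: t ++ [a]).map ρ) := by
      rw [isChain_map]
      exact hc.imp_of_mem_imp fun x y hx hy hxy => h x (hS x hx) y (hS y hy) hxy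
    have := this.pairwise
    simp only [cons_append, map_cons, pairwise_cons] at this
    exact lt_irrefl _ (this.1 (ρ a) (by simp))

end Pool.Agent.Lib.MP_6d5d56_co
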