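import Pool.Agent.Lib.MP_6d5d56_co.Cov

/-! Cutting paths into segments inside modules, and expanding paths of the quotient. -/

set_option autoImplicit false

namespace Pool.Agent.Lib.MP_6d5d56_co

open List

variable {V W : Type} [DecidableEq W]

theorem sum_fiber {β M : Type} [AddCommMonoid M] [Fintype W] (φ : β → W) (h : β → M)
    (l : List β) : (l.map h).sum = ∑ w, ((l.filter fun y => φ y = w).map h).sum := by
  induction l with
  | nil => simp
  | cons a l ih =>
    have : ∀ w, (((a :: l).filter fun y => φ y = w).map h).sum =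
        (if φ a = w then h a else 0) + ((l.filter fun y => φ y = w).map h).sum := by
      intro w
      by_cases e : φ a = w <;> simp [e]
    simp_rw [this]
    rw [Finset.sum_add_distrib, Finset.sum_ite_eq, ← ih]
    simp

/-- the maximal segments of a path inside one module -/
def cut (f : V → W) : List V → List (W × List V)
  | [] => []
  | a :: L =>
    match cut f L with
    | [] => [(f a, [a])]
    | y :: r => if f a = y.1 then (y.1, a :: y.2) :: r else (f a, [a]) :: y :: r

/-- arcs between different modules -/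
def Ext (V : Type) (Q : W → W → Prop) (x y : W × List V) : Prop := x.1 ≠ y.1 ∧ Q x.1 y.1

variable {A : V → V → Prop} {S : Finset V} {f : V → W} {Q : W → W → Prop}

theorem cut_flatten (f : V → W) : ∀ L : List V, ((cut f L).map Prod.snd).flatten = L
  | [] => rfl
  | a :: L => by
    have := cut_flatten f L
    unfold cut
    split
    · next h => rw [h] at this; simpa using this
    · next y r h =>
      rw [h] at this
      split_ifs <;> simpa using this

theorem cut_mem (f : V → W) : ∀ L : List V, ∀ y ∈ cut f L, y.2 ≠ [] ∧ ∀ x ∈ y.2, f x = y.1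
  | [] => by simp [cut]
  | a :: L => by
    have := cut_mem f L
    unfold cut
    split
    · simp
    · next y r h =>
      rw [h] at this
      split_ifs with e
      · have h1 := this y (by simp)
        intro z hz
        rcases List.mem_cons.1 hz with rfl | hz
        · exact ⟨by simp, by simpa [e] using h1.2⟩
        · exact this z (by simp [hz])
      · intro z hz
        rcases List.mem_cons.1 hz with rfl | hz
        · simp
        · exact this z hz

theorem cut_infix (f : V → W) (L : List V) (y : W × List V) (hy : y ∈ cut f L) : y.2 <:+: L := by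
  have := List.infix_of_mem_flatten (List.mem_map_of_mem (f := Prod.snd) hy)
  rwa [cut_flatten] at this

theorem cut_ne_nil (f : V → W) {L : List V} (h : L ≠ []) : cut f L ≠ [] := by
  intro e
  have := cut_flatten f L
  rw [e] at this
  exact h this.symm

theorem cut_chain (hadj : ∀ u ∈ S, ∀ v ∈ S, f u ≠ f v → (A u v ↔ Q (f u) (f v))) :
    ∀ L : List V, L.IsChain A → (∀ x ∈ L, x ∈ S) → (cut f L).IsChain (Ext V Q)
  | [], _, _ => by simp [cut]
  | a :: L, h1, h2 => by
    have h3 := cut_chain hadj L h1.of_cons fun x hx => h2 x (by simp [hx])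
    have h4 := cut_flatten f L
    have h5 := cut_mem f L
    unfold cut
    split
    · simp
    · next y r h =>
      rw [h] at h3 h4 h5
      split_ifs with e
      · exact IsChain.imp_head (x := y) (y := (y.1, a :: y.2)) (fun h => h) h3
      · refine isChain_cons_cons.2 ⟨⟨e, ?_⟩, h3⟩
        obtain ⟨h6, h7⟩ := h5 y (by simp)
        obtain ⟨b, t, hb⟩ := List.exists_cons_of_ne_nil h6
        rw [map_cons, flatten_cons, hb] at h4
        subst h4
        have e' : f b = y.1 := h7 b (by simp [hb])
        rw [← e'] at e ⊢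
        exact (hadj a (h2 a (by simp)) b (h2 b (by simp)) e).1 (isChain_cons_cons.1 h1).1

/-- all segments of a family of paths -/
def segs (f : V → W) (Ls : List (List V)) : List (W × List V) := (Ls.map (cut f)).flatten

/-- the segments inside the module `w` -/
def modp (f : V → W) (Ls : List (List V)) (w : W) : List (List V) :=
  ((segs f Ls).filter fun y => y.1 = w).map Prod.snd

theorem segs_flatten (f : V → W) (Ls : List (List V)) :
    ((segs f Ls).map Prod.snd).flatten = Ls.flatten := by
  induction Ls with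
  | nil => rfl
  | cons L Ls ih =>
    simp only [segs, map_cons, flatten_cons, map_append, flatten_append] at ih ⊢
    rw [ih, cut_flatten]

theorem mem_segs {Ls : List (List V)} {y : W × List V} :
    y ∈ segs f Ls ↔ ∃ L ∈ Ls, y ∈ cut f L := by
  simp [segs]

theorem segs_mem {Ls : List (List V)} {y : W × List V} (h : y ∈ segs f Ls) :
    y.2 ≠ [] ∧ ∀ x ∈ y.2, f x = y.1 := by
  obtain ⟨L, -, h⟩ := mem_segs.1 h
  exact cut_mem f L y h

theorem mem_modp {Ls : List (List V)} {L : List V} (hL : L ∈ Ls) {y : W × List V}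
    (hy : y ∈ cut f L) : y.2 ∈ modp f Ls y.1 :=
  List.mem_map_of_mem (List.mem_filter.2 ⟨mem_segs.2 ⟨L, hL, hy⟩, by simp⟩)

theorem modp_append (f : V → W) (Ls Ss : List (List V)) (w : W) :
    modp f (Ls ++ Ss) w = modp f Ls w ++ modp f Ss w := by
  simp [modp, segs]

theorem Pack.modp {Ls : List (List V)} (h : Pack A S Ls) (f : V → W) (w : W) :
    Pack A (S.filter fun x => f x = w) (modp f Ls w) := by
  have hs : (MP_6d5d56_co.modp f Ls w).flatten <+ Ls.flatten := by
    rw [← segs_flatten f Ls]
    exact (List.filter_sublist.map _).flatten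
  refine ⟨fun L hL => ?_, h.2.1.sublist hs, fun x hx => Finset.mem_filter.2
    ⟨h.2.2 x (hs.subset hx), ?_⟩⟩
  · obtain ⟨y, hy, rfl⟩ := List.mem_map.1 hL
    obtain ⟨M, hM, hy'⟩ := mem_segs.1 (List.mem_filter.1 hy).1
    obtain ⟨s, t, e⟩ := cut_infix f M y hy'
    exact ⟨(cut_mem f M y hy').1, (e ▸ (h.1 M hM).2).left_of_append.right_of_append⟩
  · obtain ⟨L, hL, hx⟩ := mem_flatten.1 hx
    obtain ⟨y, hy, rfl⟩ := List.mem_map.1 hL
    rw [List.mem_filter] at hy
    rw [(segs_mem hy.1).2 x hx]
    simpa using hy.2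

theorem mem_modp_flatten {Ls : List (List V)} {x : V} (hx : x ∈ Ls.flatten) :
    x ∈ (modp f Ls (f x)).flatten := by
  rw [← segs_flatten f Ls] at hx
  obtain ⟨L, hL, hx⟩ := mem_flatten.1 hx
  obtain ⟨y, hy, rfl⟩ := List.mem_map.1 hL
  exact mem_flatten.2 ⟨y.2, List.mem_map_of_mem (List.mem_filter.2
    ⟨hy, by simp [(segs_mem hy).2 x hx]⟩), hx⟩

theorem sum_modp [Fintype W] (f : V → W) (Ls : List (List V)) :
    Ls.flatten.length = ∑ w, (modp f Ls w).flatten.length := by
  rw [← segs_flatten f Ls, length_flatten, map_map, sum_fiber Prod.fst]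
  simp only [modp, length_flatten, map_map]

theorem segs_nodup {Ls : List (List V)} (h : Pack A S Ls) (f : V → W) : (segs f Ls).Nodup := by
  refine List.Nodup.of_map Prod.snd (nodup_of_flatten (fun L hL => ?_) ?_)
  · obtain ⟨y, hy, rfl⟩ := List.mem_map.1 hL
    exact (segs_mem hy).1
  · rw [segs_flatten]; exact h.2.1

theorem Pack.cut (hadj : ∀ u ∈ S, ∀ v ∈ S, f u ≠ f v → (A u v ↔ Q (f u) (f v)))
    {Ls : List (List V)} (h : Pack A S Ls) {S' : Finset (W × List V)}
    (hS : ∀ y ∈ segs f Ls, y ∈ S') : Pack (Ext V Q) S' (Ls.map (cut f)) := by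
  refine ⟨fun Y hY => ?_, segs_nodup h f, hS⟩
  obtain ⟨L, hL, rfl⟩ := List.mem_map.1 hY
  exact ⟨cut_ne_nil f (h.1 L hL).1, cut_chain hadj L (h.1 L hL).2
    fun x hx => h.2.2 x (mem_flatten.2 ⟨L, hL, hx⟩)⟩

theorem exists_seg {β γ : Type} (φ : β → W) (d : γ) : ∀ (Y : List β), Y.Nodup →
    ∀ R : W → List γ, (∀ w, (R w).length = (Y.filter fun y => φ y = w).length) →
      ∃ g : β → γ, ∀ w, (Y.filter fun y => φ y = w).map g = R w
  | [], _, R, h => ⟨fun _ => d, fun w => by
      simpa using (List.length_eq_zero_iff.1 (by simpa using h w)).symm⟩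
  | y :: Y, hn, R, h => by
    classical
    rw [List.nodup_cons] at hn
    obtain ⟨r, rs, e⟩ := List.exists_cons_of_length_pos (l := R (φ y)) (by rw [h]; simp)
    obtain ⟨g, hg⟩ := exists_seg φ d Y hn.2 (Function.update R (φ y) rs) (fun w => by
      have := h w
      by_cases e' : φ y = w
      · subst e'; rw [e] at this; simpa using this
      · rw [Function.update_of_ne (Ne.symm e')]; simpa [e'] using this)
    refine ⟨Function.update g y r, fun w => ?_⟩
    have e1 : (Y.filter fun y => φ y = w).map (Function.update g y r) =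
        (Y.filter fun y => φ y = w).map g :=
      List.map_congr_left fun z hz => Function.update_of_ne
        (fun e : z = y => hn.1 (e ▸ (List.mem_filter.1 hz).1)) _ _
    by_cases e' : φ y = w
    · subst e'
      rw [filter_cons_of_pos (by simp), map_cons, e1, hg, e]; simp
    · rw [filter_cons_of_neg (by simpa using e'), e1, hg, Function.update_of_ne (Ne.symm e')]

theorem expand [Fintype W] (hadj : ∀ u ∈ S, ∀ v ∈ S, f u ≠ f v → (A u v ↔ Q (f u) (f v)))
    {S' : Finset (W × List V)} {Ys : List (List (W × List V))} (h : Pack (Ext V Q) S' Ys)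
    (hc : ∀ w, (Ys.flatten.filter fun y => y.1 = w).length ≤ (S.filter fun x => f x = w).card) :
    ∃ Ms, Pack A S Ms ∧ Ms.length = Ys.length ∧ Ms.flatten.length =
      ∑ w, cov A (S.filter fun x => f x = w) (Ys.flatten.filter fun y => y.1 = w).length := by
  classical
  choose R r1 r2 r3 using fun w => cov_exact (A := A) (hc w)
  obtain ⟨g, hg⟩ := exists_seg Prod.fst [] Ys.flatten h.2.1 R r2
  have g1 : ∀ y ∈ Ys.flatten, g y ∈ R y.1 := fun y hy => by
    rw [← hg]; exact List.mem_map_of_mem (List.mem_filter.2 ⟨hy, by simp⟩)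
  have g2 : ∀ y ∈ Ys.flatten, ∀ x ∈ g y, x ∈ S ∧ f x = y.1 := fun y hy x hx =>
    Finset.mem_filter.1 ((r1 y.1).2.2 x (mem_flatten.2 ⟨_, g1 y hy, hx⟩))
  have e : (Ys.map fun Y => (Y.map g).flatten).flatten = (Ys.flatten.map g).flatten := by
    generalize Ys = Z
    induction Z <;> simp_all
  refine ⟨Ys.map fun Y => (Y.map g).flatten, ⟨fun L hL => ?_, ?_, fun x hx => ?_⟩, by simp, ?_⟩
  · obtain ⟨Y, hY, rfl⟩ := List.mem_map.1 hL
    have m : ∀ y ∈ Y, y ∈ Ys.flatten := fun y hy => mem_flatten.2 ⟨Y, hY, hy⟩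
    have n : [] ∉ Y.map g := fun h' => by
      obtain ⟨y, hy, e⟩ := List.mem_map.1 h'
      exact ((r1 y.1).1 _ (g1 y (m y hy))).1 e
    constructor
    · obtain ⟨y, t, rfl⟩ := List.exists_cons_of_ne_nil (h.1 Y hY).1
      have : g y ≠ [] := fun e => n (by simp [e])
      simp [this]
    · rw [isChain_flatten n, isChain_map]
      refine ⟨fun l hl => ?_, (h.1 Y hY).2.imp_of_mem_imp fun a b ha hb hab x hx y hy => ?_⟩
      · obtain ⟨y, hy, rfl⟩ := List.mem_map.1 hl
        exact ((r1 y.1).1 _ (g1 y (m y hy))).2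
      · obtain ⟨x1, x2⟩ := g2 a (m a ha) x (List.mem_of_mem_getLast? hx)
        obtain ⟨y1, y2⟩ := g2 b (m b hb) y (List.mem_of_mem_head? hy)
        rw [hadj x x1 y y1 (by rw [x2, y2]; exact hab.1), x2, y2]
        exact hab.2
  · rw [e, List.nodup_iff_count_le_one]
    intro x
    rw [count_flatten, map_map, sum_fiber Prod.fst]
    have : ∀ w, (((Ys.flatten.filter fun y => y.1 = w)).map (count x ∘ g)).sum =
        count x (R w).flatten := fun w => by rw [← hg, count_flatten, map_map]
    simp_rw [this]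
    rw [Finset.sum_eq_single (f x) (fun w _ hw => List.count_eq_zero.2 fun hx =>
      hw (Finset.mem_filter.1 ((r1 w).2.2 x hx)).2.symm) (by simp)]
    exact List.nodup_iff_count_le_one.1 (r1 _).2.1 x
  · rw [e] at hx
    obtain ⟨L, hL, hx⟩ := mem_flatten.1 hx
    obtain ⟨y, hy, rfl⟩ := List.mem_map.1 hL
    exact (g2 y hy x hx).1
  · rw [e, length_flatten, map_map, sum_fiber Prod.fst]
    refine Finset.sum_congr rfl fun w _ => ?_
    rw [← r3, ← hg, length_flatten, map_map]

end Pool.Agent.Lib.MP_6d5d56_co
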