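import Mathlib

/-! Digraphs built by repeated substitution into acyclic, semicomplete multipartite and
connected locally semicomplete digraphs. -/

set_option autoImplicit false

namespace Pool.Agent.Lib.MP_6d5d56_co

/-- `Q` has no directed cycle. -/
def Acyclic {W : Type} (Q : Digraph W) : Prop :=
  ∀ w, ¬ Relation.TransGen Q.Adj w w

/-- `Q` is semicomplete multipartite: the vertices are split into parts, and two vertices are
joined by at least one arc exactly when they lie in different parts. -/
def SemicompleteMultipartite {W : Type} (Q : Digraph W) : Prop :=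
  ∃ part : W → ℕ, ∀ a b, (Q.Adj a b ∨ Q.Adj b a) ↔ part a ≠ part b

/-- `Q` is locally semicomplete (two in-neighbours of a vertex are adjacent, and so are two
out-neighbours) and its underlying graph is connected. -/
def ConnectedLocallySemicomplete {W : Type} (Q : Digraph W) : Prop :=
  (∀ x a b, a ≠ b → Q.Adj a x → Q.Adj b x → Q.Adj a b ∨ Q.Adj b a) ∧
  (∀ x a b, a ≠ b → Q.Adj x a → Q.Adj x b → Q.Adj a b ∨ Q.Adj b a) ∧
  ∀ a b, Relation.ReflTransGen (fun x y => Q.Adj x y ∨ Q.Adj y x) a b

/-- The subdigraph of `G` induced by `S` is quasi-transitive. -/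
def QuasiTransitiveOn {V : Type} (G : Digraph V) (S : Set V) : Prop :=
  ∀ x ∈ S, ∀ y ∈ S, ∀ z ∈ S, x ≠ z → G.Adj x y → G.Adj y z → G.Adj x z ∨ G.Adj z x

/-- The set `S` is the union of the vertex sets of two disjoint directed paths of `G` (each may
be empty). -/
def TwoPathCover {V : Type} (G : Digraph V) (S : Set V) : Prop :=
  ∃ P₁ P₂ : List V, P₁.IsChain G.Adj ∧ P₂.IsChain G.Adj ∧ (P₁ ++ P₂).Nodup ∧
    ∀ v, v ∈ S ↔ v ∈ P₁ ++ P₂

/-- `Decomposable G S`: the subdigraph of `G` induced by `S` is covered by two disjoint paths, or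
is quasi-transitive, or is a composition `Q[M_w : w]` of decomposable subdigraphs `M_w` (the
fibres of `f`) over an acyclic, semicomplete multipartite or connected locally semicomplete
digraph `Q`. -/
inductive Decomposable {V : Type} (G : Digraph V) : Set V → Prop
  | twoPaths (S : Set V) (h : TwoPathCover G S) : Decomposable G S
  | quasi (S : Set V) (h : QuasiTransitiveOn G S) : Decomposable G S
  | subst (S : Set V) (W : Type) (Q : Digraph W) (f : V → W)
      (hQ : Acyclic Q ∨ SemicompleteMultipartite Q ∨ ConnectedLocallySemicomplete Q)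
      (surj : ∀ w, ∃ v ∈ S, f v = w)
      (adj : ∀ u ∈ S, ∀ v ∈ S, f u ≠ f v → (G.Adj u v ↔ Q.Adj (f u) (f v)))
      (parts : ∀ w, Decomposable G {v | v ∈ S ∧ f v = w}) : Decomposable G S

end Pool.Agent.Lib.MP_6d5d56_co
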