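import Mathlib

/-! A kernel lemma for systems of difference constraints with switchable arcs. -/

set_option autoImplicit false

namespace Pool.Agent.Lib.MP_6d5d56_co.H35

variable {N W : Type}

/-- solutions of the system in which the switches of `X` are on -/
def Sol (R0 : N → N → ℤ → Prop) (R1 : W → N → ℤ → Prop) (nd : W → N) (b : N → ℤ)
    (X : Finset W) (h : N → ℤ) : Prop :=
  (∀ v, b v ≤ h v) ∧ (∀ u v c, R0 u v c → h u + c ≤ h v) ∧
    ∀ s ∈ X, ∀ v c, R1 s v c → h (nd s) + c ≤ h v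

variable {R0 : N → N → ℤ → Prop} {R1 : W → N → ℤ → Prop} {nd : W → N} {b : N → ℤ}

theorem Sol.anti {X Y : Finset W} {h : N → ℤ} (hs : Sol R0 R1 nd b Y h) (hXY : X ⊆ Y) :
    Sol R0 R1 nd b X h :=
  ⟨hs.1, hs.2.1, fun s h => hs.2.2 s (hXY h)⟩

theorem exists_least {X : Finset W} {p : N → ℤ} (hp : Sol R0 R1 nd b X p) :
    ∃ h, Sol R0 R1 nd b X h ∧ ∀ g, Sol R0 R1 nd b X g → ∀ v, h v ≤ g v := by
  have key : ∀ v, ∃ g, Sol R0 R1 nd b X g ∧ ∀ g', Sol R0 R1 nd b X g' → g v ≤ g' v := by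
    intro v
    obtain ⟨z, ⟨g, hg, rfl⟩, hz⟩ := Int.exists_least_of_bdd
      (P := fun z => ∃ g, Sol R0 R1 nd b X g ∧ g v = z)
      ⟨b v, by rintro z ⟨g, hg, rfl⟩; exact hg.1 v⟩ ⟨p v, p, hp, rfl⟩
    exact ⟨g, hg, fun g' hg' => hz _ ⟨g', hg', rfl⟩⟩
  choose G hG hmin using key
  refine ⟨fun v => G v v, ⟨fun v => (hG v).1 v, fun u v c h => ?_, fun s hs v c h => ?_⟩,
    fun g hg v => hmin v g hg⟩
  · have := (hG v).2.1 u v c h
    have := hmin u _ (hG v)
    simp only; omega
  · have := (hG v).2.2 s hs v c h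
    have := hmin (nd s) _ (hG v)
    simp only; omega

theorem kernel_aux [DecidableEq W] (p : N → ℤ) : ∀ (n : ℕ) (U D : Finset W), U.card = n →
    Disjoint D U → Sol R0 R1 nd b (D ∪ U) p →
    ∃ X, D ⊆ X ∧ X ⊆ D ∪ U ∧ ∃ h, Sol R0 R1 nd b X h ∧
      (∀ g, Sol R0 R1 nd b X g → ∀ v, h v ≤ g v) ∧ ∀ s ∈ U, (s ∈ X ↔ h (nd s) < 0) := by
  intro n
  induction n with
  | zero =>
    intro U D hU _ hp
    obtain rfl := Finset.card_eq_zero.1 hU
    obtain ⟨h, h1, h2⟩ := exists_least hp
    exact ⟨D ∪ ∅, by simp, le_rfl, h, h1, h2, by simp⟩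
  | succ n ih =>
    intro U D hU hd hp
    obtain ⟨h, h1, h2⟩ := exists_least (hp.anti Finset.subset_union_left)
    obtain ⟨s, hs, hmax⟩ := Finset.exists_max_image U (fun s => h (nd s) - p (nd s))
      (Finset.card_pos.1 (by omega))
    have hc : (U.erase s).card = n := by rw [Finset.card_erase_of_mem hs]; omega
    have hsD : s ∉ D := fun h => Finset.disjoint_left.1 hd h hs
    have hg : Sol R0 R1 nd b (D ∪ U) fun v => max (h v) (p v + (h (nd s) - p (nd s))) := by
      refine ⟨fun v => le_max_of_le_left (h1.1 v), fun u v c e => ?_, fun t ht v c e => ?_⟩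
      · have := h1.2.1 u v c e
        have := hp.2.1 u v c e
        simp only; omega
      · have := hp.2.2 t ht v c e
        rcases Finset.mem_union.1 ht with ht | ht
        · have := h1.2.2 t ht v c e
          simp only; omega
        · have := hmax t ht
          simp only at this ⊢; omega
    by_cases hneg : h (nd s) < 0
    · have e : insert s D ∪ U.erase s = D ∪ U := by
        ext x; simp only [Finset.mem_union, Finset.mem_insert, Finset.mem_erase]
        by_cases hx : x = s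
        · simp [hx, hs]
        · simp [hx]
      obtain ⟨X, x1, x2, g, g1, g2, g3⟩ := ih (U.erase s) (insert s D) hc (by
        rw [Finset.disjoint_insert_left]
        exact ⟨by simp, hd.mono_right (Finset.erase_subset _ _)⟩) (e ▸ hp)
      rw [e] at x2
      refine ⟨X, (Finset.subset_insert _ _).trans x1, x2, g, g1, g2, fun t ht => ?_⟩
      by_cases hts : t = s
      · subst hts
        have := g2 _ (hg.anti x2) (nd t)
        exact ⟨fun _ => by omega, fun _ => x1 (Finset.mem_insert_self _ _)⟩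
      · exact g3 t (Finset.mem_erase.2 ⟨hts, ht⟩)
    · have e : D ∪ U.erase s ⊆ D ∪ U := Finset.union_subset_union_right (Finset.erase_subset _ _)
      obtain ⟨X, x1, x2, g, g1, g2, g3⟩ := ih (U.erase s) D hc
        (hd.mono_right (Finset.erase_subset _ _)) (hp.anti e)
      refine ⟨X, x1, x2.trans e, g, g1, g2, fun t ht => ?_⟩
      by_cases hts : t = s
      · subst hts
        have := h2 g (g1.anti x1) (nd t)
        refine ⟨fun hx => ?_, fun _ => by omega⟩
        have := x2 hx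
        simp [hsD] at this
      · exact g3 t (Finset.mem_erase.2 ⟨hts, ht⟩)

theorem kernel (p : N → ℤ) (U : Finset W) (hp : Sol R0 R1 nd b U p) :
    ∃ X, X ⊆ U ∧ ∃ h, Sol R0 R1 nd b X h ∧
      (∀ g, Sol R0 R1 nd b X g → ∀ v, h v ≤ g v) ∧ ∀ s ∈ U, (s ∈ X ↔ h (nd s) < 0) := by
  classical
  obtain ⟨X, -, x2, h⟩ := kernel_aux p _ U ∅ rfl (by simp) (by simpa using hp)
  exact ⟨X, by simpa using x2, h⟩

end Pool.Agent.Lib.MP_6d5d56_co.H35
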