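import Mathlib

/-! Families of disjoint paths, and decomposition of a partial matching into paths and cycles. -/

set_option autoImplicit false

namespace Pool.Agent.Lib.MP_6d5d56_co

open List

variable {V : Type}

/-- a family of disjoint nonempty paths inside `S` -/
def Pack (A : V → V → Prop) (S : Finset V) (Ls : List (List V)) : Prop :=
  (∀ L ∈ Ls, L ≠ [] ∧ L.IsChain A) ∧ Ls.flatten.Nodup ∧ ∀ x ∈ Ls.flatten, x ∈ S

/-- a closed chain -/
def Cyc (A : V → V → Prop) (K : List V) : Prop := ∃ a t, K = a :: t ∧ IsChain A (a :: t ++ [a])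

theorem Pack.nil (A : V → V → Prop) (S : Finset V) : Pack A S [] := by simp [Pack]

theorem Pack.perm {A : V → V → Prop} {S : Finset V} {Ls Ms : List (List V)} (h : Pack A S Ls)
    (p : Ls ~ Ms) : Pack A S Ms :=
  ⟨fun L hL => h.1 L (p.mem_iff.2 hL), p.flatten.nodup_iff.1 h.2.1,
    fun x hx => h.2.2 x (p.flatten.mem_iff.2 hx)⟩

theorem Pack.sublist {A : V → V → Prop} {S : Finset V} {Ls Ms : List (List V)} (h : Pack A S Ls)
    (p : Ms <+ Ls) : Pack A S Ms :=
  ⟨fun L hL => h.1 L (p.subset hL), h.2.1.sublist p.flatten,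
    fun x hx => h.2.2 x (p.flatten.subset hx)⟩

theorem Pack.mono {A B : V → V → Prop} {S T : Finset V} {Ls : List (List V)} (h : Pack A S Ls)
    (hST : S ⊆ T) (hAB : ∀ x ∈ S, ∀ y ∈ S, A x y → B x y) : Pack B T Ls :=
  ⟨fun L hL => ⟨(h.1 L hL).1, (h.1 L hL).2.imp_of_mem_imp fun a b ha hb hab =>
    hAB a (h.2.2 a (mem_flatten.2 ⟨L, hL, ha⟩)) b (h.2.2 b (mem_flatten.2 ⟨L, hL, hb⟩)) hab⟩,
    h.2.1, fun x hx => hST (h.2.2 x hx)⟩

theorem Pack.nodup_mem {A : V → V → Prop} {S : Finset V} {Ls : List (List V)} (h : Pack A S Ls)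
    {L : List V} (hL : L ∈ Ls) : L.Nodup := (List.nodup_flatten.1 h.2.1).1 L hL

theorem Pack.cov_le {A : V → V → Prop} {S : Finset V} {Ls : List (List V)} (h : Pack A S Ls) :
    Ls.flatten.length ≤ S.card := by
  classical
  rw [← List.toFinset_card_of_nodup h.2.1]
  exact Finset.card_le_card fun x hx => h.2.2 x (List.mem_toFinset.1 hx)

theorem length_le_cov : ∀ {Ls : List (List V)}, (∀ L ∈ Ls, L ≠ []) → Ls.length ≤ Ls.flatten.length
  | [], _ => by simp
  | L :: Ls, h => by
    have h1 := length_le_cov (Ls := Ls) fun M hM => h M (by simp [hM])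
    have h2 : 0 < L.length := List.length_pos_iff.2 (h L (by simp))
    simp only [length_cons, flatten_cons, length_append]; omega

theorem nodup_of_flatten : ∀ {Ls : List (List V)}, (∀ L ∈ Ls, L ≠ []) → Ls.flatten.Nodup → Ls.Nodup
  | [], _, _ => by simp
  | L :: Ls, h, hn => by
    rw [flatten_cons, List.nodup_append] at hn
    refine List.nodup_cons.2 ⟨fun hL => ?_, nodup_of_flatten (fun M hM => h M (by simp [hM])) hn.2.1⟩
    obtain ⟨a, ha⟩ := List.exists_mem_of_ne_nil L (h L (by simp))
    exact hn.2.2 a ha a (mem_flatten.2 ⟨L, hL, ha⟩) rfl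

theorem eq_of_mem_mem : ∀ {Ls : List (List V)}, Ls.flatten.Nodup → ∀ {L M : List V} {x : V},
    L ∈ Ls → M ∈ Ls → x ∈ L → x ∈ M → L = M
  | [], _, _, _, _, h, _, _, _ => by simp at h
  | P :: Ls, hn, L, M, x, hL, hM, h1, h2 => by
    rw [flatten_cons, List.nodup_append] at hn
    rcases List.mem_cons.1 hL with e1 | hL' <;> rcases List.mem_cons.1 hM with e2 | hM'
    · rw [e1, e2]
    · exact absurd rfl (hn.2.2 x (e1 ▸ h1) x (mem_flatten.2 ⟨M, hM', h2⟩))
    · exact absurd rfl (hn.2.2 x (e2 ▸ h2) x (mem_flatten.2 ⟨L, hL', h1⟩))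
    · exact eq_of_mem_mem hn.2.1 hL' hM' h1 h2

theorem isChain_and {P Q : V → V → Prop} {L : List V} (h1 : L.IsChain P) (h2 : L.IsChain Q) :
    L.IsChain (fun x y => P x y ∧ Q x y) := by
  rw [isChain_iff_getElem] at *
  exact fun i hi => ⟨h1 i hi, h2 i hi⟩

theorem next_or_last {P : V → V → Prop} : ∀ {L : List V}, L.IsChain P → ∀ x ∈ L,
    (∃ y ∈ L, P x y) ∨ L.getLast? = some x
  | [], _, _, h => by simp at h
  | [a], _, x, h => by right; simp at h; simp [h]
  | a :: b :: t, hc, x, h => by
    rw [isChain_cons_cons] at hc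
    rcases List.mem_cons.1 h with rfl | h
    · exact Or.inl ⟨b, by simp, hc.1⟩
    · rcases next_or_last hc.2 x h with ⟨y, hy, h⟩ | h
      · exact Or.inl ⟨y, List.mem_cons_of_mem _ hy, h⟩
      · right; rw [List.getLast?_cons_cons]; exact h

theorem prev_or_head {P : V → V → Prop} : ∀ {L : List V}, L.IsChain P → ∀ x ∈ L,
    (∃ y ∈ L, P y x) ∨ L.head? = some x
  | [], _, _, h => by simp at h
  | [a], _, x, h => by right; simp at h; simp [h]
  | a :: b :: t, hc, x, h => by
    rw [isChain_cons_cons] at hc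
    rcases List.mem_cons.1 h with rfl | h
    · right; rfl
    · rcases prev_or_head hc.2 x h with ⟨y, hy, h⟩ | h
      · exact Or.inl ⟨y, List.mem_cons_of_mem _ hy, h⟩
      · simp only [head?_cons, Option.some.injEq] at h
        subst h
        exact Or.inl ⟨a, by simp, hc.1⟩

theorem flatten_singletons (l : List V) : (l.map fun x => [x]).flatten = l := by
  induction l <;> simp_all

theorem decomp (A : V → V → Prop) (C : Finset V) (T : Finset (V × V)) :
    (∀ e ∈ T, e.1 ∈ C ∧ e.2 ∈ C ∧ A e.1 e.2) →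
    (∀ e ∈ T, ∀ e' ∈ T, e.1 = e'.1 → e = e') → (∀ e ∈ T, ∀ e' ∈ T, e.2 = e'.2 → e = e') →
    ∃ Ls Ks : List (List V), (∀ L ∈ Ls, L ≠ [] ∧ L.IsChain A) ∧ (∀ K ∈ Ks, Cyc A K) ∧
      Ls.flatten ++ Ks.flatten ~ C.toList ∧ Ls.length + T.card = C.card ∧
      (∀ x ∈ C, (∀ e ∈ T, e.1 ≠ x) → ∃ L ∈ Ls, L.getLast? = some x) ∧
      (∀ x ∈ C, (∀ e ∈ T, e.2 ≠ x) → ∃ L ∈ Ls, L.head? = some x) := by
  classical
  induction T using Finset.induction_on with
  | empty =>
    intro _ _ _
    refine ⟨C.toList.map fun x => [x], [], by simp, by simp, by simp [flatten_singletons], by simp,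
      fun x hx _ => ⟨[x], by simp [hx], rfl⟩, fun x hx _ => ⟨[x], by simp [hx], rfl⟩⟩
  | insert e T he ih =>
    intro h1 h2 h3
    obtain ⟨Ls, Ks, a1, a2, a3, a4, a5, a6⟩ := ih (fun e he => h1 e (by simp [he]))
      (fun e he e' he' => h2 e (by simp [he]) e' (by simp [he']))
      (fun e he e' he' => h3 e (by simp [he]) e' (by simp [he']))
    obtain ⟨u, v⟩ := e
    obtain ⟨hu, hv, huv⟩ := h1 (u, v) (by simp)
    simp only at hu hv huv
    obtain ⟨L1, hL1, l1⟩ := a5 u hu fun e' he' h =>
      he (h2 e' (by simp [he']) (u, v) (by simp) h ▸ he')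
    obtain ⟨L2, hL2, l2⟩ := a6 v hv fun e' he' h =>
      he (h3 e' (by simp [he']) (u, v) (by simp) h ▸ he')
    have hp1 := List.perm_cons_erase hL1
    rw [Finset.card_insert_of_notMem he]
    by_cases h12 : L1 = L2
    · subst h12
      refine ⟨Ls.erase L1, L1 :: Ks, fun L hL => a1 L (List.mem_of_mem_erase hL), ?_, ?_, ?_, ?_, ?_⟩
      · intro K hK
        rcases List.mem_cons.1 hK with rfl | hK
        · obtain ⟨t, ht⟩ : ∃ t, K = v :: t := by
            cases K with
            | nil => simp at l2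
            | cons a t => simp at l2; exact ⟨t, by rw [l2]⟩
          refine ⟨v, t, ht, ?_⟩
          rw [← ht, isChain_append]
          refine ⟨(a1 K hL1).2, by simp, fun x hx y hy => ?_⟩
          rw [l1] at hx
          simp at hx hy
          rw [← hx, ← hy]; exact huv
        · exact a2 K hK
      · refine Perm.trans ?_ a3
        have := hp1.flatten
        rw [flatten_cons] at this ⊢
        refine Perm.trans ?_ (this.symm.append_right _)
        rw [← append_assoc]
        exact perm_append_comm.append_right _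
      · have := hp1.length_eq
        simp only [length_cons] at this
        omega
      · intro x hx hT
        obtain ⟨L, hL, hl⟩ := a5 x hx fun e' he' => hT e' (by simp [he'])
        refine ⟨L, (List.mem_erase_of_ne ?_).2 hL, hl⟩
        rintro rfl
        rw [l1] at hl
        exact hT (u, v) (by simp) (by simpa using hl)
      · intro x hx hT
        obtain ⟨L, hL, hl⟩ := a6 x hx fun e' he' => hT e' (by simp [he'])
        refine ⟨L, (List.mem_erase_of_ne ?_).2 hL, hl⟩
        rintro rfl
        rw [l2] at hl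
        exact hT (u, v) (by simp) (by simpa using hl)
    · have hL2' : L2 ∈ Ls.erase L1 := (List.mem_erase_of_ne (Ne.symm h12)).2 hL2
      have hp2 := List.perm_cons_erase hL2'
      have hp : Ls ~ L1 :: L2 :: (Ls.erase L1).erase L2 := hp1.trans (hp2.cons _)
      refine ⟨(L1 ++ L2) :: (Ls.erase L1).erase L2, Ks, ?_, a2, ?_, ?_, ?_, ?_⟩
      · intro L hL
        rcases List.mem_cons.1 hL with rfl | hL
        · refine ⟨by simp [(a1 L1 hL1).1], ?_⟩
          rw [isChain_append]
          refine ⟨(a1 L1 hL1).2, (a1 L2 hL2).2, fun x hx y hy => ?_⟩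
          rw [l1] at hx; rw [l2] at hy
          simp at hx hy
          rw [← hx, ← hy]; exact huv
        · exact a1 L (List.mem_of_mem_erase (List.mem_of_mem_erase hL))
      · refine Perm.trans ?_ a3
        have := hp.flatten
        refine Perm.append_right _ ?_
        simpa using this.symm
      · have := hp.length_eq
        simp only [length_cons] at this ⊢
        omega
      · intro x hx hT
        obtain ⟨L, hL, hl⟩ := a5 x hx fun e' he' => hT e' (by simp [he'])
        have n1 : L ≠ L1 := by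
          rintro rfl
          rw [l1] at hl
          exact hT (u, v) (by simp) (by simpa using hl)
        by_cases n2 : L = L2
        · subst n2
          exact ⟨L1 ++ L, by simp, by rw [List.getLast?_append_of_ne_nil _ (a1 L hL).1, hl]⟩
        · exact ⟨L, List.mem_cons_of_mem _ ((List.mem_erase_of_ne n2).2
            ((List.mem_erase_of_ne n1).2 hL)), hl⟩
      · intro x hx hT
        obtain ⟨L, hL, hl⟩ := a6 x hx fun e' he' => hT e' (by simp [he'])
        have n2 : L ≠ L2 := by
          rintro rfl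
          rw [l2] at hl
          exact hT (u, v) (by simp) (by simpa using hl)
        by_cases n1 : L = L1
        · subst n1
          exact ⟨L ++ L2, by simp, by rw [List.head?_append_of_ne_nil _ (a1 L hL).1, hl]⟩
        · exact ⟨L, List.mem_cons_of_mem _ ((List.mem_erase_of_ne n2).2
            ((List.mem_erase_of_ne n1).2 hL)), hl⟩

end Pool.Agent.Lib.MP_6d5d56_co
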