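import Pool.Agent.Lib.MP_6d5d56_co.Pot
import Pool.Agent.Lib.MP_6d5d56_co.Pack

/-! Integral potentials for a locally optimal weighted family of paths. -/

set_option autoImplicit false

namespace Pool.Agent.Lib.MP_6d5d56_co

open List Sum

variable {V : Type}

/-- weight covered by a family of paths -/
def wt (ω : V → ℤ) (Ls : List (List V)) : ℤ := (Ls.flatten.map ω).sum

/-- paths and cycles can be merged into the same number of paths, if there are at least
`m` paths -/
def Mrg (A : V → V → Prop) (S : Finset V) (m : ℕ) : Prop :=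
  ∀ Ls Ks : List (List V), m ≤ Ls.length → (∀ L ∈ Ls, L ≠ [] ∧ L.IsChain A) →
    (∀ K ∈ Ks, Cyc A K) → (Ls.flatten ++ Ks.flatten).Nodup →
    (∀ x ∈ Ls.flatten ++ Ks.flatten, x ∈ S) →
    ∃ Ms, Pack A S Ms ∧ Ms.length = Ls.length ∧ ∀ x ∈ Ls.flatten ++ Ks.flatten, x ∈ Ms.flatten

theorem perm_to_pack [DecidableEq V] (A : V → V → Prop) (S : Finset V) (Dm : Finset (List V))
    (τ : Equiv.Perm (V ⊕ List V)) (m : ℕ) (hm : Mrg A S m)
    (h1 : ∀ u ∈ S, ∀ v, τ (inl u) = inl v → u = v ∨ (v ∈ S ∧ A u v))
    (h2 : ∀ u ∈ S, ∀ d, τ (inl u) = inr d → d ∈ Dm)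
    (h3 : ∀ d ∈ Dm, ∀ d', τ (inr d) = inr d' → d = d')
    (h4 : ∀ u ∉ S, τ (inl u) = inl u) (h5 : ∀ d ∉ Dm, τ (inr d) = inr d)
    (hq : m ≤ (Dm.filter fun d => τ (inr d) ≠ inr d).card) :
    ∃ Ms, Pack A S Ms ∧ Ms.length = (Dm.filter fun d => τ (inr d) ≠ inr d).card ∧
      ∀ x ∈ S, τ (inl x) ≠ inl x → x ∈ Ms.flatten := by
  classical
  set C := S.filter fun v => τ (inl v) ≠ inl v with hC
  set T := (C ×ˢ C).filter fun e => τ (inl e.1) = inl e.2 with hT
  obtain ⟨Ls, Ks, a1, a2, a3, a4, -, -⟩ := decomp A C T (by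
      intro e he
      simp only [hT, hC, Finset.mem_filter, Finset.mem_product] at he ⊢
      refine ⟨he.1.1, he.1.2, ?_⟩
      rcases h1 _ he.1.1.1 _ he.2 with h | h
      · exact absurd (h ▸ he.2) he.1.1.2
      · exact h.2) (by
      intro e he e' he' h
      simp only [hT, Finset.mem_filter] at he he'
      have := he.2
      rw [h, he'.2] at this
      exact Prod.ext h (inl_injective this).symm) (by
      intro e he e' he' h
      simp only [hT, Finset.mem_filter] at he he'
      have := he.2
      rw [h, ← he'.2] at this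
      exact Prod.ext (inl_injective (τ.injective this)) h)
  have c1 : T.card = (C.filter fun u => (τ (inl u)).isLeft).card := by
    refine Finset.card_bij (fun e _ => e.1) ?_ ?_ ?_
    · intro e he
      simp only [hT, Finset.mem_filter, Finset.mem_product] at he ⊢
      exact ⟨he.1.1, by rw [he.2]; rfl⟩
    · intro e he e' he' h
      simp only [hT, Finset.mem_filter] at he he'
      have := he.2
      rw [h, he'.2] at this
      exact Prod.ext h (inl_injective this).symm
    · intro u hu
      rw [Finset.mem_filter] at hu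
      obtain ⟨v, hv⟩ := Sum.isLeft_iff.1 hu.2
      have hu1 := Finset.mem_filter.1 hu.1
      refine ⟨(u, v), ?_, rfl⟩
      simp only [hT, Finset.mem_filter, Finset.mem_product]
      refine ⟨⟨hu.1, ?_⟩, hv⟩
      have huv : u ≠ v := fun h => hu1.2 (h ▸ hv)
      refine Finset.mem_filter.2 ⟨((h1 u hu1.1 v hv).resolve_left huv).1, fun h => ?_⟩
      exact huv (inl_injective (τ.injective (hv.trans h.symm)))
  have c2 : (C.filter fun u => ¬ (τ (inl u)).isLeft).card =
      (Dm.filter fun d => τ (inr d) ≠ inr d).card := by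
    refine Finset.card_bij (fun u _ => (τ (inl u)).elim (fun _ => []) id) ?_ ?_ ?_
    · intro u hu
      rw [Finset.mem_filter] at hu
      have hu1 := Finset.mem_filter.1 hu.1
      cases h : τ (inl u) with
      | inl v => simp [h] at hu
      | inr d =>
        refine Finset.mem_filter.2 ⟨h2 u hu1.1 d h, fun h' => ?_⟩
        exact inl_ne_inr (τ.injective (h.trans h'.symm))
    · intro u hu u' hu' h
      rw [Finset.mem_filter] at hu hu'
      cases e : τ (inl u) with
      | inl v => simp [e] at hu
      | inr d =>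
        cases e' : τ (inl u') with
        | inl v => simp [e'] at hu'
        | inr d' =>
          simp only [e, e', elim_inr, id_eq] at h
          subst h
          exact inl_injective (τ.injective (e.trans e'.symm))
    · intro d hd
      rw [Finset.mem_filter] at hd
      cases e : τ.symm (inr d) with
      | inr d' =>
        have e2 : τ (inr d') = inr d := by rw [← e]; simp
        by_cases h : d' ∈ Dm
        · have := h3 d' h d e2
          subst this
          exact absurd e2 hd.2
        · rw [h5 d' h] at e2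
          exact absurd (inr_injective e2 ▸ hd.1) h
      | inl u =>
        have e2 : τ (inl u) = inr d := by rw [← e]; simp
        have hu : u ∈ S := by
          by_contra h
          rw [h4 u h] at e2
          exact inl_ne_inr e2
        refine ⟨u, Finset.mem_filter.2 ⟨Finset.mem_filter.2 ⟨hu, by simp [e2]⟩, by simp [e2]⟩, ?_⟩
        simp [e2]
  have c3 := Finset.card_filter_add_card_filter_not (s := C) (fun u => (τ (inl u)).isLeft)
  have c4 : Ls.length = (Dm.filter fun d => τ (inr d) ≠ inr d).card := by omega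
  obtain ⟨Ms, b1, b2, b3⟩ := hm Ls Ks (c4 ▸ hq) a1 a2 (a3.nodup_iff.2 C.nodup_toList)
    (fun x hx => (Finset.mem_filter.1 (Finset.mem_toList.1 (a3.mem_iff.1 hx))).1)
  exact ⟨Ms, b1, b2.trans c4, fun x hx h =>
    b3 x (a3.mem_iff.2 (Finset.mem_toList.2 (Finset.mem_filter.2 ⟨hx, h⟩)))⟩

theorem pack_to_perm (A : V → V → Prop) (S : Finset V) (Ls : List (List V)) (h : Pack A S Ls) :
    ∃ σ : Equiv.Perm (V ⊕ List V), (∀ x ∉ Ls.flatten, σ (inl x) = inl x) ∧
      (∀ d ∉ Ls, σ (inr d) = inr d) ∧
      ∀ L ∈ Ls, L.IsChain (fun x y => σ (inl x) = inl y) ∧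
        (∀ x ∈ L.head?, σ (inr L) = inl x) ∧ ∀ x ∈ L.getLast?, σ (inl x) = inr L := by
  have hp : ∀ Ms : List (List V), (Ms.map fun L => (inr L :: L.map inl : List (V ⊕ List V))).flatten ~
      Ms.map inr ++ Ms.flatten.map inl := by
    intro Ms
    induction Ms with
    | nil => simp
    | cons M Ms ih =>
      simp only [List.map_cons, flatten_cons, cons_append, List.map_append, perm_cons]
      refine (ih.append_left _).trans ?_
      rw [← append_assoc, ← append_assoc]
      exact perm_append_comm.append_right _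
  have hn : Ls.Nodup := nodup_of_flatten (fun L hL => (h.1 L hL).1) h.2.1
  obtain ⟨σ, h1, h2⟩ := exists_perm_cycles
    (Ls.map fun L => (inr L :: L.map inl : List (V ⊕ List V))) (by
      rw [(hp Ls).nodup_iff, List.nodup_append]
      refine ⟨hn.map inr_injective, h.2.1.map inl_injective, ?_⟩
      simp)
  refine ⟨σ, fun x hx => h1 _ ?_, fun d hd => h1 _ ?_, fun L hL => ?_⟩
  · rw [(hp Ls).mem_iff]; simpa using hx
  · rw [(hp Ls).mem_iff]; simpa using hd
  · have := h2 (inr L) (L.map inl) (List.mem_map.2 ⟨L, hL, rfl⟩)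
    rw [isChain_append, isChain_cons, isChain_map] at this
    refine ⟨this.1.2, fun x hx => this.1.1 _ ?_, fun x hx => this.2.2 _ ?_ _ rfl⟩
    · simp only [Option.mem_def] at hx
      simp [hx]
    · simp only [Option.mem_def] at hx
      rw [List.getLast?_cons, List.getLast?_map, hx]; rfl

theorem lp (A : V → V → Prop) (S : Finset V) (ω : V → ℤ) (hω : ∀ x ∈ S, 0 ≤ ω x)
    (Ls : List (List V)) (h0 : Pack A S Ls) (km kp : ℤ) (hk : km ≤ kp)
    (hm : Mrg A S (Ls.length - 1))
    (o0 : ∀ Ms, Pack A S Ms → Ms.length = Ls.length → wt ω Ms ≤ wt ω Ls)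
    (op : ∀ Ms, Pack A S Ms → Ms.length = Ls.length + 1 → wt ω Ms ≤ wt ω Ls + kp)
    (om : ∀ Ms, Pack A S Ms → Ms.length + 1 = Ls.length → wt ω Ms + km ≤ wt ω Ls) :
    ∃ (i o : V → ℤ) (κ : ℤ), km ≤ κ ∧ κ ≤ kp ∧
      (∀ x ∈ S, 0 ≤ i x ∧ o x ≤ κ ∧ o x ≤ i x + ω x) ∧
      (∀ x ∈ S, ∀ y ∈ S, x ≠ y → A x y → o x ≤ i y) ∧
      (∀ x ∈ S, x ∉ Ls.flatten → o x = i x + ω x) ∧
      ∀ L ∈ Ls, L.IsChain (fun x y => o x = i y) ∧ (∀ x ∈ L.head?, i x = 0) ∧
        ∀ x ∈ L.getLast?, o x = κ := by
  classical
  obtain ⟨σ, s1, s2, s3⟩ := pack_to_perm A S Ls h0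
  have hn : Ls.Nodup := nodup_of_flatten (fun L hL => (h0.1 L hL).1) h0.2.1
  have hnil : [] ∉ Ls := fun h => (h0.1 _ h).1 rfl
  set L0 := Ls.headD [] with hL0
  have hL0' : L0 = [] ∧ Ls = [] ∨ L0 ∈ Ls := by
    cases Ls with
    | nil => left; simp [hL0]
    | cons a t => right; simp [hL0]
  set Dm : Finset (List V) := insert [] Ls.toFinset with hDm
  set cost : List V → ℤ := fun d => if d = [] then kp else if d = L0 then km else 0 with hcost
  set c : V ⊕ List V → V ⊕ List V → ℤ := fun x y =>
    if x = y then 0 else x.elim ω fun d => -cost d with hc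
  set R : V ⊕ List V → V ⊕ List V → Prop := fun x y =>
    x.elim (fun u => y.elim (fun v => u = v ∨ (v ∈ S ∧ A u v)) fun d => d ∈ Dm)
      fun d => y.elim (fun v => v ∈ S) fun d' => d = d' ∧ (d = [] ∨ d = L0) with hR
  have hval : ∀ τ : Equiv.Perm (V ⊕ List V), ∑ x ∈ S.disjSum Dm, c x (τ x) =
      ∑ v ∈ S.filter (fun v => τ (inl v) ≠ inl v), ω v -
        ∑ d ∈ Dm.filter (fun d => τ (inr d) ≠ inr d), cost d := by
    intro τ
    rw [Finset.sum_disjSum, Finset.sum_filter, Finset.sum_filter, sub_eq_add_neg,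
      ← Finset.sum_neg_distrib]
    congr 1
    · refine Finset.sum_congr rfl fun v _ => ?_
      by_cases h : τ (inl v) = inl v
      · simp [hc, h]
      · simp [hc, h, Ne.symm h]
    · refine Finset.sum_congr rfl fun v _ => ?_
      by_cases h : τ (inr v) = inr v
      · simp [hc, h]
      · simp [hc, h, Ne.symm h]
  have hmov : ∀ x ∈ Ls.flatten, (∃ y ∈ S, x ≠ y ∧ A x y ∧ σ (inl x) = inl y) ∨
      ∃ L ∈ Ls, σ (inl x) = inr L := by
    intro x hx
    obtain ⟨L, hL, hxL⟩ := mem_flatten.1 hx
    have hch := isChain_and (h0.nodup_mem hL).isChain (isChain_and (h0.1 L hL).2 (s3 L hL).1)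
    rcases next_or_last hch x hxL with ⟨y, hy, h⟩ | h
    · exact Or.inl ⟨y, h0.2.2 y (mem_flatten.2 ⟨L, hL, hy⟩), h⟩
    · exact Or.inr ⟨L, hL, (s3 L hL).2.2 x h⟩
  have hhead : ∀ L ∈ Ls, ∃ x ∈ S, x ∈ L.head? ∧ σ (inr L) = inl x := by
    intro L hL
    cases L with
    | nil => exact absurd hL hnil
    | cons a t =>
      exact ⟨a, h0.2.2 a (mem_flatten.2 ⟨_, hL, by simp⟩), rfl, (s3 _ hL).2.1 a rfl⟩
  have hlast : ∀ L ∈ Ls, ∃ x ∈ S, x ∈ L.getLast? ∧ σ (inl x) = inr L := by
    intro L hL
    have hne := (h0.1 L hL).1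
    have := List.getLast?_eq_some_getLast hne
    exact ⟨_, h0.2.2 _ (mem_flatten.2 ⟨_, hL, List.getLast_mem hne⟩), this, (s3 _ hL).2.2 _ this⟩
  have hC0 : S.filter (fun v => σ (inl v) ≠ inl v) = Ls.flatten.toFinset := by
    ext x
    rw [Finset.mem_filter, List.mem_toFinset]
    constructor
    · intro h; by_contra h'; exact h.2 (s1 x h')
    · intro h
      refine ⟨h0.2.2 x h, ?_⟩
      rcases hmov x h with ⟨y, -, h1, -, h2⟩ | ⟨L, -, h2⟩
      · rw [h2]; simpa using h1.symm
      · rw [h2]; simp
  have hU0 : Dm.filter (fun d => σ (inr d) ≠ inr d) = Ls.toFinset := by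
    ext d
    rw [Finset.mem_filter, List.mem_toFinset]
    constructor
    · intro h; by_contra h'; exact h.2 (s2 d h')
    · intro h
      obtain ⟨x, -, -, hx⟩ := hhead d h
      exact ⟨by simp [hDm, h], by rw [hx]; simp⟩
  have hcs : ∀ U : Finset (List V), ∑ d ∈ U, cost d =
      (if [] ∈ U then kp else 0) + if L0 ∈ U ∧ L0 ≠ [] then km else 0 := by
    intro U
    have : ∀ d, cost d = (if [] = d then kp else 0) + if L0 = d then (if L0 ≠ [] then km else 0)
        else 0 := by
      intro d
      simp only [hcost]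
      by_cases h1 : d = []
      · subst h1; by_cases h2 : L0 = [] <;> simp [h2]
      · by_cases h2 : d = L0
        · subst h2; simp [h1, Ne.symm h1]
        · simp [h1, h2, Ne.symm h1, Ne.symm h2]
    simp_rw [this]
    rw [Finset.sum_add_distrib, Finset.sum_ite_eq, Finset.sum_ite_eq]
    by_cases h1 : L0 ∈ U <;> simp [h1]
  obtain ⟨α, β, d1, d2⟩ := assignment_dual (S.disjSum Dm) R c σ (by
      rintro (x | d) hx
      · exact s1 x fun h => hx (by simpa using h0.2.2 x h)
      · exact s2 d fun h => hx (by simp [hDm, h])) (by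
      rintro (x | d) hx
      · by_cases h : x ∈ Ls.flatten
        · rcases hmov x h with ⟨y, hy, -, h1, h2⟩ | ⟨L, hL, h2⟩
          · rw [h2]; exact Or.inr ⟨hy, h1⟩
          · rw [h2]; simp [hR, hDm, hL]
        · rw [s1 x h]; exact Or.inl rfl
      · by_cases h : d ∈ Ls
        · obtain ⟨x, hxS, -, hx⟩ := hhead d h
          rw [hx]; exact hxS
        · rw [s2 d h]
          refine ⟨rfl, Or.inl ?_⟩
          simpa [hDm, h] using hx) (by
      intro τ t1 t2
      set U := Dm.filter (fun d => τ (inr d) ≠ inr d) with hU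
      have hUs : ∀ d ∈ Ls, d ≠ L0 → d ∈ U := by
        intro d hd h
        refine Finset.mem_filter.2 ⟨by simp [hDm, hd], fun h' => ?_⟩
        have := t2 (inr d) (by simp [hDm, hd])
        rw [h'] at this
        rcases this.2 with h1 | h1
        · exact hnil (h1 ▸ hd)
        · exact h h1
      have hUc : U.card + (if L0 ∈ U ∨ L0 = [] then 0 else 1) =
          Ls.length + if [] ∈ U then 1 else 0 := by
        have e1 : (U.erase []).card + (if [] ∈ U then 1 else 0) = U.card := by
          split_ifs with h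
          · exact Finset.card_erase_add_one h
          · rw [Finset.erase_eq_of_notMem h]; rfl
        have e2 : U.erase [] ⊆ Ls.toFinset := by
          intro d hd
          rw [Finset.mem_erase] at hd
          have := (Finset.mem_filter.1 hd.2).1
          simpa [hDm, hd.1] using this
        rw [← List.toFinset_card_of_nodup hn]
        by_cases h : L0 ∈ U ∨ L0 = []
        · have : U.erase [] = Ls.toFinset := by
            refine Finset.Subset.antisymm e2 fun d hd => ?_
            rw [List.mem_toFinset] at hd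
            refine Finset.mem_erase.2 ⟨fun h' => hnil (h' ▸ hd), ?_⟩
            by_cases h' : d = L0
            · subst h'; exact h.resolve_right fun h' => hnil (h' ▸ hd)
            · exact hUs d hd h'
          rw [if_pos h, ← this]; omega
        · have hL : L0 ∈ Ls := hL0'.resolve_left fun h' => h (Or.inr h'.1)
          have : U.erase [] = Ls.toFinset.erase L0 := by
            ext d
            constructor
            · intro hd
              refine Finset.mem_erase.2 ⟨?_, e2 hd⟩
              rintro rfl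
              exact h (Or.inl (Finset.mem_erase.1 hd).2)
            · intro hd
              rw [Finset.mem_erase, List.mem_toFinset] at hd
              exact Finset.mem_erase.2 ⟨fun h' => hnil (h' ▸ hd.2), hUs d hd.2 hd.1⟩
          have e3 := Finset.card_erase_add_one (List.mem_toFinset.2 hL)
          rw [if_neg h, ← e3, ← this]; omega
      obtain ⟨Ms, m1, m2, m3⟩ := perm_to_pack A S Dm τ _ hm (fun u hu v h => by
          have := t2 (inl u) (by simpa using hu)
          rw [h] at this; exact this) (fun u hu d h => by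
          have := t2 (inl u) (by simpa using hu)
          rw [h] at this; exact this) (fun d hd d' h => by
          have := t2 (inr d) (by simpa using hd)
          rw [h] at this; exact this.1) (fun u hu => t1 _ (by simpa using hu))
          (fun d hd => t1 _ (by simpa using hd)) (by
            rw [← hU]; split_ifs at hUc <;> omega)
      rw [← hU] at m2
      have w1 : ∑ v ∈ S.filter (fun v => τ (inl v) ≠ inl v), ω v ≤ wt ω Ms := by
        rw [wt, ← List.sum_toFinset _ m1.2.1]
        refine Finset.sum_le_sum_of_subset_of_nonneg (fun x hx => ?_) fun x hx _ => ?_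
        · rw [Finset.mem_filter] at hx
          exact List.mem_toFinset.2 (m3 x hx.1 hx.2)
        · exact hω x (m1.2.2 x (List.mem_toFinset.1 hx))
      have w2 : ∑ v ∈ Ls.flatten.toFinset, ω v = wt ω Ls := by
        rw [wt, ← List.sum_toFinset _ h0.2.1]
      rw [hval, hval, hC0, hU0, ← hU, hcs, hcs, w2]
      have n1 : [] ∉ Ls.toFinset := by simpa using hnil
      rw [if_neg n1]
      generalize ∑ v ∈ S.filter (fun v => τ (inl v) ≠ inl v), ω v = X at w1 ⊢
      rcases hL0' with h | h
      · have e : L0 = [] := h.1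
        simp only [e, or_true, if_true, ne_eq, not_true, and_false, if_false] at hUc ⊢
        split_ifs at hUc ⊢
        · have := op Ms m1 (by omega); omega
        · have := o0 Ms m1 (by omega); omega
      · have e : L0 ≠ [] := fun h' => hnil (h' ▸ h)
        have e' : L0 ∈ Ls.toFinset := by simpa using h
        simp only [e, e', or_false, ne_eq, not_false_eq_true, and_true, if_true] at hUc ⊢
        split_ifs at hUc ⊢
        · have := op Ms m1 (by omega); omega
        · have := o0 Ms m1 (by omega); omega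
        · have := o0 Ms m1 (by omega); omega
        · have := om Ms m1 (by omega); omega)
  have f1 : ∀ d ∈ Dm, ∀ v ∈ S, -cost d ≤ α (inr d) + β (inl v) := fun d hd v hv => by
    simpa [hc] using d1 (inr d) (by simpa using hd) (inl v) (by simpa using hv) hv
  have f2 : ∀ d ∈ Dm, ∀ v ∈ S, ω v ≤ α (inl v) + β (inr d) := fun d hd v hv => by
    simpa [hc] using d1 (inl v) (by simpa using hv) (inr d) (by simpa using hd) hd
  have f3 : ∀ v ∈ S, 0 ≤ α (inl v) + β (inl v) := fun v hv => by
    simpa [hc] using d1 (inl v) (by simpa using hv) (inl v) (by simpa using hv) (Or.inl rfl)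
  have f4 : ∀ u ∈ S, ∀ v ∈ S, u ≠ v → A u v → ω u ≤ α (inl u) + β (inl v) :=
    fun u hu v hv h h' => by
    simpa [hc, h] using d1 (inl u) (by simpa using hu) (inl v) (by simpa using hv)
      (Or.inr ⟨hv, h'⟩)
  have hL0D : L0 ∈ Dm := by
    rcases hL0' with h | h
    · simp [hDm, h.1]
    · simp [hDm, h]
  have f5 : 0 ≤ α (inr L0) + β (inr L0) := by
    simpa [hc] using d1 (inr L0) (by simpa using hL0D) (inr L0) (by simpa using hL0D)
      ⟨rfl, Or.inr rfl⟩
  have f6 : 0 = α (inr []) + β (inr []) := by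
    have := d2 (inr []) (by simp [hDm])
    rw [s2 _ hnil] at this
    simpa [hc] using this
  have g1 : ∀ L ∈ Ls, ∀ x, σ (inr L) = inl x → -cost L = α (inr L) + β (inl x) := by
    intro L hL x h
    have := d2 (inr L) (by simp [hDm, hL])
    rw [h] at this
    simpa [hc] using this
  have g2 : ∀ x ∈ S, ∀ L, σ (inl x) = inr L → ω x = α (inl x) + β (inr L) := by
    intro x hx L h
    have := d2 (inl x) (by simpa using hx)
    rw [h] at this
    simpa [hc] using this
  have hcn : cost [] = kp := by simp [hcost]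
  refine ⟨fun v => β (inl v) + α (inr L0) + cost L0,
    fun v => ω v - α (inl v) + α (inr L0) + cost L0,
    β (inr L0) + α (inr L0) + cost L0, ?_, ?_, ?_, ?_, ?_, ?_⟩
  · have : km ≤ cost L0 := by
      simp only [hcost, if_true]; split_ifs
      · exact hk
      · exact le_rfl
    omega
  · rcases hL0' with h | h
    · rw [h.1]; omega
    · obtain ⟨x, hx, -, e1⟩ := hhead L0 h
      obtain ⟨y, hy, -, e2⟩ := hlast L0 h
      have := g1 L0 h x e1
      have := g2 y hy L0 e2
      have := f1 [] (by simp [hDm]) x hx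
      have := f2 [] (by simp [hDm]) y hy
      omega
  · intro x hx
    have := f1 L0 hL0D x hx
    have := f2 L0 hL0D x hx
    have := f3 x hx
    simp only
    omega
  · intro x hx y hy h h'
    have := f4 x hx y hy h h'
    simp only
    omega
  · intro x hx h
    have := d2 (inl x) (by simpa using hx)
    rw [s1 x h] at this
    simp only [hc, if_true] at this ⊢
    omega
  · intro L hL
    have hL0m : L0 ∈ Ls := hL0'.resolve_left fun h => by simp [h.2] at hL
    obtain ⟨x0, hx0, -, e1⟩ := hhead L0 hL0m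
    obtain ⟨y0, hy0, -, e2⟩ := hlast L0 hL0m
    have hLD : L ∈ Dm := by simp [hDm, hL]
    refine ⟨?_, fun x hx => ?_, fun x hx => ?_⟩
    · refine (isChain_and (h0.nodup_mem hL).isChain (s3 L hL).1).imp_of_mem_imp ?_
      intro x y hx _ h
      have := d2 (inl x) (by simpa using h0.2.2 x (mem_flatten.2 ⟨L, hL, hx⟩))
      rw [h.2] at this
      simp only [hc, inl.injEq, h.1, if_false, elim_inl] at this ⊢
      omega
    · have hxS : x ∈ S := h0.2.2 x (mem_flatten.2 ⟨L, hL, List.mem_of_mem_head? hx⟩)
      have := g1 L hL x ((s3 L hL).2.1 x hx)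
      have := g1 L0 hL0m x0 e1
      have := f1 L hLD x0 hx0
      have := f1 L0 hL0D x hxS
      simp only
      omega
    · have hxS : x ∈ S := h0.2.2 x (mem_flatten.2 ⟨L, hL, List.mem_of_mem_getLast? hx⟩)
      have := g2 x hxS L ((s3 L hL).2.2 x hx)
      have := g2 y0 hy0 L0 e2
      have := f2 L hLD y0 hy0
      have := f2 L0 hL0D x hxS
      simp only
      omega

end Pool.Agent.Lib.MP_6d5d56_co
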