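import Pool.Agent.Lib.MP_6d5d56_co.Quasi
import Pool.Agent.Lib.MP_6d5d56_co.Defs

/-! From the internal form to partitions given as finite sets of lists. -/

set_option autoImplicit false

namespace Pool.Agent.Lib.MP_6d5d56_co

open List
open scoped Classical

variable {V : Type}

theorem good_of_decomposable {G : Digraph V} {S : Set V} (h : Decomposable G S) :
    ∀ T : Finset V, (∀ v, v ∈ T ↔ v ∈ S) → Good G.Adj T := by
  induction h with
  | twoPaths S h =>
    intro T hT
    obtain ⟨P, Q, h1, h2, h3, h4⟩ := h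
    refine good_two (le_antisymm (cov_le_card _) ?_)
    have e : ([P, Q].filter (· ≠ [])).flatten = P ++ Q := by
      rw [List.flatten_filter_ne_nil]; simp
    have := le_cov (A := G.Adj) (S := T) (Ls := [P, Q].filter (· ≠ [])) (p := 2)
      ⟨fun L hL => by
        simp only [List.mem_filter, mem_cons, not_mem_nil, or_false, decide_eq_true_eq] at hL
        refine ⟨hL.2, ?_⟩
        rcases hL.1 with rfl | rfl
        exacts [h1, h2], e ▸ h3, fun x hx => (hT x).2 ((h4 x).2 (e ▸ hx))⟩
      (List.length_filter_le _ _)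
    rw [e] at this
    refine le_trans ?_ this
    exact (Finset.card_le_card fun x hx => List.mem_toFinset.2 ((h4 x).1 ((hT x).1 hx))).trans
      (List.toFinset_card_le _)
  | quasi S h =>
    exact fun T hT => good_quasi _ T le_rfl fun x hx y hy z hz =>
      h x ((hT x).1 hx) y ((hT y).1 hy) z ((hT z).1 hz)
  | subst S W Q f hQ surj adj _ ih =>
    intro T hT
    have hs : ∀ w, ∃ v ∈ T, f v = w := fun w => by
      obtain ⟨v, hv, e⟩ := surj w; exact ⟨v, (hT v).2 hv, e⟩
    have : Finite W := Finite.of_surjective (fun v : T => f v) fun w => by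
      obtain ⟨v, hv, e⟩ := hs w; exact ⟨⟨v, hv⟩, e⟩
    let _ := Fintype.ofFinite W
    refine good_subst (Q := Q.Adj) (fun u hu v hv => adj u ((hT u).1 hu) v ((hT v).1 hv)) hs
      (fun S' hS' => ?_) fun w => ih w _ fun v => by simp [hT]
    rcases hQ with h | ⟨c, h⟩ | ⟨h1, h2, h3⟩
    · exact mrg_ext_acyclic h S'
    · exact mrg_ext_multi c h S'
    · exact mrg_ext_local h1 h2 h3 S' hS'

theorem chain_iff {A : V → V → Prop} {P : List V} : P.IsChain A ↔
    ∀ (i : ℕ) (u v : V), P[i]? = some u → P[i+1]? = some v → A u v := by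
  rw [isChain_iff_getElem]
  constructor
  · intro h i u v h1 h2
    obtain ⟨a, rfl⟩ := List.getElem?_eq_some_iff.1 h1
    obtain ⟨b, rfl⟩ := List.getElem?_eq_some_iff.1 h2
    exact h i b
  · exact fun h i hi => h i _ _ (List.getElem?_eq_getElem _) (List.getElem?_eq_getElem _)

theorem sum_min_le (k : ℕ) (Ms : List (List V)) (l : List V) :
    ((Ms ++ l.map fun x => [x]).map fun Q => min Q.length k).sum ≤ k * Ms.length + l.length := by
  rw [map_append, sum_append]
  refine add_le_add ?_ ?_
  · induction Ms with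
    | nil => simp
    | cons M Ms ih => simp only [map_cons, sum_cons, length_cons, mul_add]; omega
  · induction l with
    | nil => simp
    | cons a l ih => simp only [map_cons, sum_cons, length_cons, length_nil] at ih ⊢; omega

theorem sum_min_eq (k : ℕ) (Ls Ss : List (List V)) (h1 : ∀ L ∈ Ls, k < L.length)
    (h2 : ∀ L ∈ Ss, L.length ≤ k) :
    ((Ls ++ Ss).map fun Q => min Q.length k).sum = k * Ls.length + Ss.flatten.length := by
  rw [map_append, sum_append, List.map_congr_left (g := fun _ => k)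
    fun L hL => min_eq_right (h1 L hL).le, List.map_congr_left (g := length)
    fun L hL => min_eq_left (h2 L hL), length_flatten]
  simp [mul_comm]

theorem main [Fintype V] (G : Digraph V) (hG : Decomposable G Set.univ) (k : ℕ)
    (Ps : Finset (List V))
    (h1 : ∀ P ∈ Ps, P ≠ [] ∧ P.Nodup ∧
      ∀ (i : ℕ) (u v : V), P[i]? = some u → P[i+1]? = some v → G.Adj u v)
    (h2 : ∀ v : V, ∃! P, P ∈ Ps ∧ v ∈ P)
    (h3 : ∀ Qs : Finset (List V),
      (∀ Q ∈ Qs, Q ≠ [] ∧ Q.Nodup ∧
        ∀ (i : ℕ) (u v : V), Q[i]? = some u → Q[i+1]? = some v → G.Adj u v) →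
      (∀ v : V, ∃! Q, Q ∈ Qs ∧ v ∈ Q) →
      ∑ P ∈ Ps, min P.length k ≤ ∑ Q ∈ Qs, min Q.length k) :
    ∃ C : Fin k → Finset V,
      (∀ i j, i ≠ j → Disjoint (C i) (C j)) ∧
      (∀ i, ∀ u ∈ C i, ∀ v ∈ C i, u ≠ v → ¬ G.Adj u v) ∧
      ∀ P ∈ Ps, (Finset.univ.filter (fun i : Fin k => ∃ v ∈ P, v ∈ C i)).card
        = min P.length k := by
  set Ls := Ps.toList.filter fun P => k < P.length with hLs
  set Ss := Ps.toList.filter fun P => !decide (k < P.length) with hSs
  have hp : Ls ++ Ss ~ Ps.toList := List.filter_append_perm _ _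
  have hP : Pack G.Adj Finset.univ (Ls ++ Ss) := by
    refine Pack.perm (Ls := Ps.toList) ⟨fun L hL => ?_, ?_, by simp⟩ hp.symm
    · rw [Finset.mem_toList] at hL
      exact ⟨(h1 L hL).1, chain_iff.2 (h1 L hL).2.2⟩
    · rw [List.nodup_flatten]
      refine ⟨fun L hL => (h1 L (Finset.mem_toList.1 hL)).2.1,
        Ps.nodup_toList.imp_of_mem fun {a b} ha hb h x x1 x2 => h ?_⟩
      exact (h2 x).unique ⟨Finset.mem_toList.1 ha, x1⟩ ⟨Finset.mem_toList.1 hb, x2⟩
  have hc : ∀ x ∈ (Finset.univ : Finset V), x ∈ (Ls ++ Ss).flatten := fun x _ => by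
    obtain ⟨P, h, -⟩ := h2 x
    exact mem_flatten.2 ⟨P, hp.mem_iff.2 (Finset.mem_toList.2 h.1), h.2⟩
  have l1 : ∀ L ∈ Ls, k < L.length := fun L hL => by simpa using (List.mem_filter.1 hL).2
  have l2 : ∀ L ∈ Ss, L.length ≤ k := fun L hL => by simpa using (List.mem_filter.1 hL).2
  have e1 : ∑ P ∈ Ps, min P.length k = k * Ls.length + Ss.flatten.length := by
    rw [← sum_min_eq k Ls Ss l1 l2, (hp.map _).sum_eq, Finset.sum_map_toList]
  have e2 : Ls.flatten.length + Ss.flatten.length = Fintype.card V := by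
    rw [← length_append, ← flatten_append, ← List.toFinset_card_of_nodup hP.2.1,
      Finset.eq_univ_of_forall fun x => List.mem_toFinset.2 (hc x (Finset.mem_univ x)),
      Finset.card_univ]
  obtain ⟨c, c1, c2, c3, c4⟩ := (good_of_decomposable hG Finset.univ (by simp)).1 k Ls Ss hP hc (by
    intro Ms hM
    set l := (Finset.univ \ Ms.flatten.toFinset).toList with hl
    have a1 : ∀ x, x ∈ l ↔ x ∉ Ms.flatten := fun x => by
      rw [hl, Finset.mem_toList, Finset.mem_sdiff, List.mem_toFinset]; simp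
    have a2 : l.length + Ms.flatten.length = Fintype.card V := by
      rw [hl, Finset.length_toList, ← List.toFinset_card_of_nodup hM.2.1,
        Finset.card_sdiff_add_card_eq_card (Finset.subset_univ _), Finset.card_univ]
    have a3 : Pack G.Adj Finset.univ (Ms ++ l.map fun x => [x]) := by
      refine ⟨fun L hL => ?_, ?_, by simp⟩
      · rcases mem_append.1 hL with h | h
        · exact hM.1 L h
        · obtain ⟨x, -, rfl⟩ := List.mem_map.1 h; simp
      · rw [flatten_append, flatten_singletons, List.nodup_append]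
        exact ⟨hM.2.1, Finset.nodup_toList _, fun a ha b hb e => (a1 b).1 hb (e ▸ ha)⟩
    have a4 := h3 (Ms ++ l.map fun x => [x]).toFinset (fun Q hQ => by
      rw [List.mem_toFinset] at hQ
      exact ⟨(a3.1 Q hQ).1, a3.nodup_mem hQ, chain_iff.1 (a3.1 Q hQ).2⟩) (fun v => by
      have : v ∈ (Ms ++ l.map fun x => [x]).flatten := by
        rw [flatten_append, flatten_singletons, mem_append, a1]; tauto
      obtain ⟨Q, hQ, hv⟩ := mem_flatten.1 this
      exact ⟨Q, ⟨List.mem_toFinset.2 hQ, hv⟩, fun Q' h =>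
        eq_of_mem_mem a3.2.1 (List.mem_toFinset.1 h.1) hQ h.2 hv⟩)
    rw [List.sum_toFinset _ (nodup_of_flatten (fun L hL => (a3.1 L hL).1) a3.2.1)] at a4
    have := sum_min_le k Ms l
    omega)
  refine ⟨fun i => Finset.univ.filter fun x => c x = i + 1, fun i j h => ?_,
    fun i u hu v hv h a => ?_, fun P hPs => ?_⟩
  · rw [Finset.disjoint_filter]
    exact fun x _ e e' => h (Fin.ext (by omega))
  · rw [Finset.mem_filter] at hu hv
    have := c2 u hu.1 v hv.1 h a (by omega)
    omega
  · simp only [Finset.mem_filter, Finset.mem_univ, true_and]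
    rcases mem_append.1 (hp.mem_iff.2 (Finset.mem_toList.2 hPs)) with h | h
    · rw [min_eq_right (l1 P h).le, Finset.filter_true_of_mem fun (i : Fin k) _ =>
        c3 P h (i + 1) (by omega) i.2, Finset.card_univ, Fintype.card_fin]
    · rw [min_eq_left (l2 P h), ← List.length_map c, ← List.toFinset_card_of_nodup (c4 P h).2]
      refine Finset.card_bij (fun i _ => (i : ℕ) + 1) (fun i hi => ?_)
        (fun i _ j _ e => Fin.ext (by simpa using e)) fun n hn => ?_
      · obtain ⟨v, hv, e⟩ := (Finset.mem_filter.1 hi).2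
        exact List.mem_toFinset.2 (List.mem_map.2 ⟨v, hv, e⟩)
      · obtain ⟨v, hv, rfl⟩ := List.mem_map.1 (List.mem_toFinset.1 hn)
        have := c1 v (Finset.mem_univ v)
        have := (c4 P h).1 v hv
        exact ⟨⟨c v - 1, by omega⟩, Finset.mem_filter.2 ⟨Finset.mem_univ _, v, hv,
          by simp only; omega⟩, by simp only; omega⟩

end Pool.Agent.Lib.MP_6d5d56_co
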