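import Pool.Agent.Lib.MP_6d5d56_co.LP

/-! Merging cycles into paths in semicomplete multipartite digraphs and in extensions of
connected locally semicomplete digraphs. -/

set_option autoImplicit false

namespace Pool.Agent.Lib.MP_6d5d56_co

open List

variable {V : Type} {A : V → V → Prop}

/-- `c :: t` is a rotation of the cycle `K` -/
def Rot (A : V → V → Prop) (K : List V) (c : V) (t : List V) : Prop :=
  List.IsChain A (c :: t ++ [c]) ∧ c :: t ~ K

theorem Rot.next {K : List V} {c d : V} {t : List V} (h : Rot A K c (d :: t)) :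
    Rot A K d (t ++ [c]) := by
  obtain ⟨h1, h2⟩ := h
  simp only [cons_append, isChain_cons_cons] at h1
  refine ⟨?_, Perm.trans ?_ h2⟩
  · have : d :: (t ++ [c]) ++ [d] = (d :: t) ++ c :: [d] := by simp
    rw [this, isChain_split]
    exact ⟨h1.2, by simpa using h1.1⟩
  · exact (perm_append_singleton c (d :: t))

theorem Rot.arc {K : List V} {c d : V} {t : List V} (h : Rot A K c (d :: t)) : A c d := by
  have := h.1
  simp only [cons_append, isChain_cons_cons] at this
  exact this.1

theorem Rot.path {K : List V} {c d : V} {t : List V} (h : Rot A K c (d :: t)) {u : V}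
    (hu : A c u) : List.IsChain A (d :: (t ++ [c]) ++ [u]) := by
  have h1 := h.1
  simp only [cons_append, isChain_cons_cons] at h1
  have : d :: (t ++ [c]) ++ [u] = (d :: t) ++ c :: [u] := by simp
  rw [this, isChain_split]
  exact ⟨h1.2, by simpa using hu⟩

theorem Rot.cons (hi : ∀ x, ¬ A x x) {K : List V} {c : V} {t : List V} (h : Rot A K c t) :
    ∃ d s, t = d :: s := by
  cases t with
  | nil => exact absurd (by simpa using h.1) (hi c)
  | cons d s => exact ⟨d, s, rfl⟩

theorem Cyc.rot {K : List V} (h : Cyc A K) {c : V} (hc : c ∈ K) : ∃ t, Rot A K c t := by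
  obtain ⟨a, t, rfl, h⟩ := h
  rcases List.mem_cons.1 hc with rfl | hc
  · exact ⟨t, h, Perm.refl _⟩
  · obtain ⟨s, r, rfl⟩ := List.append_of_mem hc
    refine ⟨r ++ a :: s, ?_, ?_⟩
    · have e : a :: (s ++ c :: r) ++ [a] = (a :: s) ++ c :: (r ++ [a]) := by simp
      rw [e, isChain_split] at h
      have e' : c :: (r ++ a :: s) ++ [c] = (c :: r) ++ a :: (s ++ [c]) := by simp
      rw [e', isChain_split]
      exact ⟨h.2, h.1⟩
    · exact (perm_append_comm (l₁ := c :: r) (l₂ := a :: s))

theorem gutin_aux {ι : Type} (col : V → ι) (h1 : ∀ u v, A u v → col u ≠ col v)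
    (h2 : ∀ u v, col u ≠ col v → A u v ∨ A v u) (K : List V) (hK : Cyc A K) :
    ∀ (P : List V) (u : V) (X : ι), X ≠ col u → List.IsChain A (u :: P) →
      (∃ H, List.IsChain A (u :: H) ∧ H ~ P ++ K) ∨
      (∃ c t, Rot A K c t ∧ col c ≠ X ∧ List.IsChain A (c :: t ++ [u])) ∨
      ∃ c d t H, Rot A K c (d :: t) ∧ col c ≠ X ∧ col d = X ∧ List.IsChain A (c :: H) ∧
        c :: H ~ u :: P ++ K := by
  have hi : ∀ x, ¬ A x x := fun x h => h1 x x h rfl
  have b1 : ∀ {u c d t X}, Rot A K c (d :: t) → A c u → col d ≠ X →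
      ∃ c t, Rot A K c t ∧ col c ≠ X ∧ List.IsChain A (c :: t ++ [u]) :=
    fun h a e => ⟨_, _, h.next, e, h.path a⟩
  have b2 : ∀ {u c d t X}, Rot A K c (d :: t) → A d u → col d = X →
      ∃ c t, Rot A K c t ∧ col c ≠ X ∧ List.IsChain A (c :: t ++ [u]) := by
    intro u c d t X h a e
    have h' := h.next
    obtain ⟨x, s, hs⟩ := h'.cons hi
    rw [hs] at h'
    exact b1 h' a (e ▸ (h1 _ _ h'.arc).symm)
  intro P
  induction P with
  | nil =>
    intro u X hX _
    by_cases h : ∃ c ∈ K, A u c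
    · obtain ⟨c, hc, a⟩ := h
      obtain ⟨t, ht⟩ := hK.rot hc
      exact Or.inl ⟨c :: t, isChain_cons_cons.2 ⟨a, IsChain.left_of_append (l₁ := c :: t) ht.1⟩,
        ht.2⟩
    · push Not at h
      refine Or.inr (Or.inl ?_)
      have h3 : ∀ c t, Rot A K c t → col c ≠ col u → A c u := fun c t hc e =>
        (h2 c u e).resolve_right (h c (hc.2.subset (by simp)))
      obtain ⟨c, t, hc, e⟩ : ∃ c t, Rot A K c t ∧ col c ≠ col u := by
        obtain ⟨a, t, e, hK'⟩ := hK
        have r : Rot A K a t := ⟨hK', e ▸ Perm.refl _⟩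
        by_cases e' : col a = col u
        · obtain ⟨d, s, rfl⟩ := r.cons hi
          exact ⟨_, _, r.next, e' ▸ (h1 _ _ r.arc).symm⟩
        · exact ⟨a, t, r, e'⟩
      obtain ⟨d, s, rfl⟩ := hc.cons hi
      by_cases e' : col d = X
      · exact b2 hc (h3 _ _ hc.next (e' ▸ hX)) e'
      · exact b1 hc (h3 _ _ hc e) e'
  | cons v P ih =>
    intro u X hX hc
    rw [isChain_cons_cons] at hc
    rcases ih v (col u) (h1 _ _ hc.1) hc.2 with ⟨H, a1, a2⟩ | ⟨c, t, a1, a2, a3⟩ |
      ⟨c, d, t, H, a1, a2, a3, a4, a5⟩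
    · exact Or.inl ⟨v :: H, isChain_cons_cons.2 ⟨hc.1, a1⟩, a2.cons v⟩
    · have a4 : List.IsChain A ((c :: t) ++ v :: P) := isChain_split.2 ⟨a3, hc.2⟩
      have a5 : (c :: t) ++ v :: P ~ v :: P ++ K := perm_append_comm.trans (a1.2.append_left _)
      rcases h2 c u a2 with a | a
      · obtain ⟨d, s, rfl⟩ := a1.cons hi
        by_cases e : col d = X
        · rcases h2 d u (e ▸ hX) with a' | a'
          · exact Or.inr (Or.inl (b2 a1 a' e))
          · refine Or.inr (Or.inr ⟨c, d, s, u :: (d :: s ++ v :: P), a1, e ▸ h1 _ _ a1.arc, e,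
              ?_, ?_⟩)
            · exact isChain_cons_cons.2 ⟨a, isChain_cons_cons.2 ⟨a', a4.of_cons⟩⟩
            · exact (Perm.swap _ _ _).trans (a5.cons u)
        · exact Or.inr (Or.inl (b1 a1 a e))
      · exact Or.inl ⟨_, isChain_cons_cons.2 ⟨a, a4⟩, a5⟩
    · rcases h2 c u a2 with a | a
      · exact Or.inr (Or.inl (b1 a1 a (a3 ▸ hX.symm)))
      · exact Or.inl ⟨_, isChain_cons_cons.2 ⟨a, a4⟩, a5⟩

theorem gutin {ι : Type} (col : V → ι) (h1 : ∀ u v, A u v → col u ≠ col v)
    (h2 : ∀ u v, col u ≠ col v → A u v ∨ A v u) (K : List V) (hK : Cyc A K)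
    (P : List V) (hP : P ≠ []) (hc : List.IsChain A P) : ∃ H, List.IsChain A H ∧ H ~ P ++ K := by
  obtain ⟨u, P, rfl⟩ := List.exists_cons_of_ne_nil hP
  obtain ⟨X, hX⟩ : ∃ X, X ≠ col u := by
    obtain ⟨a, t, e, hK'⟩ := hK
    have r : Rot A K a t := ⟨hK', e ▸ Perm.refl _⟩
    obtain ⟨d, s, rfl⟩ := r.cons fun x h => h1 x x h rfl
    by_cases e' : col a = col u
    · exact ⟨col d, e' ▸ (h1 _ _ r.arc).symm⟩
    · exact ⟨col a, e'⟩
  rcases gutin_aux col h1 h2 K hK P u X hX hc with ⟨H, a1, a2⟩ | ⟨c, t, a1, -, a3⟩ |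
    ⟨c, d, t, H, -, -, -, a4, a5⟩
  · exact ⟨_, a1, a2.cons u⟩
  · exact ⟨(c :: t) ++ u :: P, isChain_split.2 ⟨a3, hc⟩,
      perm_append_comm.trans (a1.2.append_left _)⟩
  · exact ⟨_, a4, a5⟩

theorem mrg_multipartite {ι : Type} (col : V → ι) (h1 : ∀ u v, A u v → col u ≠ col v)
    (h2 : ∀ u v, col u ≠ col v → A u v ∨ A v u) (S : Finset V) : Mrg A S 1 := by
  intro Ls Ks
  induction Ks generalizing Ls with
  | nil => exact fun _ h1 _ h3 h4 => ⟨Ls, ⟨h1, by simpa using h3, by simpa using h4⟩, rfl, by simp⟩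
  | cons K Ks ih =>
    intro hl a1 a2 a3 a4
    obtain ⟨P, Ls, rfl⟩ := List.exists_cons_of_length_pos hl
    obtain ⟨H, b1, b2⟩ := gutin col h1 h2 K (a2 K (by simp)) P (a1 P (by simp)).1
      (a1 P (by simp)).2
    have hp : (H :: Ls).flatten ++ Ks.flatten ~ (P :: Ls).flatten ++ (K :: Ks).flatten := by
      simp only [flatten_cons, append_assoc]
      refine (b2.append_right _).trans ?_
      rw [append_assoc]
      refine Perm.append_left _ ?_
      rw [← append_assoc, ← append_assoc]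
      exact perm_append_comm.append_right _
    obtain ⟨Ms, m1, m2, m3⟩ := ih (H :: Ls) (by simp) (by
        intro L hL
        rcases List.mem_cons.1 hL with rfl | hL
        · refine ⟨?_, b1⟩
          rintro rfl
          exact (a1 P (by simp)).1 (List.append_eq_nil_iff.1 b2.symm.eq_nil).1
        · exact a1 L (by simp [hL])) (fun K hK => a2 K (by simp [hK])) (hp.nodup_iff.2 a3)
        (fun x hx => a4 x (hp.mem_iff.1 hx))
    exact ⟨Ms, m1, m2, fun x hx => m3 x (hp.mem_iff.2 hx)⟩

/-- the local structure of an extension of a locally in-semicomplete digraph -/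
structure ExtIn {W : Type} (A : V → V → Prop) (m : V → W) : Prop where
  irr : ∀ x, ¬ A x x
  twin : ∀ x y z, m x = m y → A z x → A z y
  loc : ∀ x a b, A a x → A b x → m a = m b ∨ A a b ∨ A b a

theorem Cyc.pred {K : List V} (h : Cyc A K) {c : V} (hc : c ∈ K) : ∃ d ∈ K, A d c := by
  obtain ⟨t, ht⟩ := h.rot hc
  refine ⟨(c :: t).getLast (by simp), ht.2.subset (List.getLast_mem _), ?_⟩
  exact (IsChain.rel_getLast_head_of_append (l₁ := c :: t) ht.1 (by simp) (by simp))

theorem Cyc.succ {K : List V} (h : Cyc A K) {c : V} (hc : c ∈ K) : ∃ d ∈ K, A c d := by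
  obtain ⟨t, ht⟩ := h.rot hc
  cases t with
  | nil => exact ⟨c, hc, by simpa using ht.1⟩
  | cons d t => exact ⟨d, ht.2.subset (by simp), ht.arc⟩

theorem Cyc.flip {K : List V} (h : Cyc A K) : ∃ K', Cyc (flip A) K' ∧ K' ~ K := by
  obtain ⟨a, t, rfl, h⟩ := h
  refine ⟨a :: t.reverse, ⟨a, t.reverse, rfl, ?_⟩, (reverse_perm t).cons a⟩
  have : a :: t.reverse ++ [a] = (a :: t ++ [a]).reverse := by simp
  rw [this, isChain_reverse]
  exact h

theorem ExtIn.merge {W : Type} {m : V → W} (E : ExtIn A m) {K : List V} (hK : Cyc A K)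
    {P : List V} (hP : List.IsChain A P) {c p : V} (hc : c ∈ K) (hp : p ∈ P) (a : A c p) :
    ∃ H, List.IsChain A H ∧ H ~ P ++ K := by
  have pre : ∀ c ∈ K, ∀ u P, A c u → List.IsChain A (u :: P) →
      ∃ d t, List.IsChain A (d :: t ++ u :: P) ∧ d :: t ++ u :: P ~ u :: P ++ K ∧
        ∀ w, (∀ x ∈ K, ¬ A x w) → A w u → A w d := by
    intro c hc u P a hP
    obtain ⟨t, ht⟩ := hK.rot hc
    obtain ⟨d, s, rfl⟩ := ht.cons E.irr
    refine ⟨d, s ++ [c], isChain_split.2 ⟨ht.path a, hP⟩,
      perm_append_comm.trans (ht.next.2.append_left _), fun w hw wu => ?_⟩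
    have st : ∀ x ∈ K, ∀ y, A x y → A w y → A w x := by
      intro x hx y a1 a2
      rcases E.loc y w x a2 a1 with h | h | h
      · obtain ⟨z, hz, h'⟩ := hK.pred hx
        exact absurd (E.twin _ _ _ h.symm h') (hw z hz)
      · exact h
      · exact absurd h (hw x hx)
    have : ∀ (l : List V) (x : V), (∀ y ∈ x :: l, y ∈ K) → List.IsChain A (x :: l ++ [u]) → A w x := by
      intro l
      induction l with
      | nil => exact fun x h1 h2 => st x (h1 x (by simp)) u (by simpa using h2) wu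
      | cons y l ih =>
        intro x h1 h2
        simp only [cons_append, isChain_cons_cons] at h2
        exact st x (h1 x (by simp)) y h2.1 (ih y (fun z hz => h1 z (by simp [hz])) h2.2)
    exact this _ d (fun y hy => ht.next.2.subset hy) (ht.path a)
  have main : ∀ (P : List V) (u : V), List.IsChain A (u :: P) → (∀ x ∈ K, ¬ A x u) → p ∈ P →
      ∃ H, List.IsChain A (u :: H) ∧ H ~ P ++ K := by
    intro P
    induction P with
    | nil => simp
    | cons v P ih =>
      intro u h1 h2 h3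
      rw [isChain_cons_cons] at h1
      by_cases h : ∃ x ∈ K, A x v
      · obtain ⟨x, hx, a⟩ := h
        obtain ⟨d, t, b1, b2, b3⟩ := pre x hx v P a h1.2
        exact ⟨_, isChain_cons_cons.2 ⟨b3 u h2 h1.1, b1⟩, b2⟩
      · push Not at h
        obtain ⟨H, b1, b2⟩ := ih v h1.2 h ((List.mem_cons.1 h3).resolve_left
          fun e => h c hc (e ▸ a))
        exact ⟨v :: H, isChain_cons_cons.2 ⟨h1.1, b1⟩, b2.cons v⟩
  obtain ⟨u, P, rfl⟩ := List.exists_cons_of_ne_nil (List.ne_nil_of_mem hp)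
  by_cases h : ∃ x ∈ K, A x u
  · obtain ⟨x, hx, a⟩ := h
    obtain ⟨d, t, b1, b2, -⟩ := pre x hx u P a hP
    exact ⟨_, b1, b2⟩
  · push Not at h
    obtain ⟨H, b1, b2⟩ := main P u hP h ((List.mem_cons.1 hp).resolve_left
      fun e => h c hc (e ▸ a))
    exact ⟨_, b1, b2.cons u⟩

theorem ExtIn.insert {W : Type} {m : V → W} (E : ExtIn A m) {x p : V} (a : A x p) :
    ∀ {P : List V}, List.IsChain A P → p ∈ P → (∀ y ∈ P, m y ≠ m x) →
      ∃ H, List.IsChain A H ∧ H ~ x :: P := by
  have main : ∀ (P : List V) (u : V), List.IsChain A (u :: P) → ¬ A x u → p ∈ P →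
      (∀ y ∈ u :: P, m y ≠ m x) → ∃ H, List.IsChain A (u :: H) ∧ H ~ x :: P := by
    intro P
    induction P with
    | nil => simp
    | cons v P ih =>
      intro u h1 h2 h3 h4
      rw [isChain_cons_cons] at h1
      by_cases h : A x v
      · refine ⟨x :: v :: P, isChain_cons_cons.2 ⟨?_, isChain_cons_cons.2 ⟨h, h1.2⟩⟩, Perm.refl _⟩
        exact ((E.loc v u x h1.1 h).resolve_left (h4 u (by simp))).resolve_right h2
      · obtain ⟨H, b1, b2⟩ := ih v h1.2 h ((List.mem_cons.1 h3).resolve_left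
          fun e => h (e ▸ a)) fun y hy => h4 y (by simp [hy])
        exact ⟨v :: H, isChain_cons_cons.2 ⟨h1.1, b1⟩, (b2.cons v).trans (Perm.swap _ _ _)⟩
  intro P hP hp hm
  obtain ⟨u, P, rfl⟩ := List.exists_cons_of_ne_nil (List.ne_nil_of_mem hp)
  by_cases h : A x u
  · exact ⟨_, isChain_cons_cons.2 ⟨h, hP⟩, Perm.refl _⟩
  · obtain ⟨H, b1, b2⟩ := main P u hP h ((List.mem_cons.1 hp).resolve_left
      fun e => h (e ▸ a)) hm
    exact ⟨_, b1, (b2.cons u).trans (Perm.swap _ _ _)⟩

theorem mrg_local {W : Type} {m : V → W} (E : ExtIn A m) (E' : ExtIn (flip A) m) (S : Finset V)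
    (hc : ∀ x ∈ S, ∀ y ∈ S,
      Relation.ReflTransGen (fun a b => b ∈ S ∧ (m a = m b ∨ A a b ∨ A b a)) x y) :
    Mrg A S 1 := by
  classical
  have mg : ∀ K P c p, Cyc A K → List.IsChain A P → c ∈ K → p ∈ P → A c p ∨ A p c →
      ∃ H, List.IsChain A H ∧ H ~ P ++ K := by
    rintro K P c p h1 h2 h3 h4 (h | h)
    · exact E.merge h1 h2 h3 h4 h
    · obtain ⟨K', k1, k2⟩ := h1.flip
      obtain ⟨H, b1, b2⟩ := E'.merge k1 (P := P.reverse) (isChain_reverse.2 h2) (k2.mem_iff.2 h3)
        (List.mem_reverse.2 h4) h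
      exact ⟨H.reverse, isChain_reverse.2 b1,
        (reverse_perm H).trans (b2.trans ((reverse_perm P).append k2))⟩
  have ins : ∀ P x p, List.IsChain A P → p ∈ P → A x p ∨ A p x → (∀ y ∈ P, m y ≠ m x) →
      ∃ H, List.IsChain A H ∧ H ~ x :: P := by
    rintro P x p h1 h2 (h | h) h3
    · exact E.insert h h1 h2 h3
    · obtain ⟨H, b1, b2⟩ := E'.insert (P := P.reverse) h (isChain_reverse.2 h1)
        (List.mem_reverse.2 h2) fun y hy => h3 y (List.mem_reverse.1 hy)
      exact ⟨H.reverse, isChain_reverse.2 b1,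
        (reverse_perm H).trans (b2.trans ((reverse_perm P).cons x))⟩
  have main : ∀ (n : ℕ) (Ls Ks : List (List V)), S.card ≤ Ls.flatten.length + n →
      1 ≤ Ls.length → (∀ L ∈ Ls, L ≠ [] ∧ L.IsChain A) →
      (∀ K ∈ Ks, Cyc A K) → (Ls.flatten ++ Ks.flatten).Nodup →
      (∀ x ∈ Ls.flatten ++ Ks.flatten, x ∈ S) →
      ∃ Ms, Pack A S Ms ∧ Ms.length = Ls.length ∧
        ∀ x ∈ Ls.flatten ++ Ks.flatten, x ∈ Ms.flatten := by
    intro n
    induction n with
    | zero =>
      intro Ls Ks hn _ a1 a2 a3 a4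
      have : (Ls.flatten ++ Ks.flatten).length ≤ S.card := by
        rw [← List.toFinset_card_of_nodup a3]
        exact Finset.card_le_card fun x hx => a4 x (List.mem_toFinset.1 hx)
      rw [length_append] at this
      have e : Ks.flatten = [] := List.length_eq_zero_iff.1 (by omega)
      rw [e, append_nil] at a3 a4 ⊢
      exact ⟨Ls, ⟨a1, a3, a4⟩, rfl, fun _ h => h⟩
    | succ n ih =>
      intro Ls Ks hn hl a1 a2 a3 a4
      have rep : ∀ P ∈ Ls, ∀ (H X : List V) (Ks' : List (List V)), List.IsChain A H → H ~ P ++ X →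
          X ≠ [] → (∀ K ∈ Ks', K ∈ Ks) → (Ls.flatten ++ (X ++ Ks'.flatten)).Nodup →
          (∀ x ∈ X, x ∈ S) → (∀ x ∈ Ks.flatten, x ∈ X ++ Ks'.flatten) →
          ∃ Ms, Pack A S Ms ∧ Ms.length = Ls.length ∧
            ∀ x ∈ Ls.flatten ++ Ks.flatten, x ∈ Ms.flatten := by
        intro P hP H X Ks' b1 b2 b3 b4 b5 b6 b7
        have p1 := List.perm_cons_erase hP
        have p2 : (H :: Ls.erase P).flatten ~ Ls.flatten ++ X := by
          rw [flatten_cons]
          refine (b2.append_right _).trans (Perm.trans ?_ (p1.flatten.symm.append_right _))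
          rw [flatten_cons, append_assoc, append_assoc]
          exact perm_append_comm.append_left _
        have p3 : (H :: Ls.erase P).flatten ++ Ks'.flatten ~ Ls.flatten ++ (X ++ Ks'.flatten) := by
          rw [← append_assoc]; exact p2.append_right _
        have hX := List.length_pos_iff.2 b3
        obtain ⟨Ms, m1, m2, m3⟩ := ih (H :: Ls.erase P) Ks' (by
            rw [p2.length_eq, length_append]; omega) (by simp) (by
            intro L hL
            rcases List.mem_cons.1 hL with rfl | hL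
            · refine ⟨?_, b1⟩
              rintro rfl
              exact b3 (List.append_eq_nil_iff.1 b2.symm.eq_nil).2
            · exact a1 L (List.mem_of_mem_erase hL)) (fun K hK => a2 K (b4 K hK))
            (p3.nodup_iff.2 b5) (by
            intro x hx
            rw [p3.mem_iff, mem_append, mem_append] at hx
            rcases hx with h | h | h
            · exact a4 x (mem_append_left _ h)
            · exact b6 x h
            · obtain ⟨K, hK, hx⟩ := mem_flatten.1 h
              exact a4 x (mem_append_right _ (mem_flatten.2 ⟨K, b4 K hK, hx⟩)))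
        refine ⟨Ms, m1, m2.trans p1.length_eq.symm, fun x hx => m3 x (p3.mem_iff.2 ?_)⟩
        rw [mem_append] at hx ⊢
        exact hx.imp id (b7 x)
      by_cases h : ∃ K ∈ Ks, ∃ c ∈ K, ∃ p ∈ Ls.flatten, A c p ∨ A p c
      · obtain ⟨K, hK, c, hc, p, hp, h⟩ := h
        obtain ⟨P, hP, hp⟩ := mem_flatten.1 hp
        obtain ⟨H, b1, b2⟩ := mg K P c p (a2 K hK) (a1 P hP).2 hc hp h
        have p1 := (List.perm_cons_erase hK).flatten
        rw [flatten_cons] at p1
        exact rep P hP H K (Ks.erase K) b1 b2 (List.ne_nil_of_mem hc)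
          (fun _ => List.mem_of_mem_erase) ((p1.append_left _).nodup_iff.1 a3)
          (fun x hx => a4 x (mem_append_right _ (mem_flatten.2 ⟨K, hK, hx⟩)))
          fun x hx => p1.mem_iff.1 hx
      · push Not at h
        cases Ks with
        | nil => exact ⟨Ls, ⟨a1, by simpa using a3, by simpa using a4⟩, rfl, by simp⟩
        | cons K Ks =>
          obtain ⟨c, hcK⟩ : ∃ c, c ∈ K := by
            obtain ⟨a, t, rfl, -⟩ := a2 K (by simp); exact ⟨a, by simp⟩
          obtain ⟨y, hy⟩ : ∃ y, y ∈ Ls.flatten := by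
            obtain ⟨P, Ls, rfl⟩ := List.exists_cons_of_length_pos hl
            obtain ⟨y, hy⟩ := List.exists_mem_of_ne_nil P (a1 P (by simp)).1
            exact ⟨y, by simp [hy]⟩
          have hcZ : ¬ ∃ p ∈ Ls.flatten, m p = m c := by
            rintro ⟨p, hp, e⟩
            obtain ⟨d, hd, a⟩ := (a2 K (by simp)).pred hcK
            exact (h K (by simp) d hd p hp).1 (E.twin _ _ _ e.symm a)
          have : ∀ z, Relation.ReflTransGen (fun a b => b ∈ S ∧ (m a = m b ∨ A a b ∨ A b a)) y z →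
              (∃ p ∈ Ls.flatten, m p = m z) ∨ ∃ b ∈ S, (¬ ∃ p ∈ Ls.flatten, m p = m b) ∧
                ∃ p ∈ Ls.flatten, A b p ∨ A p b := by
            intro z hz
            induction hz with
            | refl => exact Or.inl ⟨y, hy, rfl⟩
            | @tail a b _ h2 ih =>
              rcases ih with ⟨p, hp, e⟩ | ih
              · by_cases hb : ∃ p ∈ Ls.flatten, m p = m b
                · exact Or.inl hb
                · refine Or.inr ⟨b, h2.1, hb, p, hp, ?_⟩
                  rcases h2.2 with h' | h' | h'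
                  · exact absurd ⟨p, hp, e.trans h'⟩ hb
                  · exact Or.inr (E'.twin _ _ _ e.symm h')
                  · exact Or.inl (E.twin _ _ _ e.symm h')
              · exact Or.inr ih
          obtain ⟨b, hb, b1, p, hp, b2⟩ := (this c (hc y (a4 y (mem_append_left _ hy)) c
            (a4 c (mem_append_right _ (by simp [hcK]))))).resolve_left hcZ
          obtain ⟨P, hP, hpP⟩ := mem_flatten.1 hp
          obtain ⟨H, b3, b4⟩ := ins P b p (a1 P hP).2 hpP b2
            fun y hy e => b1 ⟨y, mem_flatten.2 ⟨P, hP, hy⟩, e⟩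
          refine rep P hP H [b] (K :: Ks) b3 (b4.trans (perm_append_singleton _ _).symm) (by simp)
            (fun _ h => h) ?_ (by simpa using hb) fun x hx => mem_append_right _ hx
          rw [singleton_append, perm_middle.nodup_iff, List.nodup_cons]
          refine ⟨fun hm => ?_, a3⟩
          rcases mem_append.1 hm with h' | h'
          · exact b1 ⟨b, h', rfl⟩
          · obtain ⟨K', hK', hb'⟩ := mem_flatten.1 h'
            have := h K' hK' b hb' p hp
            tauto
  exact fun Ls Ks => main S.card Ls Ks (by omega)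

end Pool.Agent.Lib.MP_6d5d56_co
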