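import Pool.Agent.Lib.MP_6d5d56_co.Cov

/-! Partitions with at most one long path, in an arbitrary digraph. -/

set_option autoImplicit false

namespace Pool.Agent.Lib.MP_6d5d56_co

open List

variable {V : Type} {A : V → V → Prop} {S : Finset V}

theorem exists_max_acyclic (A : V → V → Prop) (T : Finset V) (Ss : List (List V))
    (h : Pack A T Ss) :
    ∃ (R : V → V → Prop) (r : V → ℕ), (∀ x y, R x y → x ∈ T ∧ y ∈ T ∧ A x y ∧ r x < r y) ∧
      (∀ L ∈ Ss, L.IsChain R) ∧
      ∀ x ∈ T, ∀ y ∈ T, A x y → R x y ∨ Relation.ReflTransGen R y x := by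
  classical
  set Ok : Finset (V × V) → Prop := fun R => (∀ e ∈ R, A e.1 e.2) ∧
    (∃ r : V → ℕ, ∀ e ∈ R, r e.1 < r e.2) ∧ ∀ L ∈ Ss, L.IsChain fun a b => (a, b) ∈ R with hOk
  obtain ⟨R, hR, hmax⟩ := Finset.exists_max_image ((T ×ˢ T).powerset.filter Ok) Finset.card
    ⟨(T ×ˢ T).filter fun e => A e.1 e.2 ∧ Ss.flatten.idxOf e.1 < Ss.flatten.idxOf e.2, by
      refine Finset.mem_filter.2 ⟨Finset.mem_powerset.2 (Finset.filter_subset _ _),
        fun e he => (Finset.mem_filter.1 he).2.1,
        ⟨fun x => Ss.flatten.idxOf x, fun e he => (Finset.mem_filter.1 he).2.2⟩, fun L hL => ?_⟩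
      have h1 := ((idx_pairwise h.2.1).sublist (List.sublist_flatten_of_mem hL)).isChain
      refine (isChain_and (h.1 L hL).2 h1).imp_of_mem_imp fun a b ha hb hab => ?_
      exact Finset.mem_filter.2 ⟨Finset.mem_product.2 ⟨h.2.2 a (mem_flatten.2 ⟨L, hL, ha⟩),
        h.2.2 b (mem_flatten.2 ⟨L, hL, hb⟩)⟩, hab⟩⟩
  rw [Finset.mem_filter, Finset.mem_powerset] at hR
  obtain ⟨hsub, h1, ⟨r, h2⟩, h3⟩ := hR
  refine ⟨fun a b => (a, b) ∈ R, r, fun x y hxy => ?_, h3, fun x hx y hy hxy => ?_⟩
  · have := Finset.mem_product.1 (hsub hxy)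
    exact ⟨this.1, this.2, h1 _ hxy, h2 _ hxy⟩
  · by_contra hc
    rw [not_or] at hc
    have := hmax (insert (x, y) R) (Finset.mem_filter.2 ⟨Finset.mem_powerset.2
      (Finset.insert_subset (Finset.mem_product.2 ⟨hx, hy⟩) hsub), ?_, ?_, ?_⟩)
    · rw [Finset.card_insert_of_notMem hc.1] at this; omega
    · intro e he
      rcases Finset.mem_insert.1 he with rfl | he
      · exact hxy
      · exact h1 e he
    · refine ⟨fun z => r z + if Relation.ReflTransGen (fun a b => (a, b) ∈ R) y z then r x + 1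
        else 0, fun e he => ?_⟩
      rcases Finset.mem_insert.1 he with rfl | he
      · simp only [if_neg hc.2, if_pos Relation.ReflTransGen.refl]; omega
      · have := h2 e he
        by_cases h' : Relation.ReflTransGen (fun a b => (a, b) ∈ R) y e.1
        · simp only [if_pos h', if_pos (h'.tail (show (e.1, e.2) ∈ R from he))]; omega
        · simp only [if_neg h']; omega
    · exact fun L hL => (h3 L hL).imp fun a b hab => Finset.mem_insert_of_mem hab

theorem berge_one (k : ℕ) (Ls Ss : List (List V)) (hP : Pack A S (Ls ++ Ss))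
    (hcov : ∀ x ∈ S, x ∈ (Ls ++ Ss).flatten) (hopt : Opt A S k Ls) (h1 : Ls.length ≤ 1) :
    ∃ c, Col A S k Ls Ss c := by
  classical
  set U := Ls.flatten with hU
  have hLs : Pack A S Ls := hP.sublist (by simp)
  have hLU : ∀ L ∈ Ls, L = U := by
    intro L hL
    match Ls, h1, hL with
    | [M], _, hL => simp at hL; simp [hU, hL]
  have hnd := hP.2.1
  rw [flatten_append, List.nodup_append] at hnd
  set T := S.filter (· ∉ U) with hT
  have hSs : Pack A T Ss := ⟨fun L hL => hP.1 L (by simp [hL]), hnd.2.1, fun x hx =>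
    Finset.mem_filter.2 ⟨hP.2.2 x (by simp only [flatten_append, mem_append]; exact Or.inr hx),
      fun h => hnd.2.2 x h x hx rfl⟩⟩
  obtain ⟨R, r, r1, r2, r3⟩ := exists_max_acyclic A T Ss hSs
  set Re : V → Finset V := fun s => U.toFinset.filter fun u => ∃ s' ∈ T, A u s' ∧
    Relation.ReflTransGen R s' s with hRe
  set ρ : V → ℕ ×ₗ ℕ := fun x => if x ∈ U then toLex (U.idxOf x + 1, 0) else
    toLex ((Re x).sup fun u => U.idxOf u + 1, r x + 1) with hρ
  set H : V → V → Prop := fun x y => A x y ∧ ρ x < ρ y with hH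
  have hUU : ∀ x ∈ U, ∀ y ∈ U, U.idxOf x < U.idxOf y → ρ x < ρ y := by
    intro x hx y hy h
    simp only [hρ, if_pos hx, if_pos hy, Prod.Lex.toLex_lt_toLex]
    omega
  have hRH : ∀ x y, R x y → H x y := by
    intro x y h
    obtain ⟨hx, hy, a, b⟩ := r1 x y h
    refine ⟨a, ?_⟩
    simp only [hρ, if_neg (Finset.mem_filter.1 hx).2, if_neg (Finset.mem_filter.1 hy).2,
      Prod.Lex.toLex_lt_toLex]
    have : (Re x).sup (fun u => U.idxOf u + 1) ≤ (Re y).sup fun u => U.idxOf u + 1 := by
      refine Finset.sup_mono fun u hu => ?_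
      simp only [hRe, Finset.mem_filter] at hu ⊢
      obtain ⟨h1, s', h2, h3, h4⟩ := hu
      exact ⟨h1, s', h2, h3, h4.tail h⟩
    omega
  have hUT : ∀ x ∈ U, ∀ y ∈ T, A x y → H x y := by
    intro x hx y hy h
    refine ⟨h, ?_⟩
    simp only [hρ, if_pos hx, if_neg (Finset.mem_filter.1 hy).2, Prod.Lex.toLex_lt_toLex]
    have : U.idxOf x + 1 ≤ (Re y).sup fun u => U.idxOf u + 1 :=
      Finset.le_sup (f := fun u => U.idxOf u + 1) (Finset.mem_filter.2 ⟨List.mem_toFinset.2 hx,
        y, hy, h, .refl⟩)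
    omega
  have hTU : ∀ x ∈ T, ∀ y ∈ U, A x y → H x y ∨ ∃ u ∈ U, U.idxOf y ≤ U.idxOf u ∧
      ∃ s' ∈ T, A u s' ∧ Relation.ReflTransGen R s' x := by
    intro x hx y hy h
    by_cases hlt : ((Re x).sup fun u => U.idxOf u + 1) < U.idxOf y + 1
    · refine Or.inl ⟨h, ?_⟩
      simp only [hρ, if_pos hy, if_neg (Finset.mem_filter.1 hx).2, Prod.Lex.toLex_lt_toLex]
      exact Or.inl hlt
    · right
      rw [not_lt, Finset.le_sup_iff (by simp)] at hlt
      obtain ⟨u, hu, hle⟩ := hlt
      simp only [hRe, Finset.mem_filter, List.mem_toFinset] at hu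
      exact ⟨u, hu.1, by omega, hu.2⟩
  have hidx : U.IsChain (fun x y => U.idxOf x < U.idxOf y) := (idx_pairwise hLs.2.1).isChain
  have hHL : Pack H S Ls := ⟨fun L hL => ⟨(hLs.1 L hL).1, by
    have e := hLU L hL
    have := (hLs.1 L hL).2
    rw [e] at this ⊢
    exact (isChain_and this hidx).imp_of_mem_imp fun a b ha hb h => ⟨h.1, hUU a ha b hb h.2⟩⟩,
    hLs.2⟩
  have hHA : ∀ Ms, Pack H S Ms → Pack A S Ms := fun Ms h => h.mono le_rfl fun _ _ _ _ h => h.1
  obtain ⟨i, o, κ, k1, k2, l1, l2, l3, l4⟩ := lp H S (fun _ => 1) (by simp) Ls hHL k k le_rfl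
    (mrg_of_rank ρ (fun _ _ _ _ h => h.2) _)
    (fun Ms h e => by have := hopt Ms (hHA Ms h); rw [wt_one, wt_one]; rw [e] at this; omega)
    (fun Ms h e => by
      have := hopt Ms (hHA Ms h); rw [wt_one, wt_one]; rw [e, mul_add] at this; omega)
    (fun Ms h e => by
      have := hopt Ms (hHA Ms h); rw [wt_one, wt_one]; rw [← e, mul_add] at this; omega)
  obtain rfl : κ = k := le_antisymm k2 k1
  have l5 : ∀ x ∈ S, ∀ y ∈ S, H x y → o x ≤ i y := fun x hx y hy h =>
    l2 x hx y hy (fun e => lt_irrefl _ (e ▸ h.2)) h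
  have hTS : ∀ x ∈ T, x ∈ S := fun x hx => (Finset.mem_filter.1 hx).1
  have hUS : ∀ x ∈ U, x ∈ S := hLs.2.2
  have l6 : ∀ x ∈ T, o x = i x + 1 := fun x hx => l3 x (hTS x hx) (Finset.mem_filter.1 hx).2
  have l7 : ∀ x y, R x y → o x < o y := fun x y h => by
    obtain ⟨hx, hy, -⟩ := r1 x y h
    have := l5 x (hTS x hx) y (hTS y hy) (hRH x y h)
    have := l6 y hy
    omega
  have l8 : ∀ x y, Relation.ReflTransGen R x y → x = y ∨ o x < o y := fun x y h => by
    induction h with
    | refl => exact Or.inl rfl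
    | tail _ h ih =>
      have := l7 _ _ h
      rcases ih with rfl | ih
      · exact Or.inr this
      · exact Or.inr (ih.trans this)
  have l9 : ∀ x ∈ U, (∃ y ∈ U, U.idxOf x < U.idxOf y ∧ o x = i y) ∨ o x = k := by
    intro x hx
    obtain ⟨L, hL, -⟩ := mem_flatten.1 hx
    have := l4 L hL
    rw [hLU L hL] at this
    rcases next_or_last (isChain_and hidx this.1) x hx with h | h
    · exact Or.inl h
    · exact Or.inr (this.2.2 x h)
  set good : V → Prop := fun u => i u < o u ∧ ∀ y ∈ U, U.idxOf u < U.idxOf y → o u ≤ i y with hg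
  set c : V → ℕ := fun x => if x ∈ U ∧ ¬ good x then 0 else (o x).toNat with hc
  have c1 : ∀ x ∈ T, (c x : ℤ) = o x := by
    intro x hx
    have := l6 x hx
    have := l1 x (hTS x hx)
    simp only [hc, (Finset.mem_filter.1 hx).2, false_and, if_false]
    omega
  have c2 : ∀ x ∈ U, c x ≠ 0 → good x ∧ (c x : ℤ) = o x := by
    intro x hx h
    by_cases hgx : good x
    · have := l1 x (hUS x hx)
      have := hgx.1
      refine ⟨hgx, ?_⟩
      simp only [hc, hgx, not_true, and_false, if_false]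
      omega
    · simp [hc, hx, hgx] at h
  have hm : ∀ x ∈ S, x ∈ U ∨ x ∈ T := fun x hx => by
    by_cases h : x ∈ U
    · exact Or.inl h
    · exact Or.inr (Finset.mem_filter.2 ⟨hx, h⟩)
  refine ⟨c, fun x hx => ?_, fun u hu v hv huv a e => ?_, fun L hL j j0 jk => ?_, fun L hL => ?_⟩
  · have := l1 x hx
    simp only [hc]
    split_ifs <;> omega
  · by_contra h0
    rcases hm u hu with u1 | u1 <;> rcases hm v hv with v1 | v1
    · obtain ⟨g1, e1⟩ := c2 u u1 h0
      obtain ⟨g2, e2⟩ := c2 v v1 (e ▸ h0)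
      have := g1.1
      have := g2.1
      rcases lt_trichotomy (U.idxOf u) (U.idxOf v) with h | h | h
      · have := g1.2 v v1 h; omega
      · exact huv ((List.idxOf_inj u1).1 h)
      · have := g2.2 u u1 h; omega
    · obtain ⟨g1, e1⟩ := c2 u u1 h0
      have := c1 v v1
      have := l6 v v1
      have := l5 u hu v hv (hUT u u1 v v1 a)
      omega
    · obtain ⟨g2, e2⟩ := c2 v v1 (e ▸ h0)
      have := c1 u u1
      have := g2.1
      rcases hTU u u1 v v1 a with h | ⟨w, hw, hle, s, hs, a1, a2⟩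
      · have := l5 u hu v hv h; omega
      · have := l5 w (hUS w hw) s (hTS s hs) (hUT w hw s hs a1)
        have := l6 s hs
        have : o v ≤ o w := by
          rcases l9 w hw with ⟨y, hy, h1, h2⟩ | h
          · have := g2.2 y hy (by omega); omega
          · have := l1 v hv; omega
        rcases l8 _ _ a2 with rfl | h <;> omega
    · have := c1 u u1
      have := c1 v v1
      rcases r3 u u1 v v1 a with h | h
      · have := l7 _ _ h; omega
      · rcases l8 _ _ h with h | h
        · exact huv h.symm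
        · omega
  · have e := hLU L hL
    have hl := l4 L hL
    have hne := (hLs.1 L hL).1
    rw [e] at hl hne ⊢
    obtain ⟨u, hu, hmax⟩ := Finset.exists_max_image (U.toFinset.filter fun u => i u < j)
      (fun u => U.idxOf u) ⟨U.head hne, Finset.mem_filter.2 ⟨List.mem_toFinset.2
        (List.head_mem hne), by
          rw [hl.2.1 _ (List.head?_eq_some_head hne)]; omega⟩⟩
    rw [Finset.mem_filter, List.mem_toFinset] at hu
    have a1 : ∀ y ∈ U, U.idxOf u < U.idxOf y → (j : ℤ) ≤ i y := fun y hy h => by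
      by_contra h'
      have := hmax y (Finset.mem_filter.2 ⟨List.mem_toFinset.2 hy, by omega⟩)
      omega
    have a2 : o u = j := by
      have := l1 u (hUS u hu.1)
      have := hu.2
      rcases l9 u hu.1 with ⟨y, hy, h1, h2⟩ | h
      · have := a1 y hy h1; omega
      · omega
    have a3 : good u := ⟨by rw [a2]; exact hu.2, by rw [a2]; exact a1⟩
    refine ⟨u, hu.1, ?_⟩
    simp only [hc, a3, not_true, and_false, if_false, a2]
    omega
  · have hLT : ∀ x ∈ L, x ∈ T := fun x hx => hSs.2.2 x (mem_flatten.2 ⟨L, hL, hx⟩)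
    refine ⟨fun x hx => ?_, ?_⟩
    · have := c1 x (hLT x hx)
      have := l6 x (hLT x hx)
      have := l1 x (hTS x (hLT x hx))
      omega
    · have : IsChain (· < ·) (L.map c) := by
        rw [isChain_map]
        refine (r2 L hL).imp_of_mem_imp fun a b ha hb h => ?_
        have := l7 a b h
        have := c1 a (hLT a ha)
        have := c1 b (hLT b hb)
        omega
      exact this.pairwise.imp ne_of_lt

end Pool.Agent.Lib.MP_6d5d56_co
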