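import Mathlib

/-! Potentials and duality for the assignment problem. -/

set_option autoImplicit false

namespace Pool.Agent.Lib.MP_6d5d56_co

open List

section
variable {N : Type}

/-- total length of a walk -/
def wlen (l : N → N → ℤ) : List N → ℤ
  | [] => 0
  | [_] => 0
  | a :: b :: t => l a b + wlen l (b :: t)

theorem wlen_split (l : N → N → ℤ) (a : N) (t : List N) :
    ∀ s : List N, wlen l (s ++ a :: t) = wlen l (s ++ [a]) + wlen l (a :: t)
  | [] => by simp [wlen]
  | [b] => by simp [wlen]
  | b :: c :: s => by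
    have := wlen_split l a t (c :: s)
    simp only [cons_append, wlen] at this ⊢
    rw [this]; ring

theorem finite_nodup (F : Finset N) : {t : List N | t.Nodup ∧ ∀ y ∈ t, y ∈ F}.Finite := by
  classical
  refine ((List.finite_length_le F F.card).image (List.map Subtype.val)).subset ?_
  rintro t ⟨h1, h2⟩
  refine ⟨t.attach.map (fun y => ⟨y.1, h2 y.1 y.2⟩), ?_, ?_⟩
  · simp only [Set.mem_ofPred_eq, length_map, length_attach]
    rw [← List.toFinset_card_of_nodup h1]
    exact Finset.card_le_card (fun y hy => h2 y (List.mem_toFinset.1 hy))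
  · simp [List.map_map, Function.comp_def]

theorem exists_potential (F : Finset N) (R : N → N → Prop) (l : N → N → ℤ)
    (hF : ∀ x y, R x y → y ∈ F)
    (hc : ∀ x t, (x :: t).Nodup → IsChain R (x :: t ++ [x]) → wlen l (x :: t ++ [x]) ≤ 0) :
    ∃ φ : N → ℤ, ∀ x y, R x y → l x y + φ y ≤ φ x := by
  classical
  have hmem : ∀ (t : List N) (x : N), IsChain R (x :: t) → ∀ y ∈ t, y ∈ F := by
    intro t
    induction t with
    | nil => simp
    | cons b t ih =>
      intro x h y hy
      rw [isChain_cons_cons] at h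
      rcases List.mem_cons.1 hy with rfl | hy
      · exact hF _ _ h.1
      · exact ih b h.2 y hy
  have key : ∀ x : N, ∃ t : List N, ((x :: t).Nodup ∧ IsChain R (x :: t)) ∧
      ∀ s : List N, ((x :: s).Nodup ∧ IsChain R (x :: s)) → wlen l (x :: s) ≤ wlen l (x :: t) := by
    intro x
    have hfin : {t : List N | (x :: t).Nodup ∧ IsChain R (x :: t)}.Finite :=
      (finite_nodup F).subset fun t ht => ⟨ht.1.of_cons, hmem t x ht.2⟩
    obtain ⟨t, ht, hmax⟩ := Set.exists_max_image _ (fun t => wlen l (x :: t)) hfin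
      ⟨[], by simp⟩
    exact ⟨t, ht, hmax⟩
  choose T hT hmax using key
  refine ⟨fun x => wlen l (x :: T x), fun x y hxy => ?_⟩
  by_cases hx : x ∈ y :: T y
  · obtain ⟨s, u, hsu⟩ := List.append_of_mem hx
    have h1 := (hT y).1
    have h2 := (hT y).2
    have e : wlen l (y :: T y) = wlen l (s ++ [x]) + wlen l (x :: u) := by
      rw [hsu, wlen_split]
    rw [hsu] at h1 h2
    have h3 := isChain_split.1 h2
    have h4 : wlen l (x :: u) ≤ wlen l (x :: T x) :=
      hmax x u ⟨(List.nodup_append.1 h1).2.1, h3.2⟩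
    have h5 : (x :: s).Nodup := by
      have := List.nodup_append.1 h1
      refine List.nodup_cons.2 ⟨fun hxs => this.2.2 x hxs x (by simp) rfl, this.1⟩
    have h6 : (s ++ [x]).head? = some y := by
      have : (s ++ x :: u).head? = some y := by rw [← hsu]; rfl
      cases s <;> simp_all
    obtain ⟨r, hr⟩ : ∃ r, s ++ [x] = y :: r := by
      cases h : s ++ [x] with
      | nil => simp at h
      | cons a r => rw [h] at h6; simp at h6; exact ⟨r, by rw [h6]⟩
    have h7 : IsChain R (x :: s ++ [x]) := by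
      rw [cons_append, hr, isChain_cons_cons]; exact ⟨hxy, hr ▸ h3.1⟩
    have h8 := hc x s h5 h7
    rw [cons_append, hr, wlen, ← hr] at h8
    simp only
    omega
  · have := hmax x (y :: T y) ⟨List.nodup_cons.2 ⟨hx, (hT y).1⟩,
      isChain_cons_cons.2 ⟨hxy, (hT y).2⟩⟩
    simpa [wlen] using this

theorem chain_formPerm [DecidableEq N] (x : N) (t : List N) (h : (x :: t).Nodup) :
    IsChain (fun a b => formPerm (x :: t) a = b) (x :: t ++ [x]) := by
  rw [isChain_append]
  refine ⟨?_, by simp, ?_⟩
  · rw [isChain_iff_getElem]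
    intro i hi
    exact formPerm_apply_lt_getElem _ h i hi
  · intro a ha b hb
    simp only [head?_cons, Option.mem_def, Option.some.injEq] at hb
    subst hb
    rw [List.getLast?_eq_some_getLast (by simp)] at ha
    simp only [Option.mem_def, Option.some.injEq] at ha
    subst ha
    exact formPerm_apply_getLast _ _

theorem wlen_eq_sum (R : N → N → Prop) (l : N → N → ℤ) (π : N → N) (y : N) :
    ∀ (t : List N), IsChain (fun a b => π a = b) (t ++ [y]) → IsChain R (t ++ [y]) →
      (∀ z ∈ t, R z (π z)) ∧ wlen l (t ++ [y]) = (t.map fun z => l z (π z)).sum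
  | [], _, _ => by simp [wlen]
  | [a], h1, h2 => by
    simp only [cons_append, nil_append, isChain_cons_cons] at h1 h2
    simp [wlen, h1.1, h2.1]
  | a :: b :: t, h1, h2 => by
    simp only [cons_append, isChain_cons_cons] at h1 h2
    have := wlen_eq_sum R l π y (b :: t) h1.2 h2.2
    refine ⟨fun z hz => ?_, ?_⟩
    · rcases List.mem_cons.1 hz with rfl | hz
      · rw [h1.1]; exact h2.1
      · exact this.1 z hz
    · simp only [cons_append, wlen] at this ⊢
      rw [this.2, map_cons, sum_cons, map_cons (a := a), sum_cons, h1.1]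
      simp

theorem assignment_dual (F : Finset N) (R : N → N → Prop) (c : N → N → ℤ) (σ : Equiv.Perm N)
    (h0 : ∀ x ∉ F, σ x = x) (h1 : ∀ x ∈ F, R x (σ x))
    (hopt : ∀ τ : Equiv.Perm N, (∀ x ∉ F, τ x = x) → (∀ x ∈ F, R x (τ x)) →
      ∑ x ∈ F, c x (τ x) ≤ ∑ x ∈ F, c x (σ x)) :
    ∃ α β : N → ℤ, (∀ x ∈ F, ∀ y ∈ F, R x y → c x y ≤ α x + β y) ∧
      ∀ x ∈ F, c x (σ x) = α x + β (σ x) := by
  classical
  obtain ⟨φ, hφ⟩ := exists_potential F (fun x y => x ∈ F ∧ y ∈ F ∧ R x (σ y))
    (fun x y => c x (σ y) - c y (σ y)) (fun x y h => h.2.1) (by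
      intro x t hn hch
      obtain ⟨e1, e2⟩ := wlen_eq_sum _ (fun x y => c x (σ y) - c y (σ y)) _ x (x :: t)
        (chain_formPerm x t hn) hch
      set π := formPerm (x :: t) with hπ
      have hout : ∀ z, z ∉ x :: t → π z = z := fun z hz => formPerm_apply_of_notMem hz
      have hsub : ∀ z ∈ x :: t, z ∈ F := fun z hz => (e1 z hz).1
      have hoF : ∀ z ∉ F, π z = z := fun z hz => hout z fun h => hz (hsub z h)
      have := hopt (σ * π) (fun z hz => by simp [hoF z hz, h0 z hz]) (fun z hz => by
        by_cases h : z ∈ x :: t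
        · exact (e1 z h).2.2
        · simpa [hout z h] using h1 z hz)
      have e3 : ∑ z ∈ F, c (π z) (σ (π z)) = ∑ z ∈ F, c z (σ z) :=
        Equiv.Perm.sum_comp π F (fun z => c z (σ z)) (fun z hz => by
          by_contra h; exact hz (hoF z h))
      rw [e2, ← List.sum_toFinset _ hn]
      have e4 : ∑ z ∈ (x :: t).toFinset, (c z (σ (π z)) - c (π z) (σ (π z))) =
          ∑ z ∈ F, (c z (σ (π z)) - c (π z) (σ (π z))) := by
        refine Finset.sum_subset (fun z hz => hsub z (List.mem_toFinset.1 hz)) ?_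
        intro z _ hz
        rw [hout z (fun h => hz (List.mem_toFinset.2 h))]; simp
      rw [e4, Finset.sum_sub_distrib, e3]
      simp only [Equiv.Perm.coe_mul, Function.comp_apply] at this
      omega)
  refine ⟨φ, fun y => c (σ.symm y) y - φ (σ.symm y), fun x hx y hy hR => ?_, fun x _ => by simp⟩
  have hy' : σ.symm y ∈ F := by
    by_contra h
    have := h0 _ h
    rw [Equiv.apply_symm_apply] at this
    exact h (this ▸ hy)
  have := hφ x (σ.symm y) ⟨hx, hy', by simpa using hR⟩
  simp only [Equiv.apply_symm_apply] at this ⊢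
  omega

theorem exists_perm_cycles : ∀ Z : List (List N), Z.flatten.Nodup →
    ∃ σ : Equiv.Perm N, (∀ x ∉ Z.flatten, σ x = x) ∧
      ∀ a t, (a :: t) ∈ Z → IsChain (fun u v => σ u = v) (a :: t ++ [a])
  | [], _ => ⟨1, by simp, by simp⟩
  | z :: Z, h => by
    classical
    rw [flatten_cons, List.nodup_append] at h
    obtain ⟨σ, h1, h2⟩ := exists_perm_cycles Z h.2.1
    refine ⟨formPerm z * σ, fun x hx => ?_, fun a t hat => ?_⟩
    · rw [flatten_cons, List.mem_append, not_or] at hx
      simp [h1 x hx.2, formPerm_apply_of_notMem hx.1]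
    · rcases List.mem_cons.1 hat with rfl | hat
      · refine (chain_formPerm a t h.1).imp_of_mem_imp fun u v hu _ huv => ?_
        have hu' : u ∈ a :: t := by simpa [or_comm, or_assoc] using hu
        have : u ∉ Z.flatten := fun hZ => h.2.2 u hu' u hZ rfl
        simp [h1 u this, huv]
      · refine (h2 a t hat).imp_of_mem_imp fun u v _ hv huv => ?_
        have hv' : v ∈ a :: t := by simpa [or_comm, or_assoc] using hv
        have : v ∉ z := fun hz => h.2.2 v hz v (List.mem_flatten.2 ⟨_, hat, hv'⟩) rfl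
        simp [huv, formPerm_apply_of_notMem this]

end

end Pool.Agent.Lib.MP_6d5d56_co
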