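import Pool.Agent.Lib.MP_6d5d56_co.One

/-! Digraphs whose vertices are covered by two disjoint paths. -/

set_option autoImplicit false

namespace Pool.Agent.Lib.MP_6d5d56_co

open List

variable {V : Type} {A : V → V → Prop} {S : Finset V}

theorem split_clean (X : V → Prop) : ∀ P : List V,
    ∃ t P', P = t ++ P' ∧ (∀ x ∈ t, X x) ∧ ∀ x ∈ P'.head?, ¬ X x
  | [] => ⟨[], [], by simp⟩
  | a :: P => by
    by_cases h : X a
    · obtain ⟨t, P', h1, h2, h3⟩ := split_clean X P
      exact ⟨a :: t, P', by simp [h1], by simpa [h] using h2, h3⟩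
    · exact ⟨[], a :: P, by simpa using h⟩

theorem merge_clean (X : V → Prop) (n : ℕ) : ∀ P Q : List V, P.length + Q.length ≤ n →
    P.IsChain A → Q.IsChain A → P.Nodup → Q.Nodup → (∀ x ∈ P, x ∉ Q) →
    (∀ x ∈ P.head?, ¬ X x) → (∀ x ∈ Q.head?, ¬ X x) →
    (∀ a ∈ P, ∀ b ∈ Q, ¬ X a → ¬ X b → A a b ∨ A b a) →
    ∃ L : List V, L.IsChain A ∧ L.Nodup ∧ (∀ x ∈ L, x ∈ P ∨ x ∈ Q) ∧
      (∀ x, x ∈ P ∨ x ∈ Q → ¬ X x → x ∈ L) ∧ (L.head? = P.head? ∨ L.head? = Q.head?) := by
  induction n with
  | zero =>
    intro P Q h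
    obtain rfl : P = [] := List.length_eq_zero_iff.1 (by omega)
    obtain rfl : Q = [] := List.length_eq_zero_iff.1 (by omega)
    intros; exact ⟨[], by simp⟩
  | succ n ih =>
    have key : ∀ (a : V) (P : List V) (b : V) (Q : List V), A a b →
        (a :: P).length + (b :: Q).length ≤ n + 1 →
        (a :: P).IsChain A → (b :: Q).IsChain A → (a :: P).Nodup → (b :: Q).Nodup →
        (∀ x ∈ a :: P, x ∉ b :: Q) → ¬ X b →
        (∀ a' ∈ a :: P, ∀ b' ∈ b :: Q, ¬ X a' → ¬ X b' → A a' b' ∨ A b' a') →
        ∃ L : List V, L.IsChain A ∧ L.Nodup ∧ (∀ x ∈ L, x ∈ a :: P ∨ x ∈ b :: Q) ∧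
          (∀ x, x ∈ a :: P ∨ x ∈ b :: Q → ¬ X x → x ∈ L) ∧ L.head? = some a := by
      intro a P b Q hab hl c1 c2 n1 n2 d xb adj
      obtain ⟨t, P', rfl, h2, h3⟩ := split_clean X P
      have n3 := List.nodup_append.1 n1.of_cons
      have n4 := (List.nodup_cons.1 n1).1
      obtain ⟨L, l1, l2, l3, l4, l5⟩ := ih P' (b :: Q) (by simp at hl ⊢; omega)
        c1.of_cons.right_of_append c2 n3.2.1 n2 (fun x hx => d x (by simp [hx])) h3
        (by simpa using xb) (fun x hx => adj x (by simp [hx]))
      have aL : a ∉ L := fun h => (l3 a h).elim (fun h => n4 (by simp [h])) (d a (by simp))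
      rcases l5 with l5 | l5
      · refine ⟨a :: t ++ L, ?_, ?_, fun x hx => ?_, fun x hx h => ?_, rfl⟩
        · rw [← cons_append, isChain_append] at c1
          exact c1.1.append l1 (by rw [l5]; exact c1.2.2)
        · rw [List.nodup_append]
          refine ⟨n1.sublist (by simp), l2, fun x hx y hy e => ?_⟩
          subst e
          rcases List.mem_cons.1 hx with rfl | hx
          · exact aL hy
          · exact (l3 x hy).elim (fun h => n3.2.2 x hx x h rfl) (d x (by simp [hx]))
        · have := l3 x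
          simp only [cons_append, mem_cons, mem_append] at hx this ⊢
          tauto
        · have := l4 x
          have := h2 x
          simp only [cons_append, mem_cons, mem_append] at *
          tauto
      · refine ⟨a :: L, l1.cons (by rw [l5]; simpa using hab), List.nodup_cons.2 ⟨aL, l2⟩,
          fun x hx => ?_, fun x hx h => ?_, rfl⟩
        · have := l3 x
          simp only [mem_cons, mem_append] at hx this ⊢
          tauto
        · have := l4 x
          have := h2 x
          simp only [mem_cons, mem_append] at *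
          tauto
    intro P Q hl c1 c2 n1 n2 d x1 x2 adj
    match P, Q with
    | [], Q => exact ⟨Q, c2, n2, by simp, by simp +contextual, Or.inr rfl⟩
    | P, [] => exact ⟨P, c1, n1, by simp, by simp +contextual, Or.inl rfl⟩
    | a :: P, b :: Q =>
      rcases adj a (by simp) b (by simp) (x1 a rfl) (x2 b rfl) with h | h
      · obtain ⟨L, l1, l2, l3, l4, l5⟩ := key a P b Q h hl c1 c2 n1 n2 d (x2 b rfl) adj
        exact ⟨L, l1, l2, l3, l4, Or.inl l5⟩
      · obtain ⟨L, l1, l2, l3, l4, l5⟩ := key b Q a P h (by omega) c2 c1 n2 n1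
          (fun x hx hx' => d x hx' hx) (x1 a rfl) (fun x hx y hy h h' => (adj y hy x hx h' h).symm)
        exact ⟨L, l1, l2, fun x hx => (l3 x hx).symm, fun x hx => l4 x hx.symm, Or.inr l5⟩

theorem merge_two (X : V → Prop) (P Q : List V) (c1 : P.IsChain A) (c2 : Q.IsChain A)
    (n : (P ++ Q).Nodup) (adj : ∀ a ∈ P, ∀ b ∈ Q, ¬ X a → ¬ X b → A a b ∨ A b a) :
    ∃ L : List V, L.IsChain A ∧ L.Nodup ∧ (∀ x ∈ L, x ∈ P ∨ x ∈ Q) ∧
      (∀ x, x ∈ P ∨ x ∈ Q → ¬ X x → x ∈ L) := by
  obtain ⟨t, P, rfl, h2, h3⟩ := split_clean X P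
  obtain ⟨s, Q, rfl, h4, h5⟩ := split_clean X Q
  rw [List.nodup_append] at n
  obtain ⟨L, l1, l2, l3, l4, -⟩ := merge_clean X _ P Q le_rfl c1.right_of_append c2.right_of_append
    (n.1.sublist (by simp)) (n.2.1.sublist (by simp))
    (fun x hx h => n.2.2 x (by simp [hx]) x (by simp [h]) rfl) h3 h5
    (fun a ha b hb => adj a (by simp [ha]) b (by simp [hb]))
  refine ⟨L, l1, l2, fun x hx => ?_, fun x hx h => ?_⟩
  · have := l3 x hx
    simp only [mem_append]; tauto
  · have := l4 x
    have := h2 x
    have := h4 x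
    simp only [mem_append] at *; tauto

theorem pairs_or_path (k : ℕ) (P Q : List V) (c1 : P.IsChain A) (c2 : Q.IsChain A)
    (n : (P ++ Q).Nodup) (hk : k ≤ P.length) :
    (∃ a b : Fin k → V, Function.Injective a ∧ Function.Injective b ∧
      ∀ j, a j ∈ P ∧ b j ∈ Q ∧ ¬ A (a j) (b j) ∧ ¬ A (b j) (a j)) ∨
    ∃ L : List V, L ≠ [] ∧ L.IsChain A ∧ L.Nodup ∧ (∀ x ∈ L, x ∈ P ∨ x ∈ Q) ∧
      P.length + Q.length < L.length + k := by
  classical
  have n' := List.nodup_append.1 n
  set nb : V → Finset V := fun a => Q.toFinset.filter fun b => ¬ A a b ∧ ¬ A b a with hnb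
  set t : P.toFinset → Finset (V ⊕ ℕ) := fun a =>
    (nb a).disjSum (Finset.range (P.length - k)) with ht
  have hP := List.toFinset_card_of_nodup n'.1
  have hQ := List.toFinset_card_of_nodup n'.2.1
  by_cases hall : ∀ s : Finset P.toFinset, s.card ≤ (s.biUnion t).card
  · left
    obtain ⟨f, f1, f2⟩ := (Finset.all_card_le_biUnion_card_iff_exists_injective t).1 hall
    set Z : Finset P.toFinset := Finset.univ.filter fun a => (f a).isLeft with hZ
    have z1 : (Finset.univ.filter fun a => ¬ (f a).isLeft).card ≤ P.length - k := by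
      rw [← Finset.card_range (P.length - k), ← Finset.card_map (s := Finset.range (P.length - k))
        (⟨Sum.inr, Sum.inr_injective⟩ : ℕ ↪ V ⊕ ℕ)]
      refine Finset.card_le_card_of_injOn f (fun a ha => ?_) f1.injOn
      have h1 := f2 a
      have h2 := (Finset.mem_filter.1 ha).2
      cases e : f a with
      | inl v => simp [e] at h2
      | inr d => simpa [ht, e] using h1
    have z2 := Finset.card_filter_add_card_filter_not (s := Finset.univ)
      (fun a : P.toFinset => (f a).isLeft)
    rw [Finset.card_univ, Fintype.card_coe, hP] at z2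
    have z3 : Fintype.card (Fin k) ≤ Fintype.card Z := by
      rw [Fintype.card_fin, Fintype.card_coe, hZ]; omega
    obtain ⟨e⟩ := Function.Embedding.nonempty_of_card_le z3
    have hb : ∀ j, ∃ b, f (e j).1 = Sum.inl b := fun j =>
      Sum.isLeft_iff.1 (Finset.mem_filter.1 (e j).2).2
    choose b hb using hb
    refine ⟨fun j => (e j).1.1, b, fun i j h => e.injective (Subtype.ext (Subtype.ext h)),
      fun i j h => e.injective (Subtype.ext (f1 (by rw [hb, hb, h]))), fun j => ?_⟩
    have := f2 (e j).1
    rw [hb] at this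
    simp only [ht, hnb, Finset.inl_mem_disjSum, Finset.mem_filter, List.mem_toFinset] at this
    exact ⟨List.mem_toFinset.1 (e j).1.2, this⟩
  · right
    push Not at hall
    obtain ⟨s, hs⟩ := hall
    obtain ⟨a0, ha0⟩ : s.Nonempty := Finset.card_pos.1 (by omega)
    set N := s.biUnion fun a => nb a with hN
    have e1 : N.disjSum (Finset.range (P.length - k)) ⊆ s.biUnion t := by
      rintro (x | d) hx
      · simpa [ht, hN] using hx
      · exact Finset.mem_biUnion.2 ⟨a0, ha0, by simpa [ht] using hx⟩
    have e2 := Finset.card_le_card e1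
    rw [Finset.card_disjSum, Finset.card_range] at e2
    set s' := s.map (Function.Embedding.subtype _) with hs'
    obtain ⟨L, l1, l2, l3, l4⟩ := merge_two (fun x => (x ∈ P ∧ x ∉ s') ∨ x ∈ N) P Q c1 c2 n (by
      intro a ha b hb h1 h2
      by_contra h
      rw [not_or] at h h1 h2
      have : a ∈ s' := by by_contra h'; exact h1.1 ⟨ha, h'⟩
      obtain ⟨a', ha', rfl⟩ := Finset.mem_map.1 this
      exact h2.2 (Finset.mem_biUnion.2 ⟨a', ha', Finset.mem_filter.2 ⟨List.mem_toFinset.2 hb, h⟩⟩))
    have hNQ : N ⊆ Q.toFinset := Finset.biUnion_subset.2 fun _ _ => Finset.filter_subset _ _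
    have hsP : ∀ x ∈ s', x ∈ P := fun x hx => by
      obtain ⟨a', -, rfl⟩ := Finset.mem_map.1 hx
      exact List.mem_toFinset.1 a'.2
    have e3 : s' ∪ (Q.toFinset \ N) ⊆ L.toFinset := by
      intro x hx
      rw [List.mem_toFinset]
      rcases Finset.mem_union.1 hx with h | h
      · refine l4 x (Or.inl (hsP x h)) ?_
        rintro (h' | h')
        · exact h'.2 h
        · exact n'.2.2 x (hsP x h) x (List.mem_toFinset.1 (hNQ h')) rfl
      · rw [Finset.mem_sdiff, List.mem_toFinset] at h
        refine l4 x (Or.inr h.1) ?_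
        rintro (h' | h')
        · exact n'.2.2 x h'.1 x h.1 rfl
        · exact h.2 h'
    have e4 := Finset.card_le_card e3
    rw [Finset.card_union_of_disjoint (Finset.disjoint_left.2 fun x hx h =>
      n'.2.2 x (hsP x hx) x (List.mem_toFinset.1 (Finset.mem_sdiff.1 h).1) rfl),
      Finset.card_sdiff_of_subset hNQ, List.toFinset_card_of_nodup l2, hs', Finset.card_map,
      hQ] at e4
    have e5 := Finset.card_le_card hNQ
    refine ⟨L, ?_, l1, l2, l3, by omega⟩
    rintro rfl
    simp only [length_nil] at e4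
    omega

theorem good_two (h : cov A S 2 = S.card) : Berge A S ∧ Concave A S := by
  classical
  constructor
  · intro k Ls Ss hP hcov hopt
    by_cases h1 : Ls.length ≤ 1
    · exact berge_one k Ls Ss hP hcov hopt h1
    obtain ⟨Ms, m1, m2, m3⟩ := cov_spec A S 2
    have hLs : Pack A S Ls := hP.sublist (by simp)
    have o1 := hopt Ms m1
    have o2 := hP.cov_le
    have o3 := length_le_cov (Ls := Ss) fun L hL => (hP.1 L (by simp [hL])).1
    have o4 : k * Ms.length ≤ k * Ls.length := Nat.mul_le_mul_left _ (by omega)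
    rw [flatten_append, length_append] at o2
    obtain rfl : Ss = [] := List.length_eq_zero_iff.1 (by omega)
    rcases Nat.eq_zero_or_pos k with rfl | hk
    · exact ⟨fun _ => 0, by simp, by simp, fun _ _ j h h' => by omega, by simp⟩
    have o5 : Ls.length ≤ Ms.length := Nat.le_of_mul_le_mul_left (by omega) hk
    match Ls, h1, o5.trans m2 with
    | [P, Q], _, _ =>
      have n : (P ++ Q).Nodup := by simpa using hLs.2.1
      have n' := List.nodup_append.1 n
      have := hopt [Q] (hLs.sublist (by simp))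
      simp only [flatten_cons, flatten_nil, append_nil, length_cons, length_nil,
        length_append] at this
      rcases pairs_or_path k P Q (hLs.1 P (by simp)).2 (hLs.1 Q (by simp)).2 n (by omega) with
        ⟨a, b, ha, hb, hab⟩ | ⟨L, l0, l1, l2, l3, l4⟩
      · have uq : ∀ x i j, (a i = x ∨ b i = x) → (a j = x ∨ b j = x) → i = j := by
          rintro x i j (h | h) (h' | h')
          · exact ha (h.trans h'.symm)
          · exact absurd (h.trans h'.symm) (n'.2.2 _ (hab i).1 _ (hab j).2.1)
          · exact absurd (h'.trans h.symm) (n'.2.2 _ (hab j).1 _ (hab i).2.1)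
          · exact hb (h.trans h'.symm)
        set c : V → ℕ := fun x => if h : ∃ j, a j = x ∨ b j = x then h.choose + 1 else 0 with hc
        have c1 : ∀ x j, (a j = x ∨ b j = x) → c x = j + 1 := fun x j h => by
          have h' : ∃ j, a j = x ∨ b j = x := ⟨j, h⟩
          simp only [hc, dif_pos h']
          rw [uq x _ _ h'.choose_spec h]
        have c2 : ∀ x, c x ≠ 0 → ∃ j, a j = x ∨ b j = x := fun x h => by
          by_contra h'; exact h (by simp only [hc, dif_neg h'])
        refine ⟨c, fun x _ => ?_, fun u _ v _ huv hA e => ?_, fun L hL j j0 jk => ?_, by simp⟩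
        · by_cases h : c x = 0
          · omega
          · obtain ⟨j, hj⟩ := c2 x h
            rw [c1 x j hj]; exact j.2
        · by_contra h0
          obtain ⟨i, hi⟩ := c2 u h0
          obtain ⟨j, hj⟩ := c2 v (e ▸ h0)
          rw [c1 u i hi, c1 v j hj] at e
          obtain rfl : i = j := Fin.ext (by omega)
          rcases hi with rfl | rfl <;> rcases hj with rfl | rfl
          · exact huv rfl
          · exact (hab i).2.2.1 hA
          · exact (hab i).2.2.2 hA
          · exact huv rfl
        · simp only [mem_cons, not_mem_nil, or_false] at hL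
          rcases hL with rfl | rfl
          · exact ⟨a ⟨j - 1, by omega⟩, (hab _).1, by rw [c1 _ _ (Or.inl rfl)]; simp; omega⟩
          · exact ⟨b ⟨j - 1, by omega⟩, (hab _).2.1, by rw [c1 _ _ (Or.inr rfl)]; simp; omega⟩
      · have := hopt [L] ((Pack.nil A S).cons l0 l1 l2
          (fun x hx => hLs.2.2 x (by simpa using l3 x hx)) (by simp))
        simp only [flatten_cons, flatten_nil, append_nil, length_cons, length_nil,
          length_append] at this
        omega
    | [], h1, _ => simp at h1
    | [_], h1, _ => simp at h1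
    | _ :: _ :: _ :: _, _, h2 => simp at h2
  · intro p
    have e : ∀ q, 2 ≤ q → cov A S q = S.card := fun q hq =>
      le_antisymm (cov_le_card q) (h ▸ cov_mono hq)
    rcases p with _ | p
    · have := cov_two (A := A) (S := S)
      rw [cov_zero]; simpa using this
    · have := cov_le_card (A := A) (S := S) (p + 1)
      rw [e _ (by omega), e (p + 1 + 1) (by omega)]; omega

end Pool.Agent.Lib.MP_6d5d56_co
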