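import Pool.Agent.Lib.MP_6d5d56_co.Close
import Pool.Agent.Lib.MP_6d5d56_co.Merge
import Pool.Agent.Lib.MP_6d5d56_co.Two

/-! The three kinds of quotients, and quasi-transitive digraphs. -/

set_option autoImplicit false

namespace Pool.Agent.Lib.MP_6d5d56_co

open Relation

variable {V : Type} {A : V → V → Prop} {S : Finset V}

/-- orthogonality property together with concavity -/
def Good (A : V → V → Prop) (S : Finset V) : Prop := Berge A S ∧ Concave A S

section
variable {W : Type} [DecidableEq W] [Fintype W] {f : V → W} {Q : W → W → Prop}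

theorem good_subst (hadj : ∀ u ∈ S, ∀ v ∈ S, f u ≠ f v → (A u v ↔ Q (f u) (f v)))
    (hsurj : ∀ w, ∃ v ∈ S, f v = w)
    (hQ : ∀ S' : Finset (W × List V), (∀ w, ∃ y ∈ S', y.1 = w) → Mrg (Ext V Q) S' 1)
    (h : ∀ w, Good A (S.filter fun x => f x = w)) : Good A S :=
  ⟨berge_subst hadj hsurj hQ (fun w => (h w).2) fun w => (h w).1,
    concave_subst hadj hsurj hQ fun w => (h w).2⟩

omit [DecidableEq W] in
theorem mrg_ext_acyclic (h : ∀ w, ¬ TransGen Q w w) (S' : Finset (W × List V)) :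
    Mrg (Ext V Q) S' 1 := by
  classical
  refine mrg_of_rank (fun y => (Finset.univ.filter fun w => TransGen Q w y.1).card)
    (fun x _ y _ hxy => Finset.card_lt_card ⟨fun w hw => ?_, fun hs => ?_⟩) 1
  · simp only [Finset.mem_filter, Finset.mem_univ, true_and] at hw ⊢
    exact hw.tail hxy.2
  · have := hs (Finset.mem_filter.2 ⟨Finset.mem_univ x.1, TransGen.single hxy.2⟩)
    exact h _ (Finset.mem_filter.1 this).2

omit [DecidableEq W] [Fintype W] in
theorem mrg_ext_multi {ι : Type} (col : W → ι) (h : ∀ a b, (Q a b ∨ Q b a) ↔ col a ≠ col b)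
    (S' : Finset (W × List V)) : Mrg (Ext V Q) S' 1 := by
  refine mrg_multipartite (fun y => col y.1) (fun u v a => (h _ _).1 (Or.inl a.2))
    (fun u v e => ?_) S'
  have : u.1 ≠ v.1 := fun e' => e (by simp only [e'])
  exact ((h _ _).2 e).imp (fun a => ⟨this, a⟩) fun a => ⟨this.symm, a⟩

omit [DecidableEq W] [Fintype W] in
theorem mrg_ext_local (h1 : ∀ x a b, a ≠ b → Q a x → Q b x → Q a b ∨ Q b a)
    (h2 : ∀ x a b, a ≠ b → Q x a → Q x b → Q a b ∨ Q b a)
    (h3 : ∀ a b, ReflTransGen (fun x y => Q x y ∨ Q y x) a b)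
    (S' : Finset (W × List V)) (hS : ∀ w, ∃ y ∈ S', y.1 = w) : Mrg (Ext V Q) S' 1 := by
  refine mrg_local (m := Prod.fst) ⟨fun x h => h.1 rfl, fun x y z e h => ?_, fun x a b p q => ?_⟩
    ⟨fun x h => h.1 rfl, fun x y z e h => ?_, fun x a b p q => ?_⟩ S' fun x hx y hy => ?_
  · simpa only [Ext, e] using h
  · by_cases e : a.1 = b.1
    · exact Or.inl e
    · exact Or.inr ((h1 _ _ _ e p.2 q.2).imp (fun h => ⟨e, h⟩) fun h => ⟨Ne.symm e, h⟩)
  · simpa only [flip, Ext, e] using h
  · by_cases e : a.1 = b.1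
    · exact Or.inl e
    · exact Or.inr ((h2 _ _ _ e p.2 q.2).symm.imp (fun h => ⟨Ne.symm e, h⟩) fun h => ⟨e, h⟩)
  · have : ∀ w, ReflTransGen (fun x y => Q x y ∨ Q y x) x.1 w → ∀ y ∈ S', y.1 = w →
        ReflTransGen (fun a b => b ∈ S' ∧ (a.1 = b.1 ∨ Ext V Q a b ∨ Ext V Q b a)) x y := by
      intro w hw
      induction hw with
      | refl => exact fun y hy e => .single ⟨hy, Or.inl e.symm⟩
      | @tail b c _ hbc ih =>
        intro y hy e
        obtain ⟨z, hz, ez⟩ := hS b
        refine (ih z hz ez).tail ⟨hy, ?_⟩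
        subst e ez
        by_cases e : z.1 = y.1
        · exact Or.inl e
        · exact Or.inr (hbc.imp (fun h => ⟨e, h⟩) fun h => ⟨Ne.symm e, h⟩)
    exact this _ (h3 _ _) y hy rfl

end

theorem exists_quot {x0 : V} (h0 : x0 ∈ S) (r : V → V → Prop) (hr : Equivalence r)
    (hmod : ∀ u ∈ S, ∀ u' ∈ S, ∀ v ∈ S, ∀ v' ∈ S, r u u' → r v v' → ¬ r u v → A u v → A u' v') :
    ∃ (W : Type) (_ : Fintype W) (_ : DecidableEq W) (f : V → W) (Q : W → W → Prop),
      (∀ w, ∃ v ∈ S, f v = w) ∧ (∀ u ∈ S, ∀ v ∈ S, f u = f v ↔ r u v) ∧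
      (∀ u ∈ S, ∀ v ∈ S, f u ≠ f v → (A u v ↔ Q (f u) (f v))) ∧ ∀ w, ¬ Q w w := by
  classical
  let s : Setoid S := ⟨fun a b => r a b, fun a => hr.refl _, hr.symm, hr.trans⟩
  let f : V → Quotient s := fun v => if h : v ∈ S then ⟦⟨v, h⟩⟧ else ⟦⟨x0, h0⟩⟧
  have hf : ∀ u ∈ S, ∀ v ∈ S, f u = f v ↔ r u v := fun u hu v hv => by
    simp only [f, dif_pos hu, dif_pos hv, Quotient.eq]; rfl
  refine ⟨Quotient s, Fintype.ofFinite _, inferInstance, f,
    fun w w' => w ≠ w' ∧ ∃ u ∈ S, ∃ v ∈ S, f u = w ∧ f v = w' ∧ A u v, fun w => ?_, hf,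
    fun u hu v hv h => ⟨fun a => ⟨h, u, hu, v, hv, rfl, rfl, a⟩, ?_⟩, fun w h => h.1 rfl⟩
  · obtain ⟨⟨v, hv⟩, rfl⟩ := Quotient.exists_rep w
    exact ⟨v, hv, by simp only [f, dif_pos hv]⟩
  · rintro ⟨-, u', hu', v', hv', e1, e2, a⟩
    refine hmod u' hu' u hu v' hv' v hv ((hf _ hu' _ hu).1 e1) ((hf _ hv' _ hv).1 e2) (fun h' => ?_) a
    exact h (e1 ▸ e2 ▸ (hf _ hu' _ hv').2 h')

/-- reachability inside `T` -/
def Reach (A : V → V → Prop) (T : Finset V) : V → V → Prop :=
  ReflTransGen fun a b => a ∈ T ∧ b ∈ T ∧ A a b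

theorem Reach.mono {T T' : Finset V} (h : T ⊆ T') {x y : V} (r : Reach A T x y) : Reach A T' x y := by
  induction r with
  | refl => exact .refl
  | tail _ a ih => exact ih.tail ⟨h a.1, h a.2.1, a.2.2⟩

/-- `T` is the join of two nonempty sets -/
def Join (A : V → V → Prop) (T : Finset V) : Prop :=
  ∃ B ⊆ T, B.Nonempty ∧ (∃ b ∈ T, b ∉ B) ∧ ∀ a ∈ B, ∀ b ∈ T, b ∉ B → A a b ∨ A b a

/-- quasi-transitivity inside `S` -/
def QT (A : V → V → Prop) (S : Finset V) : Prop :=
  ∀ x ∈ S, ∀ y ∈ S, ∀ z ∈ S, x ≠ z → A x y → A y z → A x z ∨ A z x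

theorem join_out (hq : QT A S) {T : Finset V} (hT : T ⊆ S) (hs : ∀ x ∈ T, ∀ y ∈ T, Reach A T x y)
    (hj : Join A T) {y : V} (hy : y ∈ T) :
    ∃ B ⊆ T, B.Nonempty ∧ y ∉ B ∧ (∀ a ∈ B, A y a) ∧ ∀ a ∈ B, ∀ b ∈ T, b ∉ B → A a b ∨ A b a := by
  classical
  set P : Finset V → Prop := fun C => y ∈ C ∧ (∃ b ∈ T, b ∉ C) ∧
    ∀ a ∈ C, ∀ b ∈ T, b ∉ C → A a b ∨ A b a with hP
  obtain ⟨C, hC, hmin⟩ := Finset.exists_min_image (T.powerset.filter P) Finset.card (by
    obtain ⟨B, b1, ⟨a, ha⟩, b3, b4⟩ := hj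
    by_cases h : y ∈ B
    · exact ⟨B, Finset.mem_filter.2 ⟨Finset.mem_powerset.2 b1, h, b3, b4⟩⟩
    · refine ⟨T \ B, Finset.mem_filter.2 ⟨Finset.mem_powerset.2 Finset.sdiff_subset,
        Finset.mem_sdiff.2 ⟨hy, h⟩, ⟨a, b1 ha, by simp [ha]⟩, fun u hu v hv h' => ?_⟩⟩
      rw [Finset.mem_sdiff] at hu h'
      exact (b4 v (by tauto) u hu.1 hu.2).symm)
  rw [Finset.mem_filter, Finset.mem_powerset] at hC
  obtain ⟨c1, c2, ⟨b0, c3, c4⟩, c5⟩ := hC
  by_cases h : ∃ b ∈ T, b ∉ C ∧ A y b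
  · obtain ⟨b, hb⟩ := h
    refine ⟨T.filter fun b => b ∉ C ∧ A y b, Finset.filter_subset _ _,
      ⟨b, Finset.mem_filter.2 hb⟩, by simp [c2], fun a ha => (Finset.mem_filter.1 ha).2.2,
      fun a ha b hb hb' => ?_⟩
    have hab : b ≠ a := fun e => hb' (e ▸ ha)
    rw [Finset.mem_filter] at ha hb'
    by_cases hbC : b ∈ C
    · exact (c5 b hbC a ha.1 ha.2.1).symm
    · exact (hq b (hT hb) y (hT hy) a (hT ha.1) hab
        ((c5 y c2 b hb hbC).resolve_left fun h => hb' ⟨hb, hbC, h⟩) ha.2.2).symm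
  · exfalso
    push Not at h
    set C' := C.filter fun a => ∀ b ∈ T, b ∉ C → ¬ A a b with hC'
    have := hmin C' (Finset.mem_filter.2 ⟨Finset.mem_powerset.2
      ((Finset.filter_subset _ _).trans c1), Finset.mem_filter.2 ⟨c2, h⟩,
      ⟨b0, c3, fun h => c4 (Finset.mem_filter.1 h).1⟩, fun a ha b hb hb' => by
        have hab : b ≠ a := fun e => hb' (e ▸ ha)
        rw [Finset.mem_filter] at ha hb'
        by_cases hbC : b ∈ C
        · push Not at hb'
          obtain ⟨c, hc, hc', a'⟩ := hb' hbC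
          exact (hq b (hT hb) c (hT hc) a (hT (c1 ha.1)) hab a'
            ((c5 a ha.1 c hc hc').resolve_left (ha.2 c hc hc'))).symm
        · exact c5 a ha.1 b hb hbC⟩)
    have e : C' = C := Finset.eq_of_subset_of_card_le (Finset.filter_subset _ _) this
    have : ∀ z, Reach A T y z → z ∈ C := by
      intro z hz
      induction hz with
      | refl => exact c2
      | tail _ h ih =>
        by_contra h'
        rw [← e] at ih
        exact (Finset.mem_filter.1 ih).2 _ h.2.1 h' h.2.2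
    exact c4 (this b0 (hs y hy b0 c3))

theorem join_of_strong (hq : QT A S) (hs : ∀ x ∈ S, ∀ y ∈ S, Reach A S x y) (h2 : 2 ≤ S.card) :
    Join A S := by
  classical
  set P : Finset V → Prop := fun T => (∀ x ∈ T, ∀ y ∈ T, Reach A T x y) ∧
    (T.card = 1 ∨ Join A T) with hP
  obtain ⟨x0, hx0⟩ : S.Nonempty := Finset.card_pos.1 (by omega)
  obtain ⟨T, hT, hmax⟩ := Finset.exists_max_image (S.powerset.filter P) Finset.card
    ⟨{x0}, Finset.mem_filter.2 ⟨by simpa using hx0, by simp [Reach, ReflTransGen.refl], by simp⟩⟩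
  rw [Finset.mem_filter, Finset.mem_powerset] at hT
  obtain ⟨t1, t2, t3⟩ := hT
  by_cases e : T = S
  · subst e; exact t3.resolve_left (by omega)
  exfalso
  obtain ⟨x, hx⟩ : T.Nonempty := by
    rcases t3 with h | ⟨B, b1, b2, -⟩
    · exact Finset.card_pos.1 (by omega)
    · exact b2.mono b1
  have both : ∀ z ∈ S, z ∉ T → ∀ a ∈ T, ∀ y ∈ T, A a z → ¬ A z y := by
    intro z hz hzT a ha y hy a1 a2
    have hsub : T ⊆ insert z T := Finset.subset_insert _ _
    have := hmax (insert z T) (Finset.mem_filter.2 ⟨Finset.mem_powerset.2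
      (Finset.insert_subset hz t1), ?_, Or.inr ?_⟩)
    · rw [Finset.card_insert_of_notMem hzT] at this; omega
    · have r1 : ∀ u ∈ insert z T, Reach A (insert z T) u y := fun u hu => by
        rcases Finset.mem_insert.1 hu with rfl | hu
        · exact .single ⟨by simp, hsub hy, a2⟩
        · exact (t2 u hu y hy).mono hsub
      have r2 : ∀ u ∈ insert z T, Reach A (insert z T) y u := fun u hu => by
        rcases Finset.mem_insert.1 hu with rfl | hu
        · exact ((t2 y hy a ha).mono hsub).tail ⟨hsub ha, by simp, a1⟩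
        · exact (t2 y hy u hu).mono hsub
      exact fun u hu v hv => (r1 u hu).trans (r2 v hv)
    · rcases t3 with h | h
      · obtain ⟨w, rfl⟩ := Finset.card_eq_one.1 h
        rw [Finset.mem_singleton] at hy hzT
        subst hy
        refine ⟨{z}, by simp, by simp, ⟨y, by simp, by simpa using Ne.symm hzT⟩, ?_⟩
        simp only [Finset.mem_singleton, Finset.mem_insert]
        rintro _ rfl b (h | rfl) h'
        · exact absurd h h'
        · exact Or.inl a2
      · obtain ⟨B, b1, b2, b3, b4, b5⟩ := join_out hq t1 t2 h hy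
        refine ⟨B, b1.trans hsub, b2, ⟨y, hsub hy, b3⟩, fun u hu v hv h' => ?_⟩
        rcases Finset.mem_insert.1 hv with rfl | hv
        · exact (hq v hz y (t1 hy) u (t1 (b1 hu)) (fun e => h' (e ▸ hu)) a2 (b4 u hu)).symm
        · exact b5 u hu v hv h'
  have allin : ∀ z ∈ S, z ∉ T → ∀ a ∈ T, A a z → ∀ b ∈ T, A b z := by
    intro z hz hzT a ha a1 b hb
    refine ReflTransGen.head_induction_on (motive := fun b _ => A b z) (t2 b hb a ha) a1 ?_
    intro u v h _ ih
    exact (hq u (t1 h.1) v (t1 h.2.1) z hz (fun e => hzT (e ▸ h.1)) h.2.2 ih).resolve_right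
      (both z hz hzT a ha u h.1 a1)
  have allout : ∀ z ∈ S, z ∉ T → ∀ a ∈ T, A z a → ∀ b ∈ T, A z b := by
    intro z hz hzT a ha a1 b hb
    have := t2 a ha b hb
    clear hb
    induction this with
    | refl => exact a1
    | tail _ h ih =>
      exact (hq z hz _ (t1 h.1) _ (t1 h.2.1) (fun e => hzT (e ▸ h.2.1)) ih h.2.2).resolve_right
        fun h' => both z hz hzT _ h.2.1 a ha h' a1
  obtain ⟨s, hs1, hs2⟩ := Finset.exists_of_ssubset (Finset.ssubset_iff_subset_ne.2 ⟨t1, e⟩)
  obtain ⟨z, hz, hzT, hxz⟩ : ∃ z ∈ S, z ∉ T ∧ A x z := by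
    have : ∀ s, Reach A S x s → s ∈ T ∨ ∃ z ∈ S, z ∉ T ∧ A x z := by
      intro s hs
      induction hs with
      | refl => exact Or.inl hx
      | @tail b c _ h ih =>
        rcases ih with ih | ih
        · by_cases hc : c ∈ T
          · exact Or.inl hc
          · exact Or.inr ⟨c, h.2.1, hc, allin c h.2.1 hc b ih h.2.2 x hx⟩
        · exact Or.inr ih
    exact (this s (hs x (t1 hx) s hs1)).resolve_left hs2
  obtain ⟨t, ht, t', ht', u1, u2, u3, u4, u5⟩ : ∃ t ∈ S, ∃ t' ∈ S, t ∉ T ∧ t' ∉ T ∧ A x t ∧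
      A t t' ∧ A t' x := by
    have : ∀ s, Reach A S z s → (s ∉ T ∧ A x s) ∨ ∃ t ∈ S, ∃ t' ∈ S, t ∉ T ∧ t' ∉ T ∧ A x t ∧
        A t t' ∧ A t' x := by
      intro s hs
      induction hs with
      | refl => exact Or.inl ⟨hzT, hxz⟩
      | @tail b c _ h ih =>
        rcases ih with ih | ih
        · have hc : c ∉ T := fun hc => both b h.1 ih.1 x hx c hc ih.2 h.2.2
          rcases hq x (t1 hx) b h.1 c h.2.1 (fun e => hc (e ▸ hx)) ih.2 h.2.2 with h' | h'
          · exact Or.inl ⟨hc, h'⟩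
          · exact Or.inr ⟨b, h.1, c, h.2.1, ih.1, hc, ih.2, h.2.2, h'⟩
        · exact Or.inr ih
    exact (this x (hs z hz x (t1 hx))).resolve_left fun h => h.1 hx
  have ne : t ≠ t' := fun e => both t ht u1 x hx x hx u3 (e ▸ u5)
  have hsub : T ⊆ insert t (insert t' T) :=
    (Finset.subset_insert _ _).trans (Finset.subset_insert _ _)
  have := hmax (insert t (insert t' T)) (Finset.mem_filter.2 ⟨Finset.mem_powerset.2
    (Finset.insert_subset ht (Finset.insert_subset ht' t1)), ?_, Or.inr ?_⟩)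
  · rw [Finset.card_insert_of_notMem (by simp [ne, u1]), Finset.card_insert_of_notMem u2] at this
    omega
  · have q1 : Reach A (insert t (insert t' T)) t' x := .single ⟨by simp, hsub hx, u5⟩
    have q2 : Reach A (insert t (insert t' T)) x t := .single ⟨hsub hx, by simp, u3⟩
    have q3 : Reach A (insert t (insert t' T)) t t' := .single ⟨by simp, by simp, u4⟩
    have r1 : ∀ u ∈ insert t (insert t' T), Reach A (insert t (insert t' T)) u x := fun u hu => by
      simp only [Finset.mem_insert] at hu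
      rcases hu with rfl | rfl | hu
      · exact q3.trans q1
      · exact q1
      · exact (t2 u hu x hx).mono hsub
    have r2 : ∀ u ∈ insert t (insert t' T), Reach A (insert t (insert t' T)) x u := fun u hu => by
      simp only [Finset.mem_insert] at hu
      rcases hu with rfl | rfl | hu
      · exact q2
      · exact q2.trans q3
      · exact (t2 x hx u hu).mono hsub
    exact fun u hu v hv => (r1 u hu).trans (r2 v hv)
  · refine ⟨{t}, by simp, by simp, ⟨x, hsub hx, by simpa using fun e : x = t => u1 (e ▸ hx)⟩, ?_⟩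
    simp only [Finset.mem_singleton, Finset.mem_insert]
    rintro _ rfl b (h | rfl | h) h'
    · exact absurd h h'
    · exact Or.inl u4
    · exact Or.inr (allin _ ht u1 x hx u3 b h)

theorem good_quasi : ∀ (n : ℕ) (S : Finset V), S.card ≤ n → QT A S → Good A S := by
  intro n
  induction n with
  | zero => exact fun S h _ => good_two (cov_card (by omega))
  | succ n ih =>
    intro S hn hq
    classical
    by_cases h2 : S.card ≤ 2
    · exact good_two (cov_card h2)
    obtain ⟨x0, hx0⟩ : S.Nonempty := Finset.card_pos.1 (by omega)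
    have sm : ∀ {W : Type} [DecidableEq W] (f : V → W), (∃ u ∈ S, ∃ v ∈ S, f u ≠ f v) →
        ∀ w, Good A (S.filter fun x => f x = w) := by
      rintro W _ f ⟨u, hu, v, hv, h⟩ w
      refine ih _ (Nat.lt_succ_iff.1 (lt_of_lt_of_le (Finset.card_lt_card
        (Finset.filter_ssubset.2 ?_)) hn)) fun x hx y hy z hz =>
          hq x (Finset.mem_filter.1 hx).1 y (Finset.mem_filter.1 hy).1 z (Finset.mem_filter.1 hz).1
      by_cases e : f u = w
      · exact ⟨v, hv, fun e' => h (e.trans e'.symm)⟩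
      · exact ⟨u, hu, e⟩
    by_cases hs : ∀ x ∈ S, ∀ y ∈ S, Reach A S x y
    · obtain ⟨B, b1, ⟨a, ha⟩, ⟨b, hb, hb'⟩, b4⟩ := join_of_strong hq hs (by omega)
      set n : V → V → Prop := fun a b => a ∈ S ∧ b ∈ S ∧ ¬ A a b ∧ ¬ A b a with hn
      have hr : Equivalence (ReflTransGen n) := ⟨fun _ => .refl, fun h => by
        induction h with
        | refl => exact .refl
        | tail _ h ih => exact ih.head ⟨h.2.1, h.1, h.2.2.2, h.2.2.1⟩, .trans⟩
      have m1 : ∀ v ∈ S, ∀ u u', ReflTransGen n u u' → ¬ ReflTransGen n u v →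
          (A u v → A u' v) ∧ (A v u → A v u') := by
        intro v hv u u' h h'
        induction h with
        | refl => simp
        | @tail c d h1 h2 ih =>
          by_cases e : c = d
          · exact e ▸ ih
          have : A d v ∨ A v d := by
            by_contra h
            rw [not_or] at h
            exact h' ((h1.tail h2).tail ⟨h2.2.1, hv, h⟩)
          refine ⟨fun h => this.resolve_right fun h3 => ?_, fun h => this.resolve_left fun h3 => ?_⟩
          · exact (hq c h2.1 v hv d h2.2.1 e (ih.1 h) h3).elim h2.2.2.1 h2.2.2.2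
          · exact (hq d h2.2.1 v hv c h2.1 (Ne.symm e) h3 (ih.2 h)).elim h2.2.2.2 h2.2.2.1
      obtain ⟨W, _, _, f, Q, f1, f2, f3, f4⟩ := exists_quot (A := A) hx0 _ hr
        fun u hu u' hu' v hv v' hv' p q h a => (m1 u' hu' v v' q
          fun h' => h (p.trans (hr.symm h'))).2 ((m1 v hv u u' p h).1 a)
      refine good_subst f3 f1 (fun S' _ => mrg_ext_multi id (fun w w' => ⟨?_, fun h => ?_⟩) S')
        (sm f ⟨a, b1 ha, b, hb, fun e => hb' ?_⟩)
      · rintro (h | h) (rfl : w = w') <;> exact f4 _ h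
      · obtain ⟨u, hu, rfl⟩ := f1 w
        obtain ⟨v, hv, rfl⟩ := f1 w'
        rw [← f3 u hu v hv h, ← f3 v hv u hu (Ne.symm h)]
        by_contra h'
        rw [not_or] at h'
        exact h ((f2 u hu v hv).2 (.single ⟨hu, hv, h'⟩))
      · have := (f2 a (b1 ha) b hb).1 e
        clear hb hb' e
        induction this with
        | refl => exact ha
        | tail _ h ih =>
          by_contra h'
          exact (b4 _ ih _ h.2.1 h').elim h.2.2.1 h.2.2.2
    · push Not at hs
      obtain ⟨a, ha, b, hb, hab⟩ := hs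
      have hr : Equivalence fun x y => Reach A S x y ∧ Reach A S y x :=
        ⟨fun _ => ⟨.refl, .refl⟩, fun h => h.symm, fun h h' => ⟨h.1.trans h'.1, h'.2.trans h.2⟩⟩
      obtain ⟨W, _, _, f, Q, f1, f2, f3, f4⟩ := exists_quot (A := A) hx0 _ hr (by
        intro u hu u' hu' v hv v' hv' p q h a
        have nb : ¬ Reach A S v u := fun h' => h ⟨.single ⟨hu, hv, a⟩, h'⟩
        have m1 : ∀ c, Reach A S v c → A u c := by
          intro c hc
          induction hc with
          | refl => exact a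
          | tail h1 h2 ih =>
            exact (hq u hu _ h2.1 _ h2.2.1 (fun e => nb (e ▸ h1.tail h2)) ih h2.2.2).resolve_right
              fun h3 => nb ((h1.tail h2).tail ⟨h2.2.1, hu, h3⟩)
        refine ReflTransGen.head_induction_on (motive := fun c _ => A c v') p.2 (m1 v' q.1) ?_
        intro c d h1 h2 ih
        have : Reach A S c u := .head h1 h2
        exact (hq c h1.1 d h1.2.1 v' hv' (fun e => nb (q.1.trans (e ▸ this))) h1.2.2
          ih).resolve_right fun h3 => nb ((q.1.tail ⟨hv', h1.1, h3⟩).trans this))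
      refine good_subst f3 f1 (fun S' _ => mrg_ext_acyclic (fun w h => ?_) S')
        (sm f ⟨a, ha, b, hb, fun e => hab ((f2 a ha b hb).1 e).1⟩)
      have st : ∀ u ∈ S, ∀ v ∈ S, Q (f u) (f v) → Reach A S u v := fun u hu v hv h =>
        .single ⟨hu, hv, (f3 u hu v hv fun e => f4 _ (e ▸ h)).2 h⟩
      have rt : ∀ u ∈ S, ∀ w, ReflTransGen Q (f u) w → ∀ v ∈ S, f v = w → Reach A S u v := by
        intro u hu w h
        induction h with
        | refl => exact fun v hv e => ((f2 v hv u hu).1 e).2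
        | @tail c d _ h2 ih =>
          rintro v hv rfl
          obtain ⟨z, hz, rfl⟩ := f1 c
          exact (ih z hz rfl).trans (st z hz v hv h2)
      obtain ⟨w', h1, h2⟩ := TransGen.head'_iff.1 h
      obtain ⟨u, hu, rfl⟩ := f1 w
      obtain ⟨v, hv, rfl⟩ := f1 w'
      exact f4 _ ((f2 u hu v hv).2 ⟨st u hu v hv h1, rt v hv _ h2 u hu rfl⟩ ▸ h1)

end Pool.Agent.Lib.MP_6d5d56_co
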