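import Pool.Agent.Lib.MP_6d5d56_co.Cut
import Pool.Agent.Lib.MP_6d5d56_co.One

/-! The substitution step. -/

set_option autoImplicit false

namespace Pool.Agent.Lib.MP_6d5d56_co

open List

theorem weight_bound {α : Type} [DecidableEq α] (J J0 : Finset α) (v r : α) (ω : α → ℤ)
    (g : ℕ → ℤ) (N : ℤ) (mono : ∀ a b, a ≤ b → g a ≤ g b) (h0 : ∀ a, 0 ≤ g a) (hN : ∀ a, g a ≤ N)
    (hJ : ∀ y ∈ J, y = v ∨ y ∈ J0) (w1 : ω v = g (J0.card + 1) - g J0.card)
    (w2 : r ∈ J0 → ω r = g J0.card - g (J0.card - 1)) (w3 : ∀ y ∈ J0, y ≠ r → ω y = N)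
    (hc : 0 < J0.card → g (J0.card + 1) - g J0.card ≤ g J0.card - g (J0.card - 1)) :
    ∑ y ∈ J, ω y - ∑ y ∈ J0, ω y ≤ g J.card - g J0.card := by
  rw [← Finset.sum_sdiff_sub_sum_sdiff]
  have c1 := Finset.card_sdiff_add_card_inter J J0
  have c2 := Finset.card_sdiff_add_card_inter J0 J
  rw [Finset.inter_comm] at c2
  have s1 : J \ J0 ⊆ {v} := fun y hy => by
    rw [Finset.mem_sdiff] at hy
    exact Finset.mem_singleton.2 ((hJ y hy.1).resolve_right hy.2)
  have m1 := mono J0.card (J0.card + 1) (by omega)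
  have m2 := mono (J0.card - 1) J0.card (by omega)
  by_cases h : J0 \ J ⊆ {r}
  · rcases Finset.subset_singleton_iff.1 s1 with e1 | e1 <;>
      rcases Finset.subset_singleton_iff.1 h with e2 | e2 <;> rw [e1] at c1 ⊢ <;>
      rw [e2] at c2 ⊢ <;> simp only [Finset.card_empty, Finset.card_singleton, Finset.sum_empty,
        Finset.sum_singleton] at c1 c2 ⊢
    · rw [show J.card = J0.card by omega]; omega
    · have : r ∈ J0 := (Finset.mem_sdiff.1 (e2 ▸ Finset.mem_singleton_self r)).1
      rw [show J.card = J0.card - 1 by omega, w2 this]; omega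
    · rw [show J.card = J0.card + 1 by omega, w1]; omega
    · have : r ∈ J0 := (Finset.mem_sdiff.1 (e2 ▸ Finset.mem_singleton_self r)).1
      have := hc (by omega)
      rw [show J.card = J0.card by omega, w1, w2 ‹_›]; omega
  · obtain ⟨y, hy, hr⟩ := Finset.not_subset.1 h
    have a1 : ω y ≤ ∑ y ∈ J0 \ J, ω y := by
      refine Finset.single_le_sum (fun z hz => ?_) hy
      have hz' := (Finset.mem_sdiff.1 hz).1
      by_cases e : z = r
      · rw [e, w2 (e ▸ hz')]; omega
      · rw [w3 z hz' e]; exact (h0 0).trans (hN 0)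
    rw [w3 y (Finset.mem_sdiff.1 hy).1 (by simpa using hr)] at a1
    have := hN (J0.card + 1)
    have := h0 J.card
    rcases Finset.subset_singleton_iff.1 s1 with e1 | e1 <;> rw [e1] <;>
      simp only [Finset.sum_empty, Finset.sum_singleton] <;> omega

theorem tele_le {α : Type} (i o : α → ℤ) (κ : ℤ) : ∀ (t : List α) (a : α),
    (a :: t).IsChain (fun x y => o x ≤ i y) → (∀ x ∈ (a :: t).getLast?, o x ≤ κ) →
      ((a :: t).map fun x => o x - i x).sum ≤ κ - i a
  | [], a, _, h => by simpa using h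
  | b :: t, a, h1, h2 => by
    rw [isChain_cons_cons] at h1
    have := tele_le i o κ t b h1.2 (by rwa [List.getLast?_cons_cons] at h2)
    rw [map_cons, sum_cons]
    omega

theorem tele_eq {α : Type} (i o : α → ℤ) (κ : ℤ) : ∀ (t : List α) (a : α),
    (a :: t).IsChain (fun x y => o x = i y) → (∀ x ∈ (a :: t).getLast?, o x = κ) →
      ((a :: t).map fun x => o x - i x).sum = κ - i a ∧
      ∀ c, i a < c → c ≤ κ → ∃ x ∈ a :: t, i x < c ∧ c ≤ o x
  | [], a, _, h => by
    have := h a rfl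
    exact ⟨by simp [this], fun c h1 h2 => ⟨a, by simp, h1, this ▸ h2⟩⟩
  | b :: t, a, h1, h2 => by
    rw [isChain_cons_cons] at h1
    have := tele_eq i o κ t b h1.2 (by rwa [List.getLast?_cons_cons] at h2)
    rw [map_cons, sum_cons]
    refine ⟨by omega, fun c c1 c2 => ?_⟩
    by_cases h : c ≤ o a
    · exact ⟨a, by simp, c1, h⟩
    · obtain ⟨x, hx, h⟩ := this.2 c (by omega) c2
      exact ⟨x, List.mem_cons_of_mem _ hx, h⟩

theorem pairwise_levels {α : Type} (i o : α → ℤ) : ∀ (l : List α),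
    l.IsChain (fun x y => o x ≤ i y) → (∀ x ∈ l, i x ≤ o x) → l.Pairwise fun x y => o x ≤ i y
  | [], _, _ => .nil
  | [a], _, _ => by simp
  | a :: b :: t, h1, h2 => by
    rw [isChain_cons_cons] at h1
    have := pairwise_levels i o (b :: t) h1.2 fun x hx => h2 x (List.mem_cons_of_mem _ hx)
    refine List.pairwise_cons.2 ⟨fun z hz => ?_, this⟩
    rcases List.mem_cons.1 hz with rfl | hz
    · exact h1.1
    · have := (List.pairwise_cons.1 this).1 z hz
      have := h2 b (by simp)
      omega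

variable {V W : Type} [DecidableEq W] [Fintype W]
variable {A : V → V → Prop} {S : Finset V} {f : V → W} {Q : W → W → Prop}

theorem module_levels (hadj : ∀ u ∈ S, ∀ v ∈ S, f u ≠ f v → (A u v ↔ Q (f u) (f v)))
    (hsurj : ∀ w, ∃ v ∈ S, f v = w)
    (hQ : ∀ S' : Finset (W × List V), (∀ w, ∃ y ∈ S', y.1 = w) → Mrg (Ext V Q) S' 1)
    (hcc : ∀ w, Concave A (S.filter fun x => f x = w))
    {Ls : List (List V)} (hL : Pack A S Ls) (h2 : 2 ≤ Ls.length) (km kp : ℤ) (hk : km ≤ kp)
    (o0 : cov A S Ls.length ≤ Ls.flatten.length)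
    (op : (cov A S (Ls.length + 1) : ℤ) ≤ Ls.flatten.length + kp)
    (om : (cov A S (Ls.length - 1) : ℤ) + km ≤ Ls.flatten.length) :
    ∃ (lo hi : W → ℤ) (κ : ℤ), km ≤ κ ∧ κ ≤ kp ∧ (∀ w, 0 ≤ lo w ∧ hi w ≤ κ) ∧
      (∀ w w', w ≠ w' → Q w w' → hi w ≤ lo w') ∧
      (∀ w Ms, Pack A (S.filter fun x => f x = w) Ms → (Ms.flatten.length : ℤ) -
        (modp f Ls w).flatten.length ≤ (hi w - lo w) * (Ms.length - (modp f Ls w).length)) ∧
      ∀ L ∈ Ls, (cut f L).IsChain (fun y y' => hi y.1 = lo y'.1) ∧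
        (∀ y ∈ (cut f L).head?, lo y.1 = 0) ∧ ∀ y ∈ (cut f L).getLast?, hi y.1 = κ := by
  classical
  set M : W → Finset V := fun w => S.filter fun x => f x = w with hM
  set g : W → ℕ → ℤ := fun w q => cov A (M w) q with hg
  set J0 : W → Finset (W × List V) := fun w => ((segs f Ls).filter fun y => y.1 = w).toFinset
    with hJ0
  have hsn := segs_nodup hL f
  have j1 : ∀ w, (J0 w).card = (modp f Ls w).length := fun w => by
    rw [List.toFinset_card_of_nodup (hsn.filter _), modp, length_map]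
  have j2 : ∀ w y, y ∈ J0 w ↔ y ∈ segs f Ls ∧ y.1 = w := fun w y => by simp [hJ0]
  have j3 : ∀ w, (J0 w).card ≤ (M w).card := fun w => by
    have := (hL.modp f w).cov_le
    have := length_le_cov fun L h => ((hL.modp f w).1 L h).1
    rw [j1]; simp only [hM]; omega
  have j4 : ∀ w, ∃ r : W × List V, r.1 = w ∧ (r ∈ J0 w ∨ (r = (w, []) ∧ (J0 w).card = 0)) := by
    intro w
    rcases (J0 w).eq_empty_or_nonempty with h | ⟨r, hr⟩
    · exact ⟨(w, []), rfl, Or.inr ⟨rfl, by rw [h]; rfl⟩⟩
    · exact ⟨r, ((j2 w r).1 hr).2, Or.inl hr⟩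
  choose rep r1 r2 using j4
  have hMpos : ∀ w, 0 < (M w).card := fun w => by
    obtain ⟨v, hv, e⟩ := hsurj w
    exact Finset.card_pos.2 ⟨v, Finset.mem_filter.2 ⟨hv, e⟩⟩
  set S' : Finset (W × List V) := (segs f Ls).toFinset ∪
    (Finset.univ.filter fun w => (J0 w).card < (M w).card).image fun w => (w, []) with hS'
  have s1 : ∀ y, y ∈ S' ↔ y ∈ segs f Ls ∨ (y.2 = [] ∧ (J0 y.1).card < (M y.1).card) := by
    rintro ⟨w, z⟩
    simp only [hS', Finset.mem_union, List.mem_toFinset, Finset.mem_image, Finset.mem_filter,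
      Finset.mem_univ, true_and, Prod.mk.injEq]
    constructor
    · rintro (h | ⟨a, h, rfl, rfl⟩)
      · exact Or.inl h
      · exact Or.inr ⟨rfl, h⟩
    · rintro (h | ⟨rfl, h⟩)
      · exact Or.inl h
      · exact Or.inr ⟨w, h, rfl, rfl⟩
  have s2 : ∀ w, rep w ∈ S' := fun w => by
    rw [s1]
    rcases r2 w with h | h
    · exact Or.inl ((j2 _ _).1 h).1
    · rw [h.1]; exact Or.inr ⟨rfl, by rw [h.2]; exact hMpos w⟩
  set ω : W × List V → ℤ := fun y => if y.2 = [] then g y.1 ((J0 y.1).card + 1) - g y.1 (J0 y.1).card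
    else if y = rep y.1 then g y.1 (J0 y.1).card - g y.1 ((J0 y.1).card - 1) else S.card with hω
  have gm : ∀ w a b, a ≤ b → g w a ≤ g w b := fun w a b h => Int.ofNat_le.2 (cov_mono h)
  have hYs : Pack (Ext V Q) S' (Ls.map (cut f)) := hL.cut hadj fun y hy => (s1 y).2 (Or.inl hy)
  have hsum : ∑ w, g w (J0 w).card ≤ Ls.flatten.length ∧
      ∀ w, g w (J0 w).card = (modp f Ls w).flatten.length := by
    obtain ⟨Ms, m1, m2, m3⟩ := expand hadj hYs (fun w => by
      have := j3 w; rw [j1, modp, length_map] at this; exact this)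
    have a1 := le_cov m1 (p := Ls.length) (by rw [m2, length_map])
    have a2 : (Ms.flatten.length : ℤ) = ∑ w, g w (J0 w).card := by
      rw [m3, Nat.cast_sum]
      refine Finset.sum_congr rfl fun w _ => ?_
      rw [j1, modp, length_map]; rfl
    have a3 : ∀ w, ((modp f Ls w).flatten.length : ℤ) ≤ g w (J0 w).card := fun w =>
      Int.ofNat_le.2 (le_cov (hL.modp f w) (j1 w).ge)
    have a4 := sum_modp f Ls
    have a5 : ∑ w, g w (J0 w).card ≤ Ls.flatten.length := by omega
    refine ⟨a5, fun w => ((Finset.sum_eq_sum_iff_of_le (s := Finset.univ) fun w _ => a3 w).1 ?_ w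
      (Finset.mem_univ w)).symm⟩
    refine le_antisymm (Finset.sum_le_sum fun w _ => a3 w) ?_
    rw [a4, Nat.cast_sum] at a5; exact a5
  have hnv : ∀ w, ((w, []) : W × List V) ∉ segs f Ls := fun w h => (segs_mem h).1 rfl
  have key : ∀ Ys, Pack (Ext V Q) S' Ys → wt ω Ys - wt ω (Ls.map (cut f)) ≤
      cov A S Ys.length - Ls.flatten.length := by
    intro Ys hY
    set J : W → Finset (W × List V) := fun w => (Ys.flatten.filter fun y => y.1 = w).toFinset
      with hJ
    have k1 : ∀ w, (J w).card = (Ys.flatten.filter fun y => y.1 = w).length := fun w =>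
      List.toFinset_card_of_nodup (hY.2.1.filter _)
    have k2 : ∀ w, ∀ y ∈ J w, (y = (w, []) ∧ (J0 w).card < (M w).card) ∨ y ∈ J0 w := by
      intro w y hy
      simp only [hJ, List.mem_toFinset, List.mem_filter, decide_eq_true_eq] at hy
      rcases (s1 y).1 (hY.2.2 y hy.1) with h | h
      · exact Or.inr ((j2 _ _).2 ⟨h, hy.2⟩)
      · exact Or.inl ⟨Prod.ext hy.2 h.1, hy.2 ▸ h.2⟩
    obtain ⟨Ms, m1, m2, m3⟩ := expand hadj hY (fun w => by
      rw [← k1]
      by_cases h : (J0 w).card < (M w).card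
      · have : (J w).card ≤ (insert (w, []) (J0 w)).card := Finset.card_le_card fun y hy => by
          rcases k2 w y hy with h | h
          · simp [h.1]
          · simp [h]
        have := Finset.card_insert_le (w, []) (J0 w)
        simp only [hM] at h; omega
      · exact (Finset.card_le_card fun y hy => (k2 w y hy).resolve_left fun h' => h h'.2).trans
          (j3 w))
    have a1 := le_cov m1 (p := Ys.length) m2.le
    have a2 : (Ms.flatten.length : ℤ) = ∑ w, g w (J w).card := by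
      rw [m3, Nat.cast_sum]
      exact Finset.sum_congr rfl fun w _ => by rw [k1]
    have a3 : wt ω Ys = ∑ w, ∑ y ∈ J w, ω y := by
      rw [wt, sum_fiber Prod.fst]
      exact Finset.sum_congr rfl fun w _ => (List.sum_toFinset _ (hY.2.1.filter _)).symm
    have a4 : wt ω (Ls.map (cut f)) = ∑ w, ∑ y ∈ J0 w, ω y := by
      rw [wt, sum_fiber Prod.fst]
      exact Finset.sum_congr rfl fun w _ => (List.sum_toFinset _ (hsn.filter _)).symm
    have a5 : (Ls.flatten.length : ℤ) = ∑ w, g w (J0 w).card := by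
      rw [sum_modp f Ls, Nat.cast_sum]
      exact Finset.sum_congr rfl fun w _ => (hsum.2 w).symm
    have a6 : ∑ w, (∑ y ∈ J w, ω y - ∑ y ∈ J0 w, ω y) ≤
        ∑ w, (g w (J w).card - g w (J0 w).card) := by
      refine Finset.sum_le_sum fun w _ => weight_bound _ _ (w, []) (rep w) ω (g w) S.card (gm w)
        (fun a => Int.natCast_nonneg _) (fun a => Int.ofNat_le.2 ((cov_le_card a).trans
          (Finset.card_filter_le _ _)))
        (fun y hy => (k2 w y hy).imp_left And.left) (by simp [hω]) (fun h => ?_)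
        (fun y hy h => ?_) (fun h => ?_)
      · simp only [hω, if_neg (segs_mem ((j2 _ _).1 h).1).1, r1, if_true]
      · have := (j2 _ _).1 hy
        simp only [hω, if_neg (segs_mem this.1).1, this.2, if_neg h]
      · have := hcc w ((J0 w).card - 1)
        rw [show (J0 w).card - 1 + 2 = (J0 w).card + 1 by omega,
          show (J0 w).card - 1 + 1 = (J0 w).card by omega] at this
        simp only [hg, hM]; omega
    rw [Finset.sum_sub_distrib, Finset.sum_sub_distrib] at a6
    omega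
  obtain ⟨i, o, κ, k1, k2, l1, l2, l3, l4⟩ := lp (Ext V Q) S' ω (fun y _ => by
      simp only [hω]
      split_ifs
      · exact sub_nonneg.2 (gm _ _ _ (by omega))
      · exact sub_nonneg.2 (gm _ _ _ (by omega))
      · exact Int.natCast_nonneg _) (Ls.map (cut f)) hYs km kp hk
    (fun Ys Ks h => hQ S' (fun w => ⟨rep w, s2 w, r1 w⟩) Ys Ks (by rw [length_map] at h; omega))
    (fun Ys h e => by have := key Ys h; rw [e, length_map] at this; omega)
    (fun Ys h e => by have := key Ys h; rw [e, length_map] at this; omega)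
    (fun Ys h e => by
      have := key Ys h
      rw [show Ys.length = Ls.length - 1 by rw [length_map] at e; omega] at this; omega)
  have l5 : ∀ x ∈ S', ∀ y ∈ S', Ext V Q x y → o x ≤ i y := fun x hx y hy h =>
    l2 x hx y hy (fun e => h.1 (by rw [e])) h
  have tw : ∀ x ∈ segs f Ls, ∀ y ∈ S', y.1 = x.1 → i x ≤ i y ∧ o y ≤ o x := by
    intro x hx y hy e
    obtain ⟨L, hL', hxL⟩ := mem_segs.1 hx
    have hY := List.mem_map_of_mem (f := cut f) hL'
    have a := l4 _ hY
    have hc := isChain_and (hYs.1 _ hY).2 a.1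
    have hs : ∀ z ∈ cut f L, z ∈ S' := fun z hz => (s1 z).2 (Or.inl (mem_segs.2 ⟨L, hL', hz⟩))
    constructor
    · rcases prev_or_head hc x hxL with ⟨z, hz, h1, h2⟩ | h
      · rw [← h2]; exact l5 z (hs z hz) y hy (by simpa only [Ext, e] using h1)
      · rw [a.2.1 x h]; exact (l1 y hy).1
    · rcases next_or_last hc x hxL with ⟨z, hz, h1, h2⟩ | h
      · rw [h2]; exact l5 y hy z (hs z hz) (by simpa only [Ext, e] using h1)
      · rw [a.2.2 x h]; exact (l1 y hy).2.1
  have tw2 : ∀ x ∈ segs f Ls, i (rep x.1) = i x ∧ o (rep x.1) = o x := by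
    intro x hx
    have h1 : rep x.1 ∈ segs f Ls := by
      rcases r2 x.1 with h | h
      · exact ((j2 _ _).1 h).1
      · exact absurd (Finset.card_pos.2 ⟨x, (j2 _ _).2 ⟨hx, rfl⟩⟩) (by omega)
    have := tw x hx _ (s2 x.1) (r1 _)
    have := tw _ h1 x ((s1 x).2 (Or.inl hx)) (r1 _).symm
    omega
  refine ⟨fun w => i (rep w), fun w => o (rep w), κ, k1, k2,
    fun w => ⟨(l1 _ (s2 w)).1, (l1 _ (s2 w)).2.1⟩,
    fun w w' h h' => l5 _ (s2 w) _ (s2 w') (by simpa only [Ext, r1] using ⟨h, h'⟩),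
    fun w Ms hMs => ?_, fun L hL' => ?_⟩
  · have b1 : (Ms.flatten.length : ℤ) ≤ g w Ms.length := Int.ofNat_le.2 (le_cov hMs le_rfl)
    have b2 := hMs.cov_le
    have b3 := length_le_cov fun L h => (hMs.1 L h).1
    have := (hcc w).slope (j := (J0 w).card) (q := Ms.length) (k := o (rep w) - i (rep w))
      (fun h => ?_) (fun h => ?_)
    · rw [← hsum.2, ← j1]
      simp only [hg, hM] at b1 ⊢
      omega
    · have hv : ((w, []) : W × List V) ∈ S' := (s1 _).2 (Or.inr ⟨rfl, by simp only [hM]; omega⟩)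
      have c1 := l3 _ hv (hnv w)
      simp only [hω, if_true, hg, hM] at c1
      rcases r2 w with h | h
      · have := tw _ ((j2 _ _).1 h).1 _ hv (r1 w).symm
        omega
      · rw [h.1]; omega
    · have c1 := (l1 _ (s2 w)).2.2
      have c2 : rep w ∈ J0 w := (r2 w).resolve_right fun h' => by omega
      simp only [hω, if_neg (segs_mem ((j2 _ _).1 c2).1).1, r1, if_true, hg, hM] at c1
      omega
  · have a := l4 _ (List.mem_map_of_mem (f := cut f) hL')
    have b : ∀ y ∈ cut f L, i (rep y.1) = i y ∧ o (rep y.1) = o y := fun y hy =>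
      tw2 y (mem_segs.2 ⟨L, hL', hy⟩)
    refine ⟨a.1.imp_of_mem_imp fun x y hx hy h => ?_, fun y hy => ?_, fun y hy => ?_⟩
    · simp only [(b x hx).2, (b y hy).1, h]
    · simp only [(b y (List.mem_of_mem_head? hy)).1, a.2.1 y hy]
    · simp only [(b y (List.mem_of_mem_getLast? hy)).2, a.2.2 y hy]

end Pool.Agent.Lib.MP_6d5d56_co
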