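import Pool.Agent.Lib.MP_6d5d56_co.T2Blue

/-! Orthogonal colourings when every path is long. -/

set_option autoImplicit false

namespace Pool.Agent.Lib.MP_6d5d56_co.T2

open List

namespace ALL

variable {V : Type} {A : V → V → Prop}

/-- all vertices -/
def fl (Ls : List (V × List V)) : List V := (Ls.map fun x => x.1 :: x.2).flatten

/-- first vertices -/
def hd (Ls : List (V × List V)) : List V := Ls.map Prod.fst

lemma fl_cons (x : V × List V) (Ls : List (V × List V)) : fl (x :: Ls) = x.1 :: (x.2 ++ fl Ls) := by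
  simp [fl]

lemma fl_perm {Ls Ms : List (V × List V)} (h : Ls ~ Ms) : fl Ls ~ fl Ms := (h.map _).flatten

lemma hd_perm {Ls Ms : List (V × List V)} (h : Ls ~ Ms) : hd Ls ~ hd Ms := h.map _

lemma mem_fl {Ls : List (V × List V)} {x : V × List V} (h : x ∈ Ls) {v : V}
    (k : v ∈ x.1 :: x.2) : v ∈ fl Ls := mem_flatten.2 ⟨_, mem_map_of_mem h, k⟩

lemma fl_pre (g : V × List V → V) : ∀ Ms : List (V × List V),
    fl (Ms.map fun m => (g m, m.1 :: m.2)) ~ Ms.map g ++ fl Ms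
  | [] => by simp [fl]
  | m :: Ms => by
    rw [map_cons, fl_cons, fl_cons, map_cons, cons_append]
    refine Perm.cons _ ?_
    refine ((fl_pre g Ms).append_left (m.1 :: m.2)).trans ?_
    show m.1 :: m.2 ++ (map g Ms ++ fl Ms) ~ map g Ms ++ (m.1 :: m.2 ++ fl Ms)
    rw [← append_assoc, ← append_assoc]
    exact perm_append_comm.append_right _

/-- paths -/
def Pk (A : V → V → Prop) (Ls : List (V × List V)) : Prop :=
  (∀ x ∈ Ls, IsChain A (x.1 :: x.2)) ∧ (fl Ls).Nodup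

lemma Pk.perm {Ls Ms : List (V × List V)} (h : Pk A Ls) (p : Ls ~ Ms) : Pk A Ms :=
  ⟨fun x k => h.1 x (p.mem_iff.2 k), (fl_perm p).nodup_iff.1 h.2⟩

/-- the colouring alternative -/
def Cl (A : V → V → Prop) (k : ℕ) (Ls : List (V × List V)) : Prop :=
  ∃ c : V → ℕ, (∀ x, c x ≤ k) ∧ (∀ u ∈ fl Ls, ∀ v ∈ fl Ls, u ≠ v → A u v → c u = c v → c u = 0) ∧
    ∀ x ∈ Ls, ∀ j, 0 < j → j ≤ k → ∃ y ∈ x.1 :: x.2, c y = j

/-- the alternative with fewer paths -/
def Fw (A : V → V → Prop) (k : ℕ) (Ls : List (V × List V)) : Prop :=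
  ∃ Ms z, Pk A Ms ∧ (∀ v ∈ fl Ms, v ∈ fl Ls) ∧ z :: hd Ms ~ hd Ls ∧
    (fl Ls).length + 1 ≤ (fl Ms).length + k

lemma alt_perm {k : ℕ} {Ls Ms : List (V × List V)} (p : Ls ~ Ms) (h : Cl A k Ms ∨ Fw A k Ms) :
    Cl A k Ls ∨ Fw A k Ls := by
  have q := fl_perm p
  rcases h with ⟨c, h1, h2, h3⟩ | ⟨Ns, z, h1, h2, h3, h4⟩
  · exact Or.inl ⟨c, h1, fun u a v b => h2 u (q.mem_iff.1 a) v (q.mem_iff.1 b),
      fun x a => h3 x (p.mem_iff.1 a)⟩
  · exact Or.inr ⟨Ns, z, h1, fun v a => q.mem_iff.2 (h2 v a), h3.trans (hd_perm p).symm,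
      q.length_eq ▸ h4⟩

lemma prepend {Ms : List (V × List V)} (h : Pk A Ms) {a s : V} (h1 : s ∈ hd Ms) (h2 : A a s)
    (h3 : a ∉ fl Ms) : ∃ Ns R, Pk A Ns ∧ fl Ns ~ a :: fl Ms ∧ hd Ms ~ s :: R ∧ hd Ns = a :: R := by
  classical
  obtain ⟨⟨s, w⟩, k, rfl⟩ := mem_map.1 h1
  have p := perm_cons_erase k
  have h' := h.perm p
  have q : fl ((a, s :: w) :: Ms.erase (s, w)) ~ a :: fl Ms := by
    rw [fl_cons]
    exact Perm.cons _ (by simpa [fl_cons] using (fl_perm p).symm)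
  refine ⟨_, hd (Ms.erase (s, w)), ⟨fun x e => ?_, q.nodup_iff.2 (nodup_cons.2 ⟨h3, h.2⟩)⟩, q,
    hd_perm p, rfl⟩
  rcases mem_cons.1 e with rfl | e
  · exact isChain_cons_cons.2 ⟨h2, h.1 _ k⟩
  · exact h.1 _ (mem_of_mem_erase e)

lemma arc {k : ℕ} (hk : 0 < k) {a b : V} {s t : List V} {R : List (V × List V)}
    (h : Pk A ((a, s) :: (b, t) :: R)) (e : A a b)
    (ih : ∀ Ns, (fl Ns).length < (fl ((a, s) :: (b, t) :: R)).length → Pk A Ns →
      Cl A k Ns ∨ Fw A k Ns) :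
    Cl A k ((a, s) :: (b, t) :: R) ∨ Fw A k ((a, s) :: (b, t) :: R) := by
  classical
  cases s with
  | nil =>
    refine Or.inr ⟨(a, b :: t) :: R, b, ⟨fun x l => ?_, by simpa [fl_cons] using h.2⟩,
      by simp [fl_cons], Perm.swap _ _ _, by simp [fl_cons]; omega⟩
    rcases mem_cons.1 l with rfl | l
    · exact isChain_cons_cons.2 ⟨e, h.1 (b, t) (by simp)⟩
    · exact h.1 x (by simp [l])
  | cons s w =>
    have e0 : fl ((a, s :: w) :: (b, t) :: R) = a :: fl ((s, w) :: (b, t) :: R) := by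
      simp [fl_cons]
    have hn := nodup_cons.1 (e0 ▸ h.2)
    have c0 := isChain_cons_cons.1 (h.1 (a, s :: w) (by simp))
    have h' : Pk A ((s, w) :: (b, t) :: R) := ⟨fun x l => by
      rcases mem_cons.1 l with rfl | l
      exacts [c0.2, h.1 x (mem_cons_of_mem _ l)], hn.2⟩
    rcases ih _ (by rw [e0]; simp) h' with ⟨c, h1, h2, h3⟩ | ⟨Ms, z, h1, h2, h3, h4⟩
    · have ne : ∀ v ∈ fl ((s, w) :: (b, t) :: R), Function.update c a 0 v = c v :=
        fun v l => Function.update_of_ne (fun q : v = a => hn.1 (q ▸ l)) _ _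
      refine Or.inl ⟨Function.update c a 0, fun x => ?_, fun u l v l' n q r => ?_,
        fun x l j j1 j2 => ?_⟩
      · by_cases q : x = a
        · simp [q]
        · simpa [q] using h1 x
      · rw [e0] at l l'
        rcases mem_cons.1 l with rfl | l
        · simp
        rcases mem_cons.1 l' with rfl | l'
        · simpa using r
        rw [ne u l, ne v l'] at r
        rw [ne u l]
        exact h2 u l v l' n q r
      · rcases mem_cons.1 l with rfl | l
        · obtain ⟨y, y1, y2⟩ := h3 (s, w) (by simp) j j1 j2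
          exact ⟨y, mem_cons_of_mem _ y1, (ne y (mem_fl (x := (s, w)) (by simp) y1)).trans y2⟩
        · obtain ⟨y, y1, y2⟩ := h3 x (mem_cons_of_mem _ l) j j1 j2
          exact ⟨y, y1, (ne y (mem_fl (mem_cons_of_mem _ l) y1)).trans y2⟩
    · have na : a ∉ fl Ms := fun l => hn.1 (h2 a l)
      have fin : ∀ Ns z', Pk A Ns → fl Ns ~ a :: fl Ms → z' :: hd Ns ~ a :: b :: hd R →
          Fw A k ((a, s :: w) :: (b, t) :: R) := fun Ns z' p1 p2 p3 =>
        ⟨Ns, z', p1, fun v l => e0 ▸ (mem_cons.1 (p2.mem_iff.1 l)).elim (fun q => q ▸ mem_cons_self)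
          fun q => mem_cons_of_mem _ (h2 v q), p3, by
            rw [e0, p2.length_eq, length_cons, length_cons]; omega⟩
      replace h3 : z :: hd Ms ~ s :: b :: hd R := h3
      by_cases q : z = s
      · subst q
        have h5 := h3.cons_inv
        obtain ⟨Ns, Q, p1, p2, p3, p4⟩ := prepend h1 (h5.mem_iff.2 mem_cons_self) e na
        refine Or.inr (fin Ns b p1 p2 ?_)
        rw [p4]
        exact (Perm.swap _ _ _).trans ((p3.symm.trans h5).cons _)
      · have h5 : s ∈ hd Ms :=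
          (mem_cons.1 (h3.mem_iff.2 mem_cons_self)).resolve_left (Ne.symm q)
        obtain ⟨Ns, Q, p1, p2, p3, p4⟩ := prepend h1 h5 c0.1 na
        refine Or.inr (fin Ns z p1 p2 ?_)
        rw [p4]
        exact (Perm.swap _ _ _).trans
          (((Perm.swap _ _ _).trans ((p3.symm.cons z).trans h3)).cons_inv.cons _)

lemma hd_sub : ∀ Ls : List (V × List V), hd Ls <+ fl Ls
  | [] => by simp [hd, fl]
  | x :: Ls => by
    rw [fl_cons]
    exact Sublist.cons_cons _ ((hd_sub Ls).trans (sublist_append_right _ _))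

lemma exists_pre : ∀ Ls : List (V × List V), (∀ x ∈ Ls, x.2 ≠ []) → (fl Ls).Nodup →
    ∃ (Ks : List (V × List V)) (g : V → V), Ls = Ks.map fun m => (g m.1, m.1 :: m.2)
  | [], _, _ => ⟨[], id, rfl⟩
  | (_, []) :: _, h, _ => absurd rfl (h _ mem_cons_self)
  | (a, s :: w) :: Ls, h, hn => by
    classical
    rw [fl_cons, nodup_cons, nodup_append] at hn
    obtain ⟨Ks, g, e⟩ := exists_pre Ls (fun x l => h x (mem_cons_of_mem _ l)) hn.2.2.1
    refine ⟨(s, w) :: Ks, Function.update g s a, ?_⟩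
    rw [map_cons, Function.update_self, e]
    refine congrArg _ (map_congr_left fun m l => ?_)
    rw [Function.update_of_ne]
    intro q
    refine hn.2.2.2 s mem_cons_self m.1 ?_ q.symm
    exact mem_fl (x := (g m.1, m.1 :: m.2)) (e ▸ mem_map_of_mem l) (by simp)

theorem alt : ∀ (n k : ℕ) (Ls : List (V × List V)), (fl Ls).length < n → Pk A Ls →
    Cl A k Ls ∨ Fw A k Ls := by
  classical
  intro n
  induction n with
  | zero => exact fun _ _ h => absurd h (Nat.not_lt_zero _)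
  | succ n ih =>
  intro k Ls hl h
  cases k with
  | zero => exact Or.inl ⟨fun _ => 0, fun _ => le_rfl, fun _ _ _ _ _ _ _ => rfl,
      fun _ _ j j1 j2 => by omega⟩
  | succ k =>
  by_cases ha : ∃ x ∈ Ls, ∃ y ∈ Ls, x.1 ≠ y.1 ∧ A x.1 y.1
  · obtain ⟨⟨a, s⟩, h1, ⟨b, t⟩, h2, h3, h4⟩ := ha
    have p := (perm_cons_erase h1).trans ((perm_cons_erase ((mem_erase_of_ne
      (fun q => h3 (congrArg Prod.fst q).symm)).2 h2)).cons _)
    exact alt_perm p (arc k.succ_pos (h.perm p) h4 fun Ns l q =>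
      ih _ Ns (by have := (fl_perm p).length_eq; omega) q)
  have st : ∀ u ∈ hd Ls, ∀ v ∈ hd Ls, u ≠ v → ¬ A u v := by
    intro u l v l' n q
    obtain ⟨x, x1, rfl⟩ := mem_map.1 l
    obtain ⟨y, y1, rfl⟩ := mem_map.1 l'
    exact ha ⟨x, x1, y, y1, n, q⟩
  have top : ∀ c : V → ℕ, (∀ x, c x ≤ k) →
      (∀ u ∈ fl Ls, ∀ v ∈ fl Ls, u ∉ hd Ls → v ∉ hd Ls → u ≠ v → A u v → c u = c v → c u = 0) →
      (∀ x ∈ Ls, ∀ j, 0 < j → j ≤ k → ∃ y ∈ x.1 :: x.2, y ∉ hd Ls ∧ c y = j) →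
      Cl A (k + 1) Ls := by
    intro c h1 h2 h3
    refine ⟨fun v => if v ∈ hd Ls then k + 1 else c v, fun x => ?_, fun u l v l' n q r => ?_,
      fun x l j j1 j2 => ?_⟩
    · have := h1 x
      dsimp only
      split_ifs <;> omega
    · have a := h1 u
      have b := h1 v
      dsimp only at r ⊢
      split_ifs at r ⊢ with i1 i2 i2
      · exact absurd q (st u i1 v i2 n)
      · omega
      · omega
      · exact h2 u l v l' i1 i2 n q r
    · rcases j2.eq_or_lt with rfl | j3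
      · exact ⟨x.1, mem_cons_self, if_pos (mem_map_of_mem l)⟩
      · obtain ⟨y, y1, y2, y3⟩ := h3 x l j j1 (by omega)
        exact ⟨y, y1, (if_neg y2).trans y3⟩
  rcases Nat.eq_zero_or_pos k with rfl | hk
  · exact Or.inl (top (fun _ => 0) (fun _ => le_rfl) (fun _ _ _ _ _ _ _ _ _ => rfl)
      fun _ _ j j1 j2 => by omega)
  by_cases hs : ∃ x ∈ Ls, x.2 = []
  · obtain ⟨⟨a, s⟩, h1, rfl⟩ := hs
    have p := perm_cons_erase h1
    have h' := h.perm p
    refine alt_perm p (Or.inr ⟨_, a, ⟨fun x l => h'.1 x (mem_cons_of_mem _ l), ?_⟩,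
      fun v l => by simp [fl_cons, l], Perm.refl _, by simp [fl_cons]; omega⟩)
    have := h'.2
    rw [fl_cons] at this
    exact (nodup_cons.1 this).2
  push Not at hs
  obtain ⟨Ks, g, e⟩ := exists_pre Ls hs h.2
  have q : fl Ls ~ hd Ls ++ fl Ks := by
    rw [e, hd, map_map]
    exact fl_pre (fun m => g m.1) Ks
  have eh : hd Ls = (hd Ks).map g := by simp [e, hd]
  have hn := nodup_append.1 (q.nodup_iff.1 h.2)
  have ch : ∀ m ∈ Ks, A (g m.1) m.1 ∧ IsChain A (m.1 :: m.2) := fun m l =>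
    isChain_cons_cons.1 (h.1 (g m.1, m.1 :: m.2) (e ▸ mem_map_of_mem l))
  rcases Ks.eq_nil_or_concat with rfl | hne
  · exact Or.inl (top (fun _ => 0) (fun _ => k.zero_le) (fun _ _ _ _ _ _ _ _ _ => rfl)
      (by simp [e]))
  have lp : 0 < (hd Ls).length := by
    obtain ⟨_, _, rfl⟩ := hne
    rw [eh]
    simp [hd]
  have ql := q.length_eq
  rw [length_append] at ql
  rcases ih k Ks (by omega) ⟨fun m l => (ch m l).2, hn.2.1⟩ with
    ⟨c, h1, h2, h3⟩ | ⟨Ms, z, h1, h2, h3, h4⟩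
  · refine Or.inl (top c h1 (fun u l v l' i1 i2 => h2 u
      ((mem_append.1 (q.mem_iff.1 l)).resolve_left i1) v
      ((mem_append.1 (q.mem_iff.1 l')).resolve_left i2)) fun x l j j1 j2 => ?_)
    obtain ⟨m, m1, rfl⟩ := mem_map.1 (e ▸ l)
    obtain ⟨y, y1, y2⟩ := h3 m m1 j j1 j2
    exact ⟨y, mem_cons_of_mem _ y1, fun i => hn.2.2 y i y (mem_fl m1 y1) rfl, y2⟩
  · have p := fl_pre (fun m => g m.1) Ms
    have r : g z :: Ms.map (fun m => g m.1) ~ hd Ls := by
      rw [eh]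
      simpa [hd, Function.comp_def] using h3.map g
    have sub : ∀ v ∈ Ms.map (fun m => g m.1), v ∈ hd Ls :=
      fun v l => r.mem_iff.1 (mem_cons_of_mem _ l)
    refine Or.inr ⟨Ms.map fun m => (g m.1, m.1 :: m.2), g z, ⟨fun x l => ?_,
      p.nodup_iff.2 (nodup_append.2 ⟨(nodup_cons.1 (r.nodup_iff.2 hn.1)).2, h1.2,
        fun u l v l' => hn.2.2 u (sub u l) v (h2 v l')⟩)⟩, fun v l => q.mem_iff.2 ?_, ?_, ?_⟩
    · obtain ⟨m, m1, rfl⟩ := mem_map.1 l
      obtain ⟨m', m2, m3⟩ := mem_map.1 (h3.mem_iff.1 (mem_cons_of_mem _ (mem_map_of_mem m1)))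
      exact isChain_cons_cons.2 ⟨m3 ▸ (ch m' m2).1, h1.1 m m1⟩
    · exact mem_append.2 ((mem_append.1 (p.mem_iff.1 l)).imp (sub v) (h2 v))
    · simpa [hd, Function.comp_def] using r
    · have := r.length_eq
      rw [p.length_eq, length_append]
      rw [length_cons] at this
      omega

lemma exists_pairs : ∀ Ls : List (List V), (∀ L ∈ Ls, L ≠ []) →
    ∃ Ks : List (V × List V), Ls = Ks.map fun x => x.1 :: x.2
  | [], _ => ⟨[], rfl⟩
  | [] :: _, h => absurd rfl (h _ mem_cons_self)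
  | (a :: s) :: Ls, h =>
    let ⟨Ks, e⟩ := exists_pairs Ls fun x l => h x (mem_cons_of_mem _ l)
    ⟨(a, s) :: Ks, by rw [e, map_cons]⟩

end ALL

theorem stALL : St_ALL := by
  intro V A S k Ls h1 h2 h3
  obtain ⟨Ks, rfl⟩ := ALL.exists_pairs Ls fun L l => (h1.1 L l).1
  rcases ALL.alt (A := A) _ k Ks (Nat.lt_succ_self _)
    ⟨fun x l => (h1.1 _ (mem_map_of_mem l)).2, h1.2.1⟩ with ⟨c, k1, k2, k3⟩ | ⟨Ms, z, k1, k2, k3, k4⟩
  · refine ⟨c, fun x _ => k1 x, fun u l v l' => k2 u (h2 u l) v (h2 v l'), fun L l => ?_, by simp⟩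
    obtain ⟨x, x1, rfl⟩ := mem_map.1 l
    exact k3 x x1
  · have := h3 (Ms.map fun x : V × List V => x.1 :: x.2) ⟨fun L l => by
      obtain ⟨x, x1, rfl⟩ := mem_map.1 l
      exact ⟨by simp, k1.1 x x1⟩, k1.2, fun x l => h1.2.2 x (k2 x l)⟩
    have e := k3.length_eq
    simp only [ALL.hd, length_cons, length_map] at e this
    rw [← e, Nat.mul_succ] at this
    unfold ALL.fl at k4
    omega

end Pool.Agent.Lib.MP_6d5d56_co.T2
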