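import Pool.Agent.Lib.MP_6d5d56_co.One

/-! Statements of the blocks for partitions of value at most `3 * k`. -/

set_option autoImplicit false

namespace Pool.Agent.Lib.MP_6d5d56_co.T2

/-- no short paths -/
def St_ALL : Prop := ∀ (V : Type) (A : V → V → Prop) (S : Finset V) (k : ℕ) (Ls : List (List V)),
  Pack A S Ls → (∀ x ∈ S, x ∈ Ls.flatten) → Opt A S k Ls → ∃ c, Col A S k Ls [] c

/-- keep `k` colours containing all colours of the short paths -/
def St_SEL : Prop := ∀ (V : Type) (A : V → V → Prop) (S : Finset V) (k K : ℕ)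
  (Ls Ss : List (List V)) (c : V → ℕ), k ≤ K → Ss.flatten.length ≤ k → (∀ x ∈ Ss.flatten, x ∈ S) →
  Col A S K Ls Ss c → ∃ c', Col A S k Ls Ss c'

/-- two long paths, at least `k` colours -/
def St_TWO : Prop := ∀ (V : Type) [Fintype V] (A : V → V → Prop) (k : ℕ) (P Q : List V)
  (Ss : List (List V)), Pack A Finset.univ ([P, Q] ++ Ss) → (∀ x, x ∈ ([P, Q] ++ Ss).flatten) →
  Opt A Finset.univ k [P, Q] → ∃ K c, k ≤ K ∧ Col A Finset.univ K [P, Q] Ss c

open scoped Classical in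
/-- the final statement -/
def St_FIN : Prop :=
    ∀ (V : Type) [Fintype V] (G : Digraph V) (k : ℕ), 0 < k →
    ∀ Ps : Finset (List V), ∑ P ∈ Ps, min P.length k ≤ 3 * k →
      (∀ P ∈ Ps, P ≠ [] ∧ P.Nodup ∧
        ∀ (i : ℕ) (u v : V), P[i]? = some u → P[i+1]? = some v → G.Adj u v) →
      (∀ v : V, ∃! P, P ∈ Ps ∧ v ∈ P) →
      (∀ Qs : Finset (List V),
        (∀ Q ∈ Qs, Q ≠ [] ∧ Q.Nodup ∧
          ∀ (i : ℕ) (u v : V), Q[i]? = some u → Q[i+1]? = some v → G.Adj u v) →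
        (∀ v : V, ∃! Q, Q ∈ Qs ∧ v ∈ Q) →
        ∑ P ∈ Ps, min P.length k ≤ ∑ Q ∈ Qs, min Q.length k) →
      ∃ C : Fin k → Finset V,
        (∀ i j, i ≠ j → Disjoint (C i) (C j)) ∧
        (∀ i, ∀ u ∈ C i, ∀ v ∈ C i, u ≠ v → ¬ G.Adj u v) ∧
        ∀ P ∈ Ps, (Finset.univ.filter (fun i : Fin k => ∃ v ∈ P, v ∈ C i)).card
          = min P.length k

end Pool.Agent.Lib.MP_6d5d56_co.T2
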