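import Pool.Agent.Lib.MP_6d5d56_co.H35Ker

/-! Two long paths: the stage construction. -/

set_option autoImplicit false

namespace Pool.Agent.Lib.MP_6d5d56_co.T2

open H35 Relation

/-- potentials -/
structure Pt (V : Type) where
  i : V → ℤ
  o : V → ℤ
  β : ℤ
  κ : ℤ

/-- data -/
structure Dat (V : Type) where
  A : V → V → Prop
  P : V → Prop
  Q : V → Prop
  T : V → Prop
  ix : V → ℕ
  m : ℕ
  n : ℕ
  k : ℕ
  R : V → V → Prop
  r : V → ℕ

variable {V : Type}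

/-- `x` is a potential for the arcs `H` -/
structure Dat.Pot (C : Dat V) (H : V → V → Prop) (x : Pt V) : Prop where
  lo : ∀ v, x.β ≤ x.i v
  hi : ∀ v, x.o v ≤ x.κ
  st : ∀ v, x.o v ≤ x.i v + 1
  sT : ∀ v, C.T v → x.i v + 1 ≤ x.o v
  arc : ∀ u v, H u v → x.o u ≤ x.i v
  nP : ∀ u v, C.P u → C.P v → C.ix v = C.ix u + 1 → x.o u = x.i v
  nQ : ∀ u v, C.Q u → C.Q v → C.ix v = C.ix u + 1 → x.o u = x.i v
  hP : ∀ u, C.P u → C.ix u = 0 → x.i u = x.β
  hQ : ∀ u, C.Q u → C.ix u = 0 → x.i u = x.β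
  lP : ∀ u, C.P u → C.ix u + 1 = C.m → x.o u = x.κ
  lQ : ∀ u, C.Q u → C.ix u + 1 = C.n → x.o u = x.κ
  rg : x.β + C.k ≤ x.κ

/-- arcs increasing the rank -/
def Dat.Up (C : Dat V) (ζ η : V → ℕ) (u v : V) : Prop :=
  C.A u v ∧ (ζ u < ζ v ∨ ζ u = ζ v ∧ (η u < η v ∨ η u = η v ∧ C.r u < C.r v))

/-- axioms -/
structure Dat.Ok (C : Dat V) : Prop where
  tri : ∀ x, C.P x ∨ C.Q x ∨ C.T x
  pq : ∀ x, C.P x → ¬ C.Q x
  pt : ∀ x, C.P x → ¬ C.T x
  qt : ∀ x, C.Q x → ¬ C.T x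
  injP : ∀ x y, C.P x → C.P y → C.ix x = C.ix y → x = y
  injQ : ∀ x y, C.Q x → C.Q y → C.ix x = C.ix y → x = y
  ltP : ∀ x, C.P x → C.ix x < C.m
  ltQ : ∀ x, C.Q x → C.ix x < C.n
  suP : ∀ u, u < C.m → ∃ x, C.P x ∧ C.ix x = u
  suQ : ∀ u, u < C.n → ∃ x, C.Q x ∧ C.ix x = u
  m0 : 0 < C.m
  n0 : 0 < C.n
  r1 : ∀ x y, C.R x y → C.T x ∧ C.T y ∧ C.A x y ∧ C.r x < C.r y
  r3 : ∀ x y, C.T x → C.T y → C.A x y → C.R x y ∨ ReflTransGen C.R y x
  ao : ∀ ζ η : V → ℕ,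
    (∀ x y, C.P x → C.P y → C.ix x < C.ix y → ζ x < ζ y ∨ ζ x = ζ y ∧ η x < η y) →
    (∀ x y, C.Q x → C.Q y → C.ix x < C.ix y → ζ x < ζ y) → ∃ x, C.Pot (C.Up ζ η) x

namespace Dat

variable (C : Dat V)

/-- `a` reaches `s` through the short part -/
def Re (a s : V) : Prop := ∃ t, C.T t ∧ C.A a t ∧ ReflTransGen C.R t s

/-- `s` reaches `b` through the short part -/
def To (s b : V) : Prop := ∃ t, C.T t ∧ ReflTransGen C.R s t ∧ C.A t b

/-- `a` reaches `b` without other vertices of the long paths -/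
def Dir (a b : V) : Prop := C.A a b ∨ ∃ s, C.T s ∧ C.Re a s ∧ C.A s b

/-- first index of `Q` reached from `a` or a later vertex -/
noncomputable def w (a : V) : ℕ :=
  sInf {j | j = C.n ∨ ∃ a' b, C.P a' ∧ C.Q b ∧ C.ix a ≤ C.ix a' ∧ C.Dir a' b ∧ C.ix b = j}

/-- number of vertices of `P` up to the last one reaching `s` -/
noncomputable def la (s : V) : ℕ := sSup {u | ∃ a, C.P a ∧ C.Re a s ∧ C.ix a + 1 = u}

/-- least slot -/
noncomputable def lw (s : V) : ℕ := sSup {u | ∃ a, C.P a ∧ C.Re a s ∧ C.w a = u}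

open scoped Classical in
/-- second rank -/
noncomputable def eta (x : V) : ℕ :=
  if C.P x then 2 * C.ix x + 2 else if C.Q x then 0 else 2 * C.la x + 1

/-- admissible slots -/
structure Adm (ζ : V → ℕ) : Prop where
  zP : ∀ a, C.P a → ζ a = C.w a
  zQ : ∀ b, C.Q b → ζ b = C.ix b + 1
  mono : ∀ x y, C.R x y → ζ x ≤ ζ y
  fr : ∀ s, C.T s → C.lw s ≤ ζ s
  tb : ∀ s b, C.T s → C.Q b → C.A s b → ζ s ≤ C.ix b

/-- the world of a slot function -/
def H (ζ : V → ℕ) : V → V → Prop := C.Up ζ C.eta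

variable {C}

theorem w_le_n (a : V) : C.w a ≤ C.n := Nat.sInf_le (Or.inl rfl)

theorem w_le {a a' b : V} (h1 : C.P a') (h2 : C.Q b) (h3 : C.ix a ≤ C.ix a') (h4 : C.Dir a' b) :
    C.w a ≤ C.ix b := Nat.sInf_le (Or.inr ⟨a', b, h1, h2, h3, h4, rfl⟩)

theorem w_spec {a : V} (h : C.w a < C.n) :
    ∃ a' b, C.P a' ∧ C.Q b ∧ C.ix a ≤ C.ix a' ∧ C.Dir a' b ∧ C.ix b = C.w a := by
  have := Nat.sInf_mem (s := {j | j = C.n ∨ ∃ a' b, C.P a' ∧ C.Q b ∧ C.ix a ≤ C.ix a' ∧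
    C.Dir a' b ∧ C.ix b = j}) ⟨C.n, Or.inl rfl⟩
  rcases this with h' | h'
  · exact absurd h' h.ne
  · exact h'

theorem w_mono {a a' : V} (h : C.ix a ≤ C.ix a') : C.w a ≤ C.w a' := by
  rcases (w_le_n (C := C) a').eq_or_lt with e | e
  · exact e ▸ w_le_n a
  · obtain ⟨a'', b, h1, h2, h3, h4, h5⟩ := w_spec e
    exact h5 ▸ w_le h1 h2 (h.trans h3) h4

theorem le_la (hC : C.Ok) {a s : V} (h1 : C.P a) (h2 : C.Re a s) : C.ix a + 1 ≤ C.la s :=
  le_csSup ⟨C.m, by rintro _ ⟨a, h, -, rfl⟩; exact hC.ltP a h⟩ ⟨a, h1, h2, rfl⟩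

theorem la_spec (hC : C.Ok) {s : V} (h : 0 < C.la s) :
    ∃ a, C.P a ∧ C.Re a s ∧ C.ix a + 1 = C.la s := by
  by_cases hn : {u | ∃ a, C.P a ∧ C.Re a s ∧ C.ix a + 1 = u}.Nonempty
  · exact Nat.sSup_mem hn ⟨C.m, by rintro _ ⟨a, h, -, rfl⟩; exact hC.ltP a h⟩
  · rw [la, Set.not_nonempty_iff_eq_empty.1 hn] at h; simp at h

theorem le_lw {a s : V} (h1 : C.P a) (h2 : C.Re a s) : C.w a ≤ C.lw s :=
  le_csSup ⟨C.n, by rintro _ ⟨a, -, -, rfl⟩; exact w_le_n a⟩ ⟨a, h1, h2, rfl⟩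

theorem lw_spec {s : V} (h : 0 < C.lw s) : ∃ a, C.P a ∧ C.Re a s ∧ C.w a = C.lw s := by
  by_cases hn : {u | ∃ a, C.P a ∧ C.Re a s ∧ C.w a = u}.Nonempty
  · exact Nat.sSup_mem hn ⟨C.n, by rintro _ ⟨a, -, -, rfl⟩; exact w_le_n a⟩
  · rw [lw, Set.not_nonempty_iff_eq_empty.1 hn] at h; simp at h

theorem Re.tail {a s t : V} (h : C.Re a s) (h' : C.R s t) : C.Re a t := by
  obtain ⟨u, h1, h2, h3⟩ := h
  exact ⟨u, h1, h2, h3.tail h'⟩

theorem la_mono (hC : C.Ok) {s t : V} (h : C.R s t) : C.la s ≤ C.la t := by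
  rcases Nat.eq_zero_or_pos (C.la s) with e | e
  · omega
  · obtain ⟨a, h1, h2, h3⟩ := la_spec hC e
    exact h3 ▸ le_la hC h1 (h2.tail h)

theorem lw_mono {s t : V} (h : C.R s t) : C.lw s ≤ C.lw t := by
  rcases Nat.eq_zero_or_pos (C.lw s) with e | e
  · omega
  · obtain ⟨a, h1, h2, h3⟩ := lw_spec e
    exact h3 ▸ le_lw h1 (h2.tail h)

theorem eta_P {x : V} (h : C.P x) : C.eta x = 2 * C.ix x + 2 := by simp [eta, h]

theorem eta_Q (hC : C.Ok) {x : V} (h : C.Q x) : C.eta x = 0 := by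
  have : ¬ C.P x := fun h' => hC.pq x h' h
  simp [eta, h, this]

theorem eta_T (hC : C.Ok) {x : V} (h : C.T x) : C.eta x = 2 * C.la x + 1 := by
  have h1 : ¬ C.P x := fun h' => hC.pt x h' h
  have h2 : ¬ C.Q x := fun h' => hC.qt x h' h
  simp [eta, h1, h2]

section
variable (hC : C.Ok) {ζ : V → ℕ} (hz : C.Adm ζ)
include hC hz

theorem H_R {x y : V} (h : C.R x y) : C.H ζ x y := by
  obtain ⟨h1, h2, h3, h4⟩ := hC.r1 x y h
  have := hz.mono x y h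
  have := la_mono hC h
  refine ⟨h3, ?_⟩
  rw [eta_T hC h1, eta_T hC h2]; omega

theorem H_PT {a s : V} (h1 : C.P a) (h2 : C.T s) (h : C.A a s) : C.H ζ a s := by
  have e : C.Re a s := ⟨s, h2, h, .refl⟩
  have := le_la hC h1 e
  have := le_lw h1 e
  have := hz.fr s h2
  refine ⟨h, ?_⟩
  rw [eta_T hC h2, eta_P h1, hz.zP a h1]; omega

omit hC in
theorem H_TQ {s b : V} (h1 : C.T s) (h2 : C.Q b) (h : C.A s b) : C.H ζ s b := by
  have := hz.tb s b h1 h2 h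
  refine ⟨h, ?_⟩
  rw [hz.zQ b h2]; omega

omit hC in
theorem H_PQ {a b : V} (h1 : C.P a) (h2 : C.Q b) (h : C.A a b) : C.H ζ a b := by
  have := w_le h1 h2 le_rfl (Or.inl h)
  refine ⟨h, ?_⟩
  rw [hz.zQ b h2, hz.zP a h1]; omega

theorem rt_mono {x y : V} (h : ReflTransGen C.R x y) :
    x = y ∨ ζ x ≤ ζ y ∧ C.la x ≤ C.la y ∧ C.r x < C.r y := by
  induction h with
  | refl => exact Or.inl rfl
  | tail _ h ih =>
    have := hz.mono _ _ h
    have := la_mono hC h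
    have := (hC.r1 _ _ h).2.2.2
    rcases ih with rfl | ih <;> omega

theorem R_of_H {x y : V} (h1 : C.T x) (h2 : C.T y) (h : C.H ζ x y) : C.R x y := by
  rcases hC.r3 x y h1 h2 h.1 with e | e
  · exact e
  · have := h.2
    rw [eta_T hC h1, eta_T hC h2] at this
    rcases rt_mono hC hz e with rfl | e <;> omega

theorem exists_pot : ∃ x, C.Pot (C.H ζ) x := by
  refine hC.ao ζ C.eta (fun x y hx hy h => ?_) fun x y hx hy h => ?_
  · have := w_mono (C := C) h.le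
    rw [eta_P hx, eta_P hy, hz.zP x hx, hz.zP y hy]; omega
  · rw [hz.zQ x hx, hz.zQ y hy]; omega

variable {x : Pt V} (hx : C.Pot (C.H ζ) x)
include hx

theorem pot_rt {s t : V} (hs : C.T s) (h : ReflTransGen C.R s t) :
    C.T t ∧ x.i s ≤ x.i t ∧ x.o s ≤ x.o t := by
  induction h with
  | refl => exact ⟨hs, le_rfl, le_rfl⟩
  | tail _ h ih =>
    have h2 := (hC.r1 _ _ h).2.1
    have := hx.arc _ _ (H_R hC hz h)
    have := hx.sT _ ih.1
    have := hx.sT _ h2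
    exact ⟨h2, by omega, by omega⟩

theorem pot_re {a s : V} (ha : C.P a) (h : C.Re a s) : x.o a ≤ x.i s := by
  obtain ⟨t, h1, h2, h3⟩ := h
  have := hx.arc _ _ (H_PT hC hz ha h1 h2)
  have := pot_rt hC hz hx h1 h3
  omega

theorem pot_to {s b : V} (hs : C.T s) (hb : C.Q b) (h : C.To s b) : x.o s ≤ x.i b := by
  obtain ⟨t, h1, h2, h3⟩ := h
  have := hx.arc _ _ (H_TQ hz h1 hb h3)
  have := pot_rt hC hz hx hs h2
  omega

theorem pot_dir {a b : V} (ha : C.P a) (hb : C.Q b) (h : C.Dir a b) : x.o a ≤ x.i b := by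
  rcases h with h | ⟨s, h1, h2, h3⟩
  · exact hx.arc _ _ (H_PQ hz ha hb h)
  · have := pot_re hC hz hx ha h2
    have := hx.arc _ _ (H_TQ hz h1 hb h3)
    have := hx.sT s h1
    omega

end

theorem pot_range (hC : C.Ok) {H : V → V → Prop} {x : Pt V} (hx : C.Pot H x) :
    x.κ ≤ x.β + C.m := by
  have : ∀ u, ∀ a, C.P a → C.ix a = u → x.i a ≤ x.β + u := by
    intro u
    induction u with
    | zero => intro a h1 h2; have := hx.hP a h1 h2; omega
    | succ u ih =>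
      intro a h1 h2
      obtain ⟨a', h3, h4⟩ := hC.suP u (by have := hC.ltP a h1; omega)
      have := ih a' h3 h4
      have := hx.nP a' a h3 h1 (by omega)
      have := hx.st a'
      push_cast; omega
  have h0 := hC.m0
  obtain ⟨a, h1, h2⟩ := hC.suP (C.m - 1) (by omega)
  have := this _ a h1 h2
  have := hx.lP a h1 (by omega)
  have := hx.st a
  omega

theorem pot_olo (hC : C.Ok) {H : V → V → Prop} {x : Pt V} (hx : C.Pot H x) (v : V) :
    x.β ≤ x.o v := by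
  have := hx.rg
  rcases hC.tri v with h | h | h
  · rcases (Nat.succ_le_of_lt (hC.ltP v h)).eq_or_lt with e | e
    · have := hx.lP v h e; omega
    · obtain ⟨a, h1, h2⟩ := hC.suP _ e
      have := hx.nP v a h h1 h2
      have := hx.lo a
      omega
  · rcases (Nat.succ_le_of_lt (hC.ltQ v h)).eq_or_lt with e | e
    · have := hx.lQ v h e; omega
    · obtain ⟨a, h1, h2⟩ := hC.suQ _ e
      have := hx.nQ v a h h1 h2
      have := hx.lo a
      omega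
  · have := hx.sT v h
    have := hx.lo v
    omega

end Dat

end Pool.Agent.Lib.MP_6d5d56_co.T2
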