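import Pool.Agent.Lib.MP_6d5d56_co.T2Blue

/-! Partitions of value at most `3 * k`: from the internal form to the final statement. -/

set_option autoImplicit false

namespace Pool.Agent.Lib.MP_6d5d56_co.T2

open List
open scoped Classical

variable {V : Type}

theorem chain_iff {A : V → V → Prop} {P : List V} : P.IsChain A ↔
    ∀ (i : ℕ) (u v : V), P[i]? = some u → P[i+1]? = some v → A u v := by
  rw [isChain_iff_getElem]
  constructor
  · intro h i u v h1 h2
    obtain ⟨a, rfl⟩ := List.getElem?_eq_some_iff.1 h1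
    obtain ⟨b, rfl⟩ := List.getElem?_eq_some_iff.1 h2
    exact h i b
  · exact fun h i hi => h i _ _ (List.getElem?_eq_getElem _) (List.getElem?_eq_getElem _)

theorem sum_min_le (k : ℕ) (Ms : List (List V)) (l : List V) :
    ((Ms ++ l.map fun x => [x]).map fun Q => min Q.length k).sum ≤ k * Ms.length + l.length := by
  rw [map_append, sum_append]
  refine add_le_add ?_ ?_
  · induction Ms with
    | nil => simp
    | cons M Ms ih => simp only [map_cons, sum_cons, length_cons, mul_add]; omega
  · induction l with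
    | nil => simp
    | cons a l ih => simp only [map_cons, sum_cons, length_cons, length_nil] at ih ⊢; omega

theorem sum_min_eq (k : ℕ) (Ls Ss : List (List V)) (h1 : ∀ L ∈ Ls, k < L.length)
    (h2 : ∀ L ∈ Ss, L.length ≤ k) :
    ((Ls ++ Ss).map fun Q => min Q.length k).sum = k * Ls.length + Ss.flatten.length := by
  rw [map_append, sum_append, List.map_congr_left (g := fun _ => k)
    fun L hL => min_eq_right (h1 L hL).le, List.map_congr_left (g := length)
    fun L hL => min_eq_left (h2 L hL), length_flatten]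
  simp [mul_comm]

theorem small (hA : St_ALL) (hS : St_SEL) (hT : St_TWO) [Fintype V] (A : V → V → Prop) (k : ℕ)
    (Ls Ss : List (List V)) (hv : k * Ls.length + Ss.flatten.length ≤ 3 * k)
    (hP : Pack A Finset.univ (Ls ++ Ss))
    (hc : ∀ x ∈ (Finset.univ : Finset V), x ∈ (Ls ++ Ss).flatten)
    (ho : Opt A Finset.univ k Ls) : ∃ c, Col A Finset.univ k Ls Ss c := by
  by_cases h1 : Ls.length ≤ 1
  · exact berge_one k Ls Ss hP hc ho h1
  by_cases h2 : Ls.length = 2
  · obtain ⟨P, Q, rfl⟩ := List.length_eq_two.1 h2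
    obtain ⟨K, c, h3, h4⟩ := hT V A k P Q Ss hP (fun x => hc x (Finset.mem_univ x)) ho
    exact hS V A _ k K _ Ss c h3 (by rw [h2] at hv; omega) (fun x _ => Finset.mem_univ x) h4
  · have h3 : k * 3 ≤ k * Ls.length := Nat.mul_le_mul_left k (by omega)
    have h4 : Ss.flatten = [] := List.eq_nil_of_length_eq_zero (by omega)
    obtain rfl : Ss = [] := List.eq_nil_iff_forall_not_mem.2 fun L hL =>
      (hP.1 L (mem_append_right _ hL)).1 (List.flatten_eq_nil_iff.1 h4 L hL)
    rw [append_nil] at hP hc
    exact hA V A _ k Ls hP hc ho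

theorem stFIN (hA : St_ALL) (hS : St_SEL) (hT : St_TWO) : St_FIN := by
  intro V _ G k _ Ps hv h1 h2 h3
  set Ls := Ps.toList.filter fun P => k < P.length with hLs
  set Ss := Ps.toList.filter fun P => !decide (k < P.length) with hSs
  have hp : Ls ++ Ss ~ Ps.toList := List.filter_append_perm _ _
  have hP : Pack G.Adj Finset.univ (Ls ++ Ss) := by
    refine Pack.perm (Ls := Ps.toList) ⟨fun L hL => ?_, ?_, by simp⟩ hp.symm
    · rw [Finset.mem_toList] at hL
      exact ⟨(h1 L hL).1, chain_iff.2 (h1 L hL).2.2⟩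
    · rw [List.nodup_flatten]
      refine ⟨fun L hL => (h1 L (Finset.mem_toList.1 hL)).2.1,
        Ps.nodup_toList.imp_of_mem fun {a b} ha hb h x x1 x2 => h ?_⟩
      exact (h2 x).unique ⟨Finset.mem_toList.1 ha, x1⟩ ⟨Finset.mem_toList.1 hb, x2⟩
  have hc : ∀ x ∈ (Finset.univ : Finset V), x ∈ (Ls ++ Ss).flatten := fun x _ => by
    obtain ⟨P, h, -⟩ := h2 x
    exact mem_flatten.2 ⟨P, hp.mem_iff.2 (Finset.mem_toList.2 h.1), h.2⟩
  have l1 : ∀ L ∈ Ls, k < L.length := fun L hL => by simpa using (List.mem_filter.1 hL).2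
  have l2 : ∀ L ∈ Ss, L.length ≤ k := fun L hL => by simpa using (List.mem_filter.1 hL).2
  have e1 : ∑ P ∈ Ps, min P.length k = k * Ls.length + Ss.flatten.length := by
    rw [← sum_min_eq k Ls Ss l1 l2, (hp.map _).sum_eq, Finset.sum_map_toList]
  have e2 : Ls.flatten.length + Ss.flatten.length = Fintype.card V := by
    rw [← length_append, ← flatten_append, ← List.toFinset_card_of_nodup hP.2.1,
      Finset.eq_univ_of_forall fun x => List.mem_toFinset.2 (hc x (Finset.mem_univ x)),
      Finset.card_univ]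
  obtain ⟨c, c1, c2, c3, c4⟩ := small hA hS hT G.Adj k Ls Ss (e1 ▸ hv) hP hc (by
    intro Ms hM
    set l := (Finset.univ \ Ms.flatten.toFinset).toList with hl
    have a1 : ∀ x, x ∈ l ↔ x ∉ Ms.flatten := fun x => by
      rw [hl, Finset.mem_toList, Finset.mem_sdiff, List.mem_toFinset]; simp
    have a2 : l.length + Ms.flatten.length = Fintype.card V := by
      rw [hl, Finset.length_toList, ← List.toFinset_card_of_nodup hM.2.1,
        Finset.card_sdiff_add_card_eq_card (Finset.subset_univ _), Finset.card_univ]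
    have a3 : Pack G.Adj Finset.univ (Ms ++ l.map fun x => [x]) := by
      refine ⟨fun L hL => ?_, ?_, by simp⟩
      · rcases mem_append.1 hL with h | h
        · exact hM.1 L h
        · obtain ⟨x, -, rfl⟩ := List.mem_map.1 h; simp
      · rw [flatten_append, flatten_singletons, List.nodup_append]
        exact ⟨hM.2.1, Finset.nodup_toList _, fun a ha b hb e => (a1 b).1 hb (e ▸ ha)⟩
    have a4 := h3 (Ms ++ l.map fun x => [x]).toFinset (fun Q hQ => by
      rw [List.mem_toFinset] at hQ
      exact ⟨(a3.1 Q hQ).1, a3.nodup_mem hQ, chain_iff.1 (a3.1 Q hQ).2⟩) (fun v => by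
      have : v ∈ (Ms ++ l.map fun x => [x]).flatten := by
        rw [flatten_append, flatten_singletons, mem_append, a1]; tauto
      obtain ⟨Q, hQ, hv⟩ := mem_flatten.1 this
      exact ⟨Q, ⟨List.mem_toFinset.2 hQ, hv⟩, fun Q' h =>
        eq_of_mem_mem a3.2.1 (List.mem_toFinset.1 h.1) hQ h.2 hv⟩)
    rw [List.sum_toFinset _ (nodup_of_flatten (fun L hL => (a3.1 L hL).1) a3.2.1)] at a4
    have := sum_min_le k Ms l
    omega)
  refine ⟨fun i => Finset.univ.filter fun x => c x = i + 1, fun i j h => ?_,
    fun i u hu v hv h a => ?_, fun P hPs => ?_⟩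
  · rw [Finset.disjoint_filter]
    exact fun x _ e e' => h (Fin.ext (by omega))
  · rw [Finset.mem_filter] at hu hv
    have := c2 u hu.1 v hv.1 h a (by omega)
    omega
  · simp only [Finset.mem_filter, Finset.mem_univ, true_and]
    rcases mem_append.1 (hp.mem_iff.2 (Finset.mem_toList.2 hPs)) with h | h
    · rw [min_eq_right (l1 P h).le, Finset.filter_true_of_mem fun (i : Fin k) _ =>
        c3 P h (i + 1) (by omega) i.2, Finset.card_univ, Fintype.card_fin]
    · rw [min_eq_left (l2 P h), ← List.length_map c, ← List.toFinset_card_of_nodup (c4 P h).2]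
      refine Finset.card_bij (fun i _ => (i : ℕ) + 1) (fun i hi => ?_)
        (fun i _ j _ e => Fin.ext (by simpa using e)) fun n hn => ?_
      · obtain ⟨v, hv, e⟩ := (Finset.mem_filter.1 hi).2
        exact List.mem_toFinset.2 (List.mem_map.2 ⟨v, hv, e⟩)
      · obtain ⟨v, hv, rfl⟩ := List.mem_map.1 (List.mem_toFinset.1 hn)
        have := c1 v (Finset.mem_univ v)
        have := (c4 P h).1 v hv
        exact ⟨⟨c v - 1, by omega⟩, Finset.mem_filter.2 ⟨Finset.mem_univ _, v, hv,
          by simp only; omega⟩, by simp only; omega⟩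

end Pool.Agent.Lib.MP_6d5d56_co.T2
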