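import Pool.Agent.Lib.MP_6d5d56_co.T2Blue

/-! Keeping `k` colours that contain all colours of the short paths. -/

set_option autoImplicit false

namespace Pool.Agent.Lib.MP_6d5d56_co.T2

theorem stSEL' : St_SEL := by
  classical
  intro V A S k K Ls Ss c hk hs hS ⟨c1, c2, c3, c4⟩
  have hsub : (Ss.flatten.map c).toFinset ⊆ Finset.Icc 1 K := by
    intro n hn
    obtain ⟨x, hx, rfl⟩ := List.mem_map.1 (List.mem_toFinset.1 hn)
    obtain ⟨L, hL, hxL⟩ := List.mem_flatten.1 hx
    have := (c4 L hL).1 x hxL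
    have := c1 x (hS x hx)
    rw [Finset.mem_Icc]; omega
  obtain ⟨T, t1, t2, t3⟩ := Finset.exists_subsuperset_card_eq (n := k) hsub
    ((List.toFinset_card_le _).trans (by rw [List.length_map]; exact hs)) (by simpa using hk)
  let e : T ≃ Fin k := Fintype.equivFinOfCardEq (by simpa using t3)
  let f : ℕ → ℕ := fun n => if h : n ∈ T then (e ⟨n, h⟩ : ℕ) + 1 else 0
  have f1 : ∀ n, f n ≤ k := fun n => by
    simp only [f]; split_ifs with h
    · exact (e ⟨n, h⟩).2
    · exact Nat.zero_le _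
  have f2 : ∀ m n, f m = f n → f m ≠ 0 → m = n := fun m n h h0 => by
    simp only [f] at h h0
    split_ifs at h h0 with a b
    · have : e ⟨m, a⟩ = e ⟨n, b⟩ := Fin.ext (by omega)
      simpa using e.injective this
    · omega
  have f3 : ∀ n ∈ T, f n ≠ 0 := fun n h => by simp [f, h]
  have f0 : f 0 = 0 := by
    have : 0 ∉ T := fun h => by simpa using t2 h
    simp [f, this]
  refine ⟨fun x => f (c x), fun x _ => f1 _, fun u hu v hv h a e' => ?_, fun L hL j h0 hj => ?_,
    fun L hL => ?_⟩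
  · by_contra h0
    have := c2 u hu v hv h a (f2 _ _ e' h0)
    exact h0 (by simp only [this, f0])
  · set n := e.symm ⟨j - 1, by omega⟩ with hn
    have := Finset.mem_Icc.1 (t2 n.2)
    obtain ⟨x, hx, ex⟩ := c3 L hL n this.1 this.2
    refine ⟨x, hx, ?_⟩
    have : f n = (e n : ℕ) + 1 := dif_pos n.2
    have e2 : e n = ⟨j - 1, by omega⟩ := by rw [hn, Equiv.apply_symm_apply]
    simp only [ex, this, e2]
    omega
  · have hT : ∀ x ∈ L, f (c x) ≠ 0 := fun x hx => f3 _ (t1 (List.mem_toFinset.2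
      (List.mem_map.2 ⟨x, List.mem_flatten.2 ⟨L, hL, hx⟩, rfl⟩)))
    refine ⟨hT, ?_⟩
    have := (c4 L hL).2
    rw [show (L.map fun x => f (c x)) = (L.map c).map f by simp]
    refine this.map_on fun m hm n _ h => f2 _ _ h ?_
    obtain ⟨x, hx, rfl⟩ := List.mem_map.1 hm
    exact hT x hx

end Pool.Agent.Lib.MP_6d5d56_co.T2
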