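import Pool.Agent.Lib.MP_6d5d56_co.T2Stage
import Pool.Agent.Lib.MP_6d5d56_co.T2Blue

/-! Two long paths: the colouring. -/

set_option autoImplicit false

namespace Pool.Agent.Lib.MP_6d5d56_co.T2

open Relation

variable {V : Type}

namespace Dat

variable {C : Dat V}

theorem colouring [Fintype V] (hC : C.Ok) : ∃ (K : ℕ) (c : V → ℕ), C.k ≤ K ∧ (∀ v, c v ≤ K) ∧
    (∀ u v, u ≠ v → C.A u v → c u = c v → c u = 0) ∧
    (∀ j, 0 < j → j ≤ K → (∃ a, C.P a ∧ c a = j) ∧ ∃ b, C.Q b ∧ c b = j) ∧
    (∀ s, C.T s → c s ≠ 0) ∧ ∀ s t, C.R s t → c s < c t := by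
  classical
  obtain ⟨x, hx, f1, f2, f3, f4, f5, f6⟩ := final hC
  set good : V → Prop := fun u => x.i u < x.o u ∧
    (C.P u → ∀ y, C.P y → C.ix u < C.ix y → x.o u ≤ x.i y) ∧
    (C.Q u → ∀ y, C.Q y → C.ix y < C.ix u → x.o y ≤ x.i u) with hg
  set c : V → ℕ := fun u => if good u then (x.o u - x.β).toNat else 0 with hc
  have hrg := hx.rg
  have c1 : ∀ u, good u → (c u : ℤ) = x.o u - x.β ∧ x.i u + 1 = x.o u := by
    intro u h
    have := hx.lo u
    have := hx.st u
    have := h.1
    simp only [hc, if_pos h]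
    omega
  have c2 : ∀ u, c u ≠ 0 → good u := fun u h => by
    by_contra h'; simp [hc, h'] at h
  have gT : ∀ s, C.T s → good s := fun s hs =>
    ⟨by have := hx.sT s hs; omega, fun h => absurd hs (hC.pt s h), fun h => absurd hs (hC.qt s h)⟩
  have nx : ∀ a, C.P a → (∃ y, C.P y ∧ C.ix y = C.ix a + 1 ∧ x.o a = x.i y) ∨ x.o a = x.κ := by
    intro a ha
    rcases (Nat.succ_le_of_lt (hC.ltP a ha)).eq_or_lt with e | e
    · exact Or.inr (hx.lP a ha e)
    · obtain ⟨y, h1, h2⟩ := hC.suP _ e
      exact Or.inl ⟨y, h1, h2, hx.nP a y ha h1 h2⟩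
  have pv : ∀ b, C.Q b → (∃ y, C.Q y ∧ C.ix b = C.ix y + 1 ∧ x.o y = x.i b) ∨ x.i b = x.β := by
    intro b hb
    rcases Nat.eq_zero_or_pos (C.ix b) with e | e
    · exact Or.inr (hx.hQ b hb e)
    · obtain ⟨y, h1, h2⟩ := hC.suQ (C.ix b - 1) (by have := hC.ltQ b hb; omega)
      exact Or.inl ⟨y, h1, by omega, hx.nQ y b h1 hb (by omega)⟩
  have gP : ∀ a a', C.P a → good a → C.P a' → C.ix a ≤ C.ix a' → x.o a ≤ x.o a' := by
    intro a a' h1 h2 h3 h4
    rcases nx a' h3 with ⟨y, y1, y2, y3⟩ | h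
    · have := h2.2.1 h1 y y1 (by omega); omega
    · have := hx.hi a; omega
  have gQ : ∀ b b', C.Q b → good b → C.Q b' → C.ix b' ≤ C.ix b → x.i b' ≤ x.i b := by
    intro b b' h1 h2 h3 h4
    rcases pv b' h3 with ⟨y, y1, y2, y3⟩ | h
    · have := h2.2.2 h1 y y1 (by omega); omega
    · have := hx.lo b; omega
  have l7 : ∀ s t, C.R s t → x.o s < x.o t := fun s t h => by
    have := hx.arc s t h
    have := hx.sT t (hC.r1 s t h).2.1
    omega
  have l8 : ∀ s t, ReflTransGen C.R s t → s = t ∨ x.o s < x.o t := fun s t h => by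
    induction h with
    | refl => exact Or.inl rfl
    | tail _ h ih =>
      have := l7 _ _ h
      rcases ih with rfl | ih
      · exact Or.inr this
      · exact Or.inr (ih.trans this)
  refine ⟨(x.κ - x.β).toNat, c, by omega, fun v => ?_, fun u v huv a e => ?_,
    fun j j0 jk => ⟨?_, ?_⟩, fun s hs => ?_, fun s t h => ?_⟩
  · have := hx.hi v
    simp only [hc]
    split_ifs <;> omega
  · by_contra h0
    have g1 := c2 u h0
    have g2 := c2 v (e ▸ h0)
    have e1 := c1 u g1
    have e2 := c1 v g2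
    rcases hC.tri u with u1 | u1 | u1 <;> rcases hC.tri v with v1 | v1 | v1
    · rcases lt_trichotomy (C.ix u) (C.ix v) with h | h | h
      · have := g1.2.1 u1 v v1 h; omega
      · exact huv (hC.injP u v u1 v1 h)
      · have := g2.2.1 v1 u u1 h; omega
    · have := f3 u v u1 v1 a; omega
    · have := f1 u v u1 v1 a; omega
    · rcases f6 u v u1 v1 a with h | ⟨a', b', p1, p2, p3, p4, p5⟩
      · omega
      · have := gP v a' v1 g2 p1 p3
        have := gQ u b' u1 g1 p2 p4
        omega
    · rcases lt_trichotomy (C.ix u) (C.ix v) with h | h | h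
      · have := g2.2.2 v1 u u1 h; omega
      · exact huv (hC.injQ u v u1 v1 h)
      · have := g1.2.2 u1 v v1 h; omega
    · rcases f5 u v u1 v1 a with h | ⟨b', p2, p4, p5⟩
      · omega
      · have := gQ u b' u1 g1 p2 p4
        omega
    · rcases f4 u v u1 v1 a with h | ⟨a', p1, p3, p5⟩
      · omega
      · have := gP v a' v1 g2 p1 p3
        omega
    · have := f2 u v u1 v1 a; omega
    · rcases hC.r3 u v u1 v1 a with h | h
      · have := l7 _ _ h; omega
      · rcases l8 _ _ h with h | h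
        · exact huv h.symm
        · omega
  · obtain ⟨a0, p0, i0⟩ := hC.suP 0 hC.m0
    obtain ⟨u, hu, hmax⟩ := Finset.exists_max_image
      (Finset.univ.filter fun u => C.P u ∧ x.i u < x.β + j) C.ix
      ⟨a0, by have := hx.hP a0 p0 i0; simp only [Finset.mem_filter, Finset.mem_univ, true_and]
              exact ⟨p0, by omega⟩⟩
    simp only [Finset.mem_filter, Finset.mem_univ, true_and, and_imp] at hu hmax
    have a1 : ∀ y, C.P y → C.ix u < C.ix y → x.β + j ≤ x.i y := fun y hy h => by
      by_contra h'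
      have := hmax y hy (by omega)
      omega
    have a2 : x.o u = x.β + j := by
      have := hx.st u
      have := hu.2
      rcases nx u hu.1 with ⟨y, hy, h1, h2⟩ | h
      · have := a1 y hy (by omega); omega
      · omega
    have a3 : good u := ⟨by rw [a2]; exact hu.2, fun _ => by rw [a2]; exact a1,
      fun h => absurd h (hC.pq u hu.1)⟩
    exact ⟨u, hu.1, by have := c1 u a3; omega⟩
  · have h0 := hC.n0
    obtain ⟨a0, p0, i0⟩ := hC.suQ (C.n - 1) (by omega)
    obtain ⟨u, hu, hmin⟩ := Finset.exists_min_image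
      (Finset.univ.filter fun u => C.Q u ∧ x.β + j ≤ x.o u) C.ix
      ⟨a0, by have := hx.lQ a0 p0 (by omega)
              simp only [Finset.mem_filter, Finset.mem_univ, true_and]
              exact ⟨p0, by omega⟩⟩
    simp only [Finset.mem_filter, Finset.mem_univ, true_and, and_imp] at hu hmin
    have a1 : ∀ y, C.Q y → C.ix y < C.ix u → x.o y < x.β + j := fun y hy h => by
      by_contra h'
      have := hmin y hy (by omega)
      omega
    have a2 : x.i u + 1 = x.β + j ∧ x.o u = x.β + j := by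
      have := hx.st u
      have := hu.2
      rcases pv u hu.1 with ⟨y, hy, h1, h2⟩ | h
      · have := a1 y hy (by omega); omega
      · omega
    have a3 : good u := ⟨by omega, fun h => absurd hu.1 (hC.pq u h),
      fun _ y hy h => by have := a1 y hy h; omega⟩
    exact ⟨u, hu.1, by have := c1 u a3; omega⟩
  · have := c1 s (gT s hs)
    have := hx.lo s
    omega
  · obtain ⟨h1, h2, -⟩ := hC.r1 s t h
    have := c1 s (gT s h1)
    have := c1 t (gT t h2)
    have := l7 s t h
    omega

end Dat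

open List

theorem chain_idx [DecidableEq V] {r : V → V → Prop} {L : List V} (hn : L.Nodup) :
    L.IsChain r ↔ ∀ u v, u ∈ L → v ∈ L → L.idxOf v = L.idxOf u + 1 → r u v := by
  rw [isChain_iff_getElem]
  constructor
  · intro h u v hu hv e
    have h1 := List.idxOf_lt_length_of_mem hv
    have := h (L.idxOf u) (by omega)
    simp only [← e, List.getElem_idxOf] at this
    exact this
  · intro h i hi
    exact h _ _ (List.getElem_mem _) (List.getElem_mem _) (by
      rw [hn.idxOf_getElem, hn.idxOf_getElem])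

theorem head_idx [DecidableEq V] {L : List V} {u : V} (hu : u ∈ L) (e : L.idxOf u = 0) :
    u ∈ L.head? := by
  have h1 := List.getElem_idxOf (List.idxOf_lt_length_of_mem hu)
  simp only [e] at h1
  rw [List.head?_eq_getElem?, ← h1]
  exact List.getElem?_eq_getElem _

theorem last_idx [DecidableEq V] {L : List V} {u : V} (hu : u ∈ L)
    (e : L.idxOf u + 1 = L.length) : u ∈ L.getLast? := by
  have h1 := List.getElem_idxOf (List.idxOf_lt_length_of_mem hu)
  have e' : L.idxOf u = L.length - 1 := by omega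
  simp only [e'] at h1
  rw [List.getLast?_eq_getElem?, ← h1]
  exact List.getElem?_eq_getElem _

theorem stTWO : St_TWO := by
  intro V _ A k P Q Ss hP hcov hopt
  classical
  have hLs : Pack A Finset.univ [P, Q] := hP.sublist (by simp)
  have hnd := hP.2.1
  rw [flatten_append, List.nodup_append] at hnd
  have hn2 := hnd.1
  simp only [flatten_cons, flatten_nil, append_nil, List.nodup_append] at hn2
  set T := Finset.univ.filter fun x => x ∉ P ∧ x ∉ Q with hT
  have hSs : Pack A T Ss := ⟨fun L hL => hP.1 L (by simp [hL]), hnd.2.1, fun x hx =>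
    Finset.mem_filter.2 ⟨Finset.mem_univ _, fun h => hnd.2.2 x (by simp [h]) x hx rfl,
      fun h => hnd.2.2 x (by simp [h]) x hx rfl⟩⟩
  obtain ⟨R, r, r1, r2, r3⟩ := exists_max_acyclic A T Ss hSs
  have pq : ∀ x, x ∈ P → x ∉ Q := fun x h h' => hn2.2.2 x h x h' rfl
  set ix : V → ℕ := fun x => if x ∈ P then P.idxOf x else Q.idxOf x with hix
  have iP : ∀ x, x ∈ P → ix x = P.idxOf x := fun x h => by simp [hix, h]
  have iQ : ∀ x, x ∈ Q → ix x = Q.idxOf x := fun x h => by
    have : x ∉ P := fun h' => pq x h' h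
    simp [hix, this]
  have cP := hLs.1 P (by simp)
  have cQ := hLs.1 Q (by simp)
  set C : Dat V := ⟨A, (· ∈ P), (· ∈ Q), (· ∈ T), ix, P.length, Q.length, k, R, r⟩ with hCd
  have hC : C.Ok := by
    refine ⟨fun x => ?_, pq, fun x h h' => (Finset.mem_filter.1 h').2.1 h,
      fun x h h' => (Finset.mem_filter.1 h').2.2 h, fun x y hx hy e => ?_,
      fun x y hx hy e => ?_, fun x hx => ?_, fun x hx => ?_, fun u hu => ?_, fun u hu => ?_,
      List.length_pos_of_ne_nil cP.1, List.length_pos_of_ne_nil cQ.1, r1,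
      fun x y hx hy => r3 x hx y hy, fun ζ η z1 z2 => ?_⟩
    · simp only [hCd, hT, Finset.mem_filter, Finset.mem_univ, true_and]; tauto
    · exact (List.idxOf_inj hx).1 (by rw [← iP x hx, ← iP y hy]; exact e)
    · exact (List.idxOf_inj hx).1 (by rw [← iQ x hx, ← iQ y hy]; exact e)
    · exact (iP x hx).trans_lt (List.idxOf_lt_length_of_mem hx)
    · exact (iQ x hx).trans_lt (List.idxOf_lt_length_of_mem hx)
    · exact ⟨P[u], List.getElem_mem _, (iP _ (List.getElem_mem _)).trans (hn2.1.idxOf_getElem _ _)⟩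
    · exact ⟨Q[u], List.getElem_mem _,
        (iQ _ (List.getElem_mem _)).trans (hn2.2.1.idxOf_getElem _ _)⟩
    have hHL : Pack (C.Up ζ η) Finset.univ [P, Q] := ⟨fun L hL => ⟨(hLs.1 L hL).1, by
      simp only [mem_cons, not_mem_nil, or_false] at hL
      rcases hL with rfl | rfl
      · refine (chain_idx hn2.1).2 fun u v hu hv e => ⟨(chain_idx hn2.1).1 cP.2 u v hu hv e, ?_⟩
        have := z1 u v hu hv (by change ix u < ix v; rw [iP u hu, iP v hv]; omega)
        omega
      · refine (chain_idx hn2.2.1).2 fun u v hu hv e =>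
          ⟨(chain_idx hn2.2.1).1 cQ.2 u v hu hv e, ?_⟩
        exact Or.inl (z2 u v hu hv (by change ix u < ix v; rw [iQ u hu, iQ v hv]; omega))⟩, hLs.2⟩
    have hHA : ∀ Ms, Pack (C.Up ζ η) Finset.univ Ms → Pack A Finset.univ Ms :=
      fun Ms h => h.mono le_rfl fun _ _ _ _ h => h.1
    obtain ⟨i, o, κ, k1, k2, l1, l2, l3, l4⟩ := lp (C.Up ζ η) Finset.univ (fun _ => 1) (by simp)
      [P, Q] hHL k k le_rfl
      (mrg_of_rank (fun x => (toLex (ζ x, toLex (η x, r x)) : ℕ ×ₗ ℕ ×ₗ ℕ)) (fun _ _ _ _ h => by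
        simp only [Prod.Lex.toLex_lt_toLex]; exact h.2) _)
      (fun Ms h e => by have := hopt Ms (hHA Ms h); rw [wt_one, wt_one]; rw [e] at this; omega)
      (fun Ms h e => by
        have := hopt Ms (hHA Ms h); rw [wt_one, wt_one]; rw [e, mul_add] at this; omega)
      (fun Ms h e => by
        have := hopt Ms (hHA Ms h); rw [wt_one, wt_one]; rw [← e, mul_add] at this; omega)
    have lP := l4 P (by simp)
    have lQ := l4 Q (by simp)
    refine ⟨⟨i, o, 0, κ⟩, fun v => (l1 v (by simp)).1, fun v => (l1 v (by simp)).2.1,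
      fun v => (l1 v (by simp)).2.2, fun v hv => ?_, fun u v h => ?_, fun u v hu hv e => ?_,
      fun u v hu hv e => ?_, fun u hu e => ?_, fun u hu e => ?_, fun u hu e => ?_,
      fun u hu e => ?_, by simpa using k1⟩
    · have := (Finset.mem_filter.1 hv).2
      exact (l3 v (by simp) (by simpa using this)).ge
    · refine l2 u (by simp) v (by simp) ?_ h
      rintro rfl
      have := h.2; omega
    · exact (chain_idx hn2.1).1 lP.1 u v hu hv (by rw [← iP u hu, ← iP v hv]; exact e)
    · exact (chain_idx hn2.2.1).1 lQ.1 u v hu hv (by rw [← iQ u hu, ← iQ v hv]; exact e)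
    · exact lP.2.1 u (head_idx hu (by rw [← iP u hu]; exact e))
    · exact lQ.2.1 u (head_idx hu (by rw [← iQ u hu]; exact e))
    · exact lP.2.2 u (last_idx hu (by rw [← iP u hu]; exact e))
    · exact lQ.2.2 u (last_idx hu (by rw [← iQ u hu]; exact e))
  obtain ⟨K, c, c0, c1, c2, c3, c4, c5⟩ := Dat.colouring hC
  refine ⟨K, c, c0, fun x _ => c1 x, fun u _ v _ => c2 u v, fun L hL j j0 jk => ?_,
    fun L hL => ⟨fun x hx => c4 x (hSs.2.2 x (mem_flatten.2 ⟨L, hL, hx⟩)), ?_⟩⟩
  · simp only [mem_cons, not_mem_nil, or_false] at hL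
    rcases hL with rfl | rfl
    · exact (c3 j j0 jk).1
    · exact (c3 j j0 jk).2
  · have : IsChain (· < ·) (L.map c) := by
      rw [isChain_map]
      exact (r2 L hL).imp fun a b h => c5 a b h
    exact this.pairwise.imp ne_of_lt

end Pool.Agent.Lib.MP_6d5d56_co.T2
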