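import Pool.Agent.Lib.MP_6d5d56_co.T2Fin
import Pool.Agent.Lib.MP_6d5d56_co.T2All
import Pool.Agent.Lib.MP_6d5d56_co.T2Sel35
import Pool.Agent.Lib.MP_6d5d56_co.T2Two

/-! Partitions of value at most `3 * k`, or digraphs with at most `3 * k + 2` vertices. -/

set_option autoImplicit false

namespace Pool.Agent.Lib.MP_6d5d56_co.T2

open List
open scoped Classical

variable {V : Type}

theorem long_le (k : ℕ) : ∀ Ls : List (List V), (∀ L ∈ Ls, k < L.length) →
    k * Ls.length + Ls.length ≤ Ls.flatten.length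
  | [], _ => by simp
  | L :: Ls, h => by
    have := long_le k Ls fun M hM => h M (mem_cons_of_mem _ hM)
    have := h L mem_cons_self
    simp only [length_cons, flatten_cons, length_append, mul_add]; omega

theorem small' [Fintype V] (A : V → V → Prop) (k : ℕ) (Ls Ss : List (List V))
    (hv : k * Ls.length + Ss.flatten.length ≤ 3 * k ∨
      k * Ls.length + Ls.length + Ss.flatten.length ≤ 3 * k + 2)
    (hP : Pack A Finset.univ (Ls ++ Ss))
    (hc : ∀ x ∈ (Finset.univ : Finset V), x ∈ (Ls ++ Ss).flatten)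
    (ho : Opt A Finset.univ k Ls) : ∃ c, Col A Finset.univ k Ls Ss c := by
  by_cases h1 : Ls.length ≤ 1
  · exact berge_one k Ls Ss hP hc ho h1
  · exact small stALL stSEL' stTWO A k Ls Ss (by omega) hP hc ho

theorem threeK [Fintype V] (G : Digraph V) (k : ℕ) (Ps : Finset (List V))
    (hv : ∑ P ∈ Ps, min P.length k ≤ 3 * k ∨ Fintype.card V ≤ 3 * k + 2)
    (h1 : ∀ P ∈ Ps, P ≠ [] ∧ P.Nodup ∧
      ∀ (i : ℕ) (u v : V), P[i]? = some u → P[i+1]? = some v → G.Adj u v)
    (h2 : ∀ v : V, ∃! P, P ∈ Ps ∧ v ∈ P)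
    (h3 : ∀ Qs : Finset (List V),
      (∀ Q ∈ Qs, Q ≠ [] ∧ Q.Nodup ∧
        ∀ (i : ℕ) (u v : V), Q[i]? = some u → Q[i+1]? = some v → G.Adj u v) →
      (∀ v : V, ∃! Q, Q ∈ Qs ∧ v ∈ Q) →
      ∑ P ∈ Ps, min P.length k ≤ ∑ Q ∈ Qs, min Q.length k) :
    ∃ C : Fin k → Finset V,
      (∀ i j, i ≠ j → Disjoint (C i) (C j)) ∧
      (∀ i, ∀ u ∈ C i, ∀ v ∈ C i, u ≠ v → ¬ G.Adj u v) ∧
      ∀ P ∈ Ps, (Finset.univ.filter (fun i : Fin k => ∃ v ∈ P, v ∈ C i)).card
        = min P.length k := by
  set Ls := Ps.toList.filter fun P => k < P.length with hLs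
  set Ss := Ps.toList.filter fun P => !decide (k < P.length) with hSs
  have hp : Ls ++ Ss ~ Ps.toList := List.filter_append_perm _ _
  have hP : Pack G.Adj Finset.univ (Ls ++ Ss) := by
    refine Pack.perm (Ls := Ps.toList) ⟨fun L hL => ?_, ?_, by simp⟩ hp.symm
    · rw [Finset.mem_toList] at hL
      exact ⟨(h1 L hL).1, chain_iff.2 (h1 L hL).2.2⟩
    · rw [List.nodup_flatten]
      refine ⟨fun L hL => (h1 L (Finset.mem_toList.1 hL)).2.1,
        Ps.nodup_toList.imp_of_mem fun {a b} ha hb h x x1 x2 => h ?_⟩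
      exact (h2 x).unique ⟨Finset.mem_toList.1 ha, x1⟩ ⟨Finset.mem_toList.1 hb, x2⟩
  have hc : ∀ x ∈ (Finset.univ : Finset V), x ∈ (Ls ++ Ss).flatten := fun x _ => by
    obtain ⟨P, h, -⟩ := h2 x
    exact mem_flatten.2 ⟨P, hp.mem_iff.2 (Finset.mem_toList.2 h.1), h.2⟩
  have l1 : ∀ L ∈ Ls, k < L.length := fun L hL => by simpa using (List.mem_filter.1 hL).2
  have l2 : ∀ L ∈ Ss, L.length ≤ k := fun L hL => by simpa using (List.mem_filter.1 hL).2
  have e1 : ∑ P ∈ Ps, min P.length k = k * Ls.length + Ss.flatten.length := by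
    rw [← sum_min_eq k Ls Ss l1 l2, (hp.map _).sum_eq, Finset.sum_map_toList]
  have e2 : Ls.flatten.length + Ss.flatten.length = Fintype.card V := by
    rw [← length_append, ← flatten_append, ← List.toFinset_card_of_nodup hP.2.1,
      Finset.eq_univ_of_forall fun x => List.mem_toFinset.2 (hc x (Finset.mem_univ x)),
      Finset.card_univ]
  obtain ⟨c, c1, c2, c3, c4⟩ := small' G.Adj k Ls Ss
    (by have := long_le k Ls l1; omega) hP hc (by
    intro Ms hM
    set l := (Finset.univ \ Ms.flatten.toFinset).toList with hl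
    have a1 : ∀ x, x ∈ l ↔ x ∉ Ms.flatten := fun x => by
      rw [hl, Finset.mem_toList, Finset.mem_sdiff, List.mem_toFinset]; simp
    have a2 : l.length + Ms.flatten.length = Fintype.card V := by
      rw [hl, Finset.length_toList, ← List.toFinset_card_of_nodup hM.2.1,
        Finset.card_sdiff_add_card_eq_card (Finset.subset_univ _), Finset.card_univ]
    have a3 : Pack G.Adj Finset.univ (Ms ++ l.map fun x => [x]) := by
      refine ⟨fun L hL => ?_, ?_, by simp⟩
      · rcases mem_append.1 hL with h | h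
        · exact hM.1 L h
        · obtain ⟨x, -, rfl⟩ := List.mem_map.1 h; simp
      · rw [flatten_append, flatten_singletons, List.nodup_append]
        exact ⟨hM.2.1, Finset.nodup_toList _, fun a ha b hb e => (a1 b).1 hb (e ▸ ha)⟩
    have a4 := h3 (Ms ++ l.map fun x => [x]).toFinset (fun Q hQ => by
      rw [List.mem_toFinset] at hQ
      exact ⟨(a3.1 Q hQ).1, a3.nodup_mem hQ, chain_iff.1 (a3.1 Q hQ).2⟩) (fun v => by
      have : v ∈ (Ms ++ l.map fun x => [x]).flatten := by
        rw [flatten_append, flatten_singletons, mem_append, a1]; tauto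
      obtain ⟨Q, hQ, hv⟩ := mem_flatten.1 this
      exact ⟨Q, ⟨List.mem_toFinset.2 hQ, hv⟩, fun Q' h =>
        eq_of_mem_mem a3.2.1 (List.mem_toFinset.1 h.1) hQ h.2 hv⟩)
    rw [List.sum_toFinset _ (nodup_of_flatten (fun L hL => (a3.1 L hL).1) a3.2.1)] at a4
    have := sum_min_le k Ms l
    omega)
  refine ⟨fun i => Finset.univ.filter fun x => c x = i + 1, fun i j h => ?_,
    fun i u hu v hv h a => ?_, fun P hPs => ?_⟩
  · rw [Finset.disjoint_filter]
    exact fun x _ e e' => h (Fin.ext (by omega))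
  · rw [Finset.mem_filter] at hu hv
    have := c2 u hu.1 v hv.1 h a (by omega)
    omega
  · simp only [Finset.mem_filter, Finset.mem_univ, true_and]
    rcases mem_append.1 (hp.mem_iff.2 (Finset.mem_toList.2 hPs)) with h | h
    · rw [min_eq_right (l1 P h).le, Finset.filter_true_of_mem fun (i : Fin k) _ =>
        c3 P h (i + 1) (by omega) i.2, Finset.card_univ, Fintype.card_fin]
    · rw [min_eq_left (l2 P h), ← List.length_map c, ← List.toFinset_card_of_nodup (c4 P h).2]
      refine Finset.card_bij (fun i _ => (i : ℕ) + 1) (fun i hi => ?_)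
        (fun i _ j _ e => Fin.ext (by simpa using e)) fun n hn => ?_
      · obtain ⟨v, hv, e⟩ := (Finset.mem_filter.1 hi).2
        exact List.mem_toFinset.2 (List.mem_map.2 ⟨v, hv, e⟩)
      · obtain ⟨v, hv, rfl⟩ := List.mem_map.1 (List.mem_toFinset.1 hn)
        have := c1 v (Finset.mem_univ v)
        have := (c4 P h).1 v hv
        exact ⟨⟨c v - 1, by omega⟩, Finset.mem_filter.2 ⟨Finset.mem_univ _, v, hv,
          by simp only; omega⟩, by simp only; omega⟩

end Pool.Agent.Lib.MP_6d5d56_co.T2
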