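import Pool.Agent.Lib.MP_6d5d56_co.T2Blue

/-! Selecting `k` of the `K` colours, keeping all colours of the short paths. -/

set_option autoImplicit false

namespace Pool.Agent.Lib.MP_6d5d56_co.T2

theorem sel_relabel (J : Finset ℕ) (k : ℕ) (hJ : J.card = k) :
    ∃ f : ℕ → ℕ, (∀ n, f n ≤ k) ∧ (∀ n, n ∈ J → f n ≠ 0) ∧
      (∀ m n, f m = f n → f m ≠ 0 → m = n) ∧ ∀ j, 0 < j → j ≤ k → ∃ n ∈ J, f n = j := by
  classical
  let e := J.orderIsoOfFin hJ
  refine ⟨fun n => if h : n ∈ J then (e.symm ⟨n, h⟩ : ℕ) + 1 else 0, ?_, ?_, ?_, ?_⟩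
  · intro n
    by_cases h : n ∈ J
    · simp only [h, dif_pos]
      exact (e.symm ⟨n, h⟩).2
    · simp [h]
  · intro n h
    simp [h]
  · intro m n hmn h0
    by_cases hm : m ∈ J
    · by_cases hn : n ∈ J
      · simp only [hm, hn, dif_pos, Nat.add_right_cancel_iff] at hmn
        have := e.symm.injective (Fin.ext hmn)
        exact congrArg Subtype.val this
      · simp [hm, hn] at hmn
    · simp [hm] at h0
  · intro j h0 hj
    refine ⟨(e ⟨j - 1, by omega⟩ : ℕ), (e ⟨j - 1, by omega⟩).2, ?_⟩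
    simp only [(e ⟨j - 1, by omega⟩).2, dif_pos, Subtype.coe_eta, OrderIso.symm_apply_apply]
    omega

theorem stSEL : St_SEL := by
  classical
  intro V A S k K Ls Ss c hk hl hS hc
  obtain ⟨h1, h2, h3, h4⟩ := hc
  have hsub : (Ss.flatten.map c).toFinset ⊆ Finset.Icc 1 K := by
    intro n hn
    rw [List.mem_toFinset, List.mem_map] at hn
    obtain ⟨x, hx, rfl⟩ := hn
    have hx' := hx
    rw [List.mem_flatten] at hx'
    obtain ⟨L, hL, hxL⟩ := hx'
    have := (h4 L hL).1 x hxL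
    have := h1 x (hS x hx)
    rw [Finset.mem_Icc]
    omega
  have hcard : (Ss.flatten.map c).toFinset.card ≤ k :=
    (List.toFinset_card_le _).trans (by rw [List.length_map]; exact hl)
  obtain ⟨J, hJ1, hJ2, hJ⟩ := Finset.exists_subsuperset_card_eq hsub hcard
    (by simpa using hk)
  obtain ⟨f, f1, f2, f3, f4⟩ := sel_relabel J k hJ
  have hmem : ∀ L ∈ Ss, ∀ x ∈ L, c x ∈ J := by
    intro L hL x hx
    apply hJ1
    rw [List.mem_toFinset, List.mem_map]
    exact ⟨x, List.mem_flatten.2 ⟨L, hL, hx⟩, rfl⟩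
  refine ⟨fun x => f (c x), fun x _ => f1 _, ?_, ?_, ?_⟩
  · intro u hu v hv huv ha he
    by_contra h0
    have hcc := f3 _ _ he h0
    have hz := h2 u hu v hv huv ha hcc
    by_cases hin : c u ∈ J
    · have := Finset.mem_Icc.1 (hJ2 hin)
      omega
    · obtain ⟨n, hn, hfn⟩ := f4 (f (c u)) (Nat.pos_of_ne_zero h0) (f1 _)
      have := f3 _ _ hfn (f2 n hn)
      exact hin (this ▸ hn)
  · intro L hL j h0 hj
    obtain ⟨n, hn, hfn⟩ := f4 j h0 hj
    have := Finset.mem_Icc.1 (hJ2 hn)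
    obtain ⟨x, hx, hcx⟩ := h3 L hL n (by omega) this.2
    exact ⟨x, hx, by simp only [hcx, hfn]⟩
  · intro L hL
    refine ⟨fun x hx => f2 _ (hmem L hL x hx), ?_⟩
    have hn := (h4 L hL).2
    have : L.map (fun x => f (c x)) = (L.map c).map f := by simp [List.map_map, Function.comp_def]
    rw [this]
    refine hn.map_on ?_
    intro m hm n _ hmn
    rw [List.mem_map] at hm
    obtain ⟨x, hx, rfl⟩ := hm
    exact f3 _ _ hmn (f2 _ (hmem L hL x hx))

end Pool.Agent.Lib.MP_6d5d56_co.T2
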