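import Pool.Agent.Lib.MP_6d5d56_co.T2Core

/-! Two long paths: one stage. -/

set_option autoImplicit false

namespace Pool.Agent.Lib.MP_6d5d56_co.T2

open H35 Relation

variable {V : Type}

/-- nodes of the constraint system -/
inductive Nd (V : Type)
  | S : Nd V
  | I : V → Nd V
  | O : V → Nd V

/-- value of a potential at a node -/
def Pt.val (x : Pt V) : Nd V → ℤ
  | .S => x.β
  | .I v => x.i v
  | .O v => x.o v

namespace Dat

variable (C : Dat V)

/-- candidates for promotion at stage `j` -/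
def Cand (ζ : V → ℕ) (j : ℕ) (s : V) : Prop :=
  C.T s ∧ ζ s = j ∧ ¬ ∃ b, C.Q b ∧ C.ix b = j ∧ C.To s b

/-- fixed arcs of the lower system -/
inductive Arc0 (ζ : V → ℕ) (j : ℕ) : Nd V → Nd V → ℤ → Prop
  | lo (v : V) : ζ v ≤ j → Arc0 ζ j .S (.I v) 0
  | st (v : V) : ζ v ≤ j → Arc0 ζ j (.O v) (.I v) (-1)
  | sT (v : V) : ζ v ≤ j → C.T v → Arc0 ζ j (.I v) (.O v) 1
  | arc (u v : V) : ζ v ≤ j → C.H ζ u v → ¬ (C.Cand ζ j u ∧ C.P v) → Arc0 ζ j (.O u) (.I v) 0
  | nP (u v : V) : C.P u → C.P v → C.ix v = C.ix u + 1 → ζ v ≤ j → Arc0 ζ j (.I v) (.O u) 0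
  | nP' (u v : V) : C.P u → C.P v → C.ix v = C.ix u + 1 → ζ v ≤ j → Arc0 ζ j (.O u) (.I v) 0
  | nQ (u v : V) : C.Q u → C.Q v → C.ix v = C.ix u + 1 → ζ u ≤ j → Arc0 ζ j (.I v) (.O u) 0
  | nQ' (u v : V) : C.Q u → C.Q v → C.ix v = C.ix u + 1 → ζ v ≤ j → Arc0 ζ j (.O u) (.I v) 0
  | hP (u : V) : C.P u → C.ix u = 0 → Arc0 ζ j (.I u) .S 0
  | hQ (u : V) : C.Q u → C.ix u = 0 → Arc0 ζ j (.I u) .S 0

/-- switchable arcs -/
def Arc1 (ζ : V → ℕ) (j : ℕ) (s : V) (v : Nd V) (c : ℤ) : Prop :=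
  ∃ a, C.P a ∧ ζ a ≤ j ∧ C.H ζ s a ∧ v = .I a ∧ c = 1

open scoped Classical in
/-- sources -/
noncomputable def src (a b : V) (v : Nd V) : ℤ := if v = .O a ∨ v = .I b then 0 else -C.m

/-- minimal potentials -/
def Min (ζ : V → ℕ) (x : Pt V) : Prop :=
  C.Pot (C.H ζ) x ∧ ∀ y, C.Pot (C.H ζ) y → y.κ = x.κ → (∀ v, y.o v ≤ x.o v) → ∀ v, x.o v ≤ y.o v

/-- the outcome of stage `j` -/
def Good (j : ℕ) (ζ : V → ℕ) : Prop :=
  (∀ x, C.Min ζ x → ∀ s b, C.T s → C.Q b → C.ix b = j → ζ s = j → x.o s ≤ x.i b) ∧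
  ∀ x, C.Pot (C.H ζ) x → ∀ s a, C.T s → C.P a → C.lw s ≤ j → j < ζ s → C.w a = j →
    ∃ a', C.P a' ∧ C.ix a ≤ C.ix a' ∧ x.o a' ≤ x.i s

variable {C}

theorem exists_min [Fintype V] (hC : C.Ok) {ζ : V → ℕ} (hz : C.Adm ζ) : ∃ x, C.Min ζ x := by
  obtain ⟨x0, h0⟩ := exists_pot hC hz
  obtain ⟨z, ⟨x, hx, rfl⟩, hz⟩ := Int.exists_least_of_bdd
    (P := fun z => ∃ x, C.Pot (C.H ζ) x ∧ ∑ v, (x.o v - x.κ) = z)
    ⟨∑ _v : V, -(C.m : ℤ), by
      rintro z ⟨x, hx, rfl⟩
      refine Finset.sum_le_sum fun v _ => ?_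
      have := pot_range hC hx
      have := pot_olo hC hx v
      omega⟩ ⟨_, x0, h0, rfl⟩
  refine ⟨x, hx, fun y hy e h v => ?_⟩
  by_contra hv
  have := hz _ ⟨y, hy, rfl⟩
  have h2 : ∑ v, (y.o v - y.κ) < ∑ v, (x.o v - x.κ) :=
    Finset.sum_lt_sum (fun u _ => by have := h u; omega) ⟨v, Finset.mem_univ _, by omega⟩
  omega

theorem sol_of_pot (hC : C.Ok) {ζ : V → ℕ} {j : ℕ} {H' : V → V → Prop} {x : Pt V}
    (hx : C.Pot H' x) {a b : V} (X : Finset V) (hg : x.o a ≤ x.i b)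
    (h0 : ∀ u v, ζ v ≤ j → C.H ζ u v → ¬ (C.Cand ζ j u ∧ C.P v) → H' u v)
    (h1 : ∀ s ∈ X, C.T s ∧ ∀ v, C.P v → ζ v ≤ j → C.H ζ s v → H' s v) :
    Sol (C.Arc0 ζ j) (C.Arc1 ζ j) Nd.I (C.src a b) X fun v => x.val v - x.o a := by
  refine ⟨fun v => ?_, fun u v c h => ?_, fun s hs v c h => ?_⟩
  · have := pot_range hC hx
    have := hx.hi a
    have := hx.rg
    unfold src
    split_ifs with h
    · rcases h with rfl | rfl <;> simp only [Pt.val] <;> omega
    · cases v with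
      | S => simp only [Pt.val]; omega
      | I v => have := hx.lo v; simp only [Pt.val]; omega
      | O v => have := pot_olo hC hx v; simp only [Pt.val]; omega
  · cases h with
    | lo v _ => have := hx.lo v; simp only [Pt.val]; omega
    | st v _ => have := hx.st v; simp only [Pt.val]; omega
    | sT v _ h => have := hx.sT v h; simp only [Pt.val]; omega
    | arc u v e1 e2 e3 => have := hx.arc u v (h0 u v e1 e2 e3); simp only [Pt.val]; omega
    | nP u v e1 e2 e3 _ => have := hx.nP u v e1 e2 e3; simp only [Pt.val]; omega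
    | nP' u v e1 e2 e3 _ => have := hx.nP u v e1 e2 e3; simp only [Pt.val]; omega
    | nQ u v e1 e2 e3 _ => have := hx.nQ u v e1 e2 e3; simp only [Pt.val]; omega
    | nQ' u v e1 e2 e3 _ => have := hx.nQ u v e1 e2 e3; simp only [Pt.val]; omega
    | hP u e1 e2 => have := hx.hP u e1 e2; simp only [Pt.val]; omega
    | hQ u e1 e2 => have := hx.hQ u e1 e2; simp only [Pt.val]; omega
  · obtain ⟨v, e1, e2, e3, rfl, rfl⟩ := h
    have := hx.arc s v ((h1 s hs).2 v e1 e2 e3)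
    have := hx.sT s (h1 s hs).1
    simp only [Pt.val]; omega

/-- lower part of a potential replaced by the minimum with a solution of the lower system -/
noncomputable def glue (ζ : V → ℕ) (j : ℕ) (x : Pt V) (q : ℤ) (h : Nd V → ℤ) : Pt V where
  i v := if ζ v ≤ j then min (x.i v) (q + h (.I v)) else x.i v
  o v := if ζ v ≤ j then min (x.o v) (q + h (.O v)) else x.o v
  β := min x.β (q + h .S)
  κ := x.κ

theorem glue_pot (hC : C.Ok) {ζ ζ' : V → ℕ} (hz' : C.Adm ζ') {j : ℕ} {x : Pt V}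
    (hx : C.Pot (C.H ζ') x) {a b : V} (ha : C.P a) (hb : C.Q b) (hbj : C.ix b = j)
    (haj : C.w a ≤ j) (hmax : ∀ u, C.P u → C.w u ≤ j → C.ix u ≤ C.ix a) (hg : x.o a ≤ x.i b)
    {X : Finset V} {h : Nd V → ℤ} (hs : Sol (C.Arc0 ζ j) (C.Arc1 ζ j) Nd.I (C.src a b) X h)
    (e1 : ∀ v, ζ' v ≤ j → ζ v = ζ' v ∧ (C.Cand ζ j v → v ∈ X)) :
    C.Pot (C.H ζ') (glue ζ' j x (x.i b) h) := by
  have s0 := hs.2.1
  have sa : 0 ≤ h (.O a) := by have := hs.1 (.O a); simpa [src] using this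
  have sb : 0 ≤ h (.I b) := by have := hs.1 (.I b); simpa [src] using this
  have l1 : ∀ v, ζ' v ≤ j → ζ v ≤ j := fun v hv => by have := (e1 v hv).1; omega
  refine ⟨fun v => ?_, fun v => ?_, fun v => ?_, fun v hv => ?_, fun u v huv => ?_,
    fun u v hu hv e => ?_, fun u v hu hv e => ?_, fun u hu e => ?_, fun u hu e => ?_,
    fun u hu e => ?_, fun u hu e => ?_, ?_⟩
  · have := hx.lo v
    simp only [glue]
    split_ifs with hv
    · have := s0 _ _ _ (.lo v (l1 v hv)); omega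
    · omega
  · have := hx.hi v
    simp only [glue]
    split_ifs <;> omega
  · have := hx.st v
    simp only [glue]
    split_ifs with hv
    · have := s0 _ _ _ (.st v (l1 v hv)); omega
    · omega
  · have := hx.sT v hv
    simp only [glue]
    split_ifs with hv'
    · have := s0 _ _ _ (.sT v (l1 v hv') hv); omega
    · omega
  · have := hx.arc u v huv
    simp only [glue]
    by_cases hv : ζ' v ≤ j
    · have hu : ζ' u ≤ j := by have := huv.2; omega
      rw [if_pos hv, if_pos hu]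
      have hH : C.H ζ u v := ⟨huv.1, by rw [(e1 u hu).1, (e1 v hv).1]; exact huv.2⟩
      by_cases hc : C.Cand ζ j u ∧ C.P v
      · have := hs.2.2 u ((e1 u hu).2 hc.1) _ _ ⟨v, hc.2, l1 v hv, hH, rfl, rfl⟩
        have := s0 _ _ _ (.st u (l1 u hu))
        omega
      · have := s0 _ _ _ (.arc u v (l1 v hv) hH hc); omega
    · rw [if_neg hv]; split_ifs <;> omega
  · have := hx.nP u v hu hv e
    have := w_mono (C := C) (show C.ix u ≤ C.ix v by omega)
    have z1 := hz'.zP u hu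
    have z2 := hz'.zP v hv
    simp only [glue]
    by_cases h2 : ζ' v ≤ j
    · rw [if_pos h2, if_pos (by omega)]
      have := s0 _ _ _ (.nP u v hu hv e (l1 v h2))
      have := s0 _ _ _ (.nP' u v hu hv e (l1 v h2))
      omega
    · rw [if_neg h2]
      split_ifs with h1
      · have := hmax u hu (by omega)
        have : ¬ C.ix v ≤ C.ix a := fun h => by have := w_mono (C := C) h; omega
        obtain rfl := hC.injP u a hu ha (by omega)
        omega
      · omega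
  · have := hx.nQ u v hu hv e
    have z1 := hz'.zQ u hu
    have z2 := hz'.zQ v hv
    simp only [glue]
    by_cases h2 : ζ' v ≤ j
    · rw [if_pos h2, if_pos (by omega)]
      have := s0 _ _ _ (.nQ u v hu hv e (l1 u (by omega)))
      have := s0 _ _ _ (.nQ' u v hu hv e (l1 v h2))
      omega
    · rw [if_neg h2]
      split_ifs with h1
      · obtain rfl := hC.injQ v b hv hb (by omega)
        have := s0 _ _ _ (.nQ u v hu hv e (l1 u h1))
        omega
      · omega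
  · have := hx.hP u hu e
    have := w_mono (C := C) (show C.ix u ≤ C.ix a by omega)
    have z1 := hz'.zP u hu
    have h1 : ζ' u ≤ j := by omega
    have := s0 _ _ _ (.hP u hu e)
    have := s0 _ _ _ (.lo u (l1 u h1))
    simp only [glue, if_pos h1]; omega
  · have := hx.hQ u hu e
    have z1 := hz'.zQ u hu
    have := s0 _ _ _ (.hQ u hu e)
    simp only [glue]
    split_ifs with h1
    · have := s0 _ _ _ (.lo u (l1 u h1)); omega
    · obtain rfl := hC.injQ u b hu hb (by omega)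
      omega
  · have := hx.lP u hu e
    have z1 := hz'.zP u hu
    simp only [glue]
    split_ifs with h1
    · have := hmax u hu (by omega)
      have := hC.ltP a ha
      obtain rfl := hC.injP u a hu ha (by omega)
      omega
    · omega
  · have := hx.lQ u hu e
    have z1 := hz'.zQ u hu
    have := hC.ltQ b hb
    simp only [glue]
    rw [if_neg (by omega)]; omega
  · have := hx.rg
    simp only [glue]; omega

open scoped Classical in
/-- promote the candidates outside `X` -/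
noncomputable def bump (C : Dat V) (ζ : V → ℕ) (j : ℕ) (X : Finset V) (v : V) : ℕ :=
  if C.Cand ζ j v ∧ v ∉ X then j + 1 else ζ v

theorem cand_tail (hC : C.Ok) {ζ : V → ℕ} {j : ℕ} {s t : V} (h : C.Cand ζ j s) (hR : C.R s t)
    (ht : ζ t = j) : C.Cand ζ j t :=
  ⟨(hC.r1 s t hR).2.1, ht, fun ⟨b, h1, h2, u, h3, h4, h5⟩ =>
    h.2.2 ⟨b, h1, h2, u, h3, .head hR h4, h5⟩⟩

theorem bump_adm (hC : C.Ok) {ζ : V → ℕ} (hz : C.Adm ζ) {j : ℕ} {X : Finset V}
    (hX : ∀ s t, C.R s t → C.Cand ζ j s → s ∉ X → C.Cand ζ j t → t ∉ X) :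
    C.Adm (C.bump ζ j X) := by
  refine ⟨fun a ha => ?_, fun b hb => ?_, fun s t h => ?_, fun s hs => ?_, fun s b hs hb h => ?_⟩
  · rw [bump, if_neg fun h => hC.pt a ha h.1.1]; exact hz.zP a ha
  · rw [bump, if_neg fun h => hC.qt b hb h.1.1]; exact hz.zQ b hb
  · have := hz.mono s t h
    unfold bump
    split_ifs with h1 h2 h2
    · exact le_rfl
    · have := h1.1.2.1
      by_contra h3
      have h4 := cand_tail hC h1.1 h (by omega)
      exact h2 ⟨h4, hX s t h h1.1 h1.2 h4⟩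
    · have := h2.1.2.1; omega
    · exact this
  · have := hz.fr s hs
    unfold bump
    split_ifs with h1
    · have := h1.1.2.1; omega
    · exact this
  · have := hz.tb s b hs hb h
    unfold bump
    split_ifs with h1
    · have := h1.1.2.1
      by_contra h3
      exact h1.1.2.2 ⟨b, hb, by omega, s, hs, .refl, h⟩
    · exact this

theorem bump_low {ζ ζ' : V → ℕ} {j : ℕ} {X : Finset V}
    (e : ∀ v, min (ζ' v) (j + 1) = min (C.bump ζ j X v) (j + 1)) (v : V) :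
    (ζ' v ≤ j → ζ v = ζ' v ∧ (C.Cand ζ j v → v ∈ X)) ∧ (ζ v ≤ j → ζ v ≤ ζ' v) ∧
      (ζ v ≤ j → ζ v = ζ' v ∨ C.Cand ζ j v ∧ v ∉ X) := by
  have := e v
  unfold bump at this
  split_ifs at this with h1
  · exact ⟨fun _ => by omega, fun _ => by omega, fun _ => Or.inr h1⟩
  · exact ⟨fun _ => ⟨by omega, fun h => by tauto⟩, fun _ => by omega, fun _ => Or.inl (by omega)⟩

theorem stage [Fintype V] (hC : C.Ok) {ζ : V → ℕ} (hz : C.Adm ζ) {j : ℕ} (hj : j < C.n)
    (hb : ∀ s, C.T s → ζ s ≤ max j (C.lw s)) :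
    ∃ X, C.Adm (C.bump ζ j X) ∧ ∀ ζ', C.Adm ζ' →
      (∀ v, min (ζ' v) (j + 1) = min (C.bump ζ j X v) (j + 1)) → C.Good j ζ' := by
  classical
  have nc : ∀ ζ', C.Adm ζ' → ∀ x, C.Pot (C.H ζ') x → ∀ s b, C.T s → C.Q b → C.ix b = j →
      ζ s = j → ¬ C.Cand ζ j s → x.o s ≤ x.i b := by
    intro ζ' hz' x hx s b hs hb e1 e2 hc
    obtain ⟨b', h1, h2, h3⟩ : ∃ b, C.Q b ∧ C.ix b = j ∧ C.To s b := by
      by_contra h; exact hc ⟨hs, e2, h⟩
    obtain rfl := hC.injQ b b' hb h1 (by omega)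
    exact pot_to hC hz' hx hs hb h3
  by_cases hw : ∃ a, C.P a ∧ C.w a = j
  swap
  · refine ⟨∅, bump_adm hC hz (by simp), fun ζ' hz' e => ⟨fun x hx s b hs hb e1 e2 => ?_,
      fun x _ s a _ ha _ _ h => absurd ⟨a, ha, h⟩ hw⟩⟩
    have := (bump_low e s).1 e2.le
    exact nc ζ' hz' x hx.1 s b hs hb e1 (by omega) fun h => by simpa using this.2 h
  obtain ⟨a0, p0, w0⟩ := hw
  obtain ⟨a, ha, hmax⟩ := Finset.exists_max_image
    (Finset.univ.filter fun a => C.P a ∧ C.w a ≤ j) C.ix ⟨a0, by simp [p0, w0]⟩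
  simp only [Finset.mem_filter, Finset.mem_univ, true_and, and_imp] at ha hmax
  have wa : C.w a = j := by
    have := w_mono (C := C) (hmax a0 p0 w0.le); omega
  obtain ⟨a', b, pa', qb, le1, dir, ib⟩ := w_spec (C := C) (a := a) (by omega)
  obtain rfl : a = a' := hC.injP a a' ha.1 pa' (by
    have := hmax a' pa' (by have := w_le pa' qb le_rfl dir; omega); omega)
  obtain ⟨p, hp⟩ := exists_pot hC hz
  obtain ⟨X, hXU, h, h1, h2, h3⟩ := kernel _ (Finset.univ.filter (C.Cand ζ j))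
    (sol_of_pot (ζ := ζ) (j := j) hC hp _ (pot_dir hC hz hp pa' qb dir) (fun u v _ h _ => h)
      fun s hs => ⟨(Finset.mem_filter.1 hs).2.1, fun v _ _ h => h⟩)
  simp only [Finset.mem_filter, Finset.mem_univ, true_and] at h3
  refine ⟨X, bump_adm hC hz fun s t hR c1 n1 c2 n2 => ?_, fun ζ' hz' e =>
    ⟨fun x hx s b' hs hb' e1 e2 => ?_, fun x hx s a1 hs ha1 e1 e2 e3 => ?_⟩⟩
  · have := (h3 s c1).not.1 n1
    have := (h3 t c2).1 n2
    have := h1.2.1 _ _ _ (.sT s c1.2.1.le c1.1)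
    have := h1.2.1 _ _ _ (.arc s t c2.2.1.le (H_R hC hz hR) fun h => hC.pt t h.2 c2.1)
    omega
  · have l := (bump_low e s).1 e2.le
    by_cases hc : C.Cand ζ j s
    · obtain rfl := hC.injQ b b' qb hb' (by omega)
      have g := glue_pot hC hz' hx.1 pa' qb e1 ha.2 hmax (pot_dir hC hz' hx.1 pa' qb dir) h1
        fun v => (bump_low e v).1
      have := hx.2 _ g rfl (fun v => by simp only [glue]; split_ifs <;> omega) s
      simp only [glue, if_pos e2.le] at this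
      have := (h3 s hc).1 (l.2 hc)
      have := h1.2.1 _ _ _ (.st s hc.2.1.le)
      omega
    · exact nc ζ' hz' x hx.1 s b' hs hb' e1 (by omega) hc
  · refine ⟨a, pa', hmax a1 ha1 e3.le, ?_⟩
    have zs : ζ s ≤ j := by have := hb s hs; omega
    obtain ⟨c1, n1⟩ := ((bump_low e s).2.2 zs).resolve_left (by omega)
    have := (h3 s c1).not.1 n1
    have := h2 _ (sol_of_pot (ζ := ζ) (j := j) hC hx X (pot_dir hC hz' hx pa' qb dir)
      (fun u v hv huv hc => ?_) fun t ht => ?_) (.I s)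
    · simp only [Pt.val] at this; omega
    · have hu : ζ u ≤ j := by have := huv.2; omega
      have := (bump_low e v).2.1 hv
      rcases (bump_low e u).2.2 hu with e4 | e4
      · exact ⟨huv.1, by have := huv.2; omega⟩
      · rcases hC.tri v with h | h | h
        · exact absurd ⟨e4.1, h⟩ hc
        · have := hz.tb u v e4.1.1 h huv.1
          have := hz.zQ v h
          have := e4.1.2.1
          omega
        · exact H_R hC hz' (R_of_H hC hz e4.1.1 h huv)
    · have c := (Finset.mem_filter.1 (hXU ht)).2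
      refine ⟨c.1, fun v _ hv huv => ?_⟩
      have := (bump_low e v).2.1 hv
      have := ((bump_low e t).2.2 c.2.1.le).resolve_right fun h => h.2 ht
      exact ⟨huv.1, by have := huv.2; omega⟩

theorem lw_le_ix {s b : V} (hs : C.T s) (hb : C.Q b) (h : C.A s b) : C.lw s ≤ C.ix b := by
  rcases Nat.eq_zero_or_pos (C.lw s) with e | e
  · omega
  · obtain ⟨a, h1, h2, h3⟩ := lw_spec e
    exact h3 ▸ w_le h1 hb le_rfl (Or.inr ⟨s, hs, h2, h⟩)

theorem stages [Fintype V] (hC : C.Ok) : ∀ j, j ≤ C.n → ∃ ζ, C.Adm ζ ∧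
    (∀ s, C.T s → ζ s ≤ max j (C.lw s)) ∧ ∀ j', j' < j → ∀ ζ', C.Adm ζ' →
      (∀ v, min (ζ' v) j = min (ζ v) j) → C.Good j' ζ' := by
  classical
  intro j
  induction j with
  | zero =>
    intro _
    have nP : ∀ s, C.T s → ¬ C.P s := fun s h h' => hC.pt s h' h
    have nQ : ∀ s, C.T s → ¬ C.Q s := fun s h h' => hC.qt s h' h
    refine ⟨fun v => if C.P v then C.w v else if C.Q v then C.ix v + 1 else C.lw v,
      ⟨fun a ha => by simp [ha], fun b hb => ?_, fun s t h => ?_, fun s hs => ?_,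
        fun s b hs hb h => ?_⟩, fun s hs => ?_, fun _ h => absurd h (by omega)⟩
    · have : ¬ C.P b := fun h => hC.pq b h hb
      simp [this, hb]
    · obtain ⟨h1, h2, -⟩ := hC.r1 s t h
      simpa [nP s h1, nP t h2, nQ s h1, nQ t h2] using lw_mono h
    · simp [nP s hs, nQ s hs]
    · simpa [nP s hs, nQ s hs] using lw_le_ix hs hb h
    · simp [nP s hs, nQ s hs]
  | succ j ih =>
    intro hj
    obtain ⟨ζ, hz, hb, hg⟩ := ih (by omega)
    obtain ⟨X, h1, h2⟩ := stage hC hz hj hb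
    refine ⟨_, h1, fun s hs => ?_, fun j' hj' ζ' hz' e => ?_⟩
    · have := hb s hs
      unfold bump
      split_ifs <;> omega
    · rcases (Nat.le_of_lt_succ hj').eq_or_lt with rfl | h
      · exact h2 ζ' hz' e
      · refine hg j' h ζ' hz' fun v => ?_
        have := e v
        unfold bump at this
        split_ifs at this with h1
        · have := h1.1.2.1; omega
        · omega

/-- the final potential: every arc is satisfied forwards or backwards -/
theorem final [Fintype V] (hC : C.Ok) : ∃ x, C.Pot C.R x ∧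
    (∀ a s, C.P a → C.T s → C.A a s → x.o a ≤ x.i s) ∧
    (∀ s b, C.T s → C.Q b → C.A s b → x.o s ≤ x.i b) ∧
    (∀ a b, C.P a → C.Q b → C.A a b → x.o a ≤ x.i b) ∧
    (∀ s a, C.T s → C.P a → C.A s a → x.o s ≤ x.i a ∨
      ∃ a', C.P a' ∧ C.ix a ≤ C.ix a' ∧ x.o a' ≤ x.i s) ∧
    (∀ b s, C.Q b → C.T s → C.A b s → x.o b ≤ x.i s ∨
      ∃ b', C.Q b' ∧ C.ix b' ≤ C.ix b ∧ x.o s ≤ x.i b') ∧
    ∀ b a, C.Q b → C.P a → C.A b a → x.o b ≤ x.i a ∨
      ∃ a' b', C.P a' ∧ C.Q b' ∧ C.ix a ≤ C.ix a' ∧ C.ix b' ≤ C.ix b ∧ x.o a' ≤ x.i b' := by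
  obtain ⟨ζ, hz, hb, hg⟩ := stages hC C.n le_rfl
  obtain ⟨x, hm⟩ := exists_min hC hz
  have hx := hm.1
  refine ⟨x, { hx with arc := fun u v h => hx.arc u v (H_R hC hz h) },
    fun a s h1 h2 h => hx.arc _ _ (H_PT hC hz h1 h2 h),
    fun s b h1 h2 h => hx.arc _ _ (H_TQ hz h1 h2 h),
    fun a b h1 h2 h => hx.arc _ _ (H_PQ hz h1 h2 h), fun s a h1 h2 h => ?_,
    fun b s h1 h2 h => ?_, fun b a h1 h2 h => ?_⟩
  · by_cases hH : C.H ζ s a
    · exact Or.inl (hx.arc _ _ hH)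
    right
    have hn : ¬ _ := fun h' => hH ⟨h, h'⟩
    rw [eta_T hC h1, eta_P h2, hz.zP a h2] at hn
    by_cases e1 : C.ix a < C.la s
    · obtain ⟨a', p1, p2, p3⟩ := la_spec hC (s := s) (by omega)
      exact ⟨a', p1, by omega, pot_re hC hz hx p1 p2⟩
    by_cases e2 : C.w a < C.lw s
    · obtain ⟨a', p1, p2, p3⟩ := lw_spec (C := C) (s := s) (by omega)
      refine ⟨a', p1, ?_, pot_re hC hz hx p1 p2⟩
      by_contra h'
      have := w_mono (C := C) (show C.ix a' ≤ C.ix a by omega)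
      omega
    have := hb s h1
    have := w_le_n (C := C) a
    exact (hg (C.w a) (by omega) ζ hz fun _ => rfl).2 x hx s a h1 h2 (by omega) (by omega) rfl
  · by_cases hH : C.H ζ b s
    · exact Or.inl (hx.arc _ _ hH)
    right
    have hn : ¬ _ := fun h' => hH ⟨h, h'⟩
    rw [eta_T hC h2, eta_Q hC h1, hz.zQ b h1] at hn
    have := hC.ltQ b h1
    obtain ⟨b', p1, p2⟩ := hC.suQ (ζ s) (by omega)
    exact ⟨b', p1, by omega, (hg (ζ s) (by omega) ζ hz fun _ => rfl).1 x hm s b' h2 p1 p2 rfl⟩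
  · by_cases hH : C.H ζ b a
    · exact Or.inl (hx.arc _ _ hH)
    right
    have hn : ¬ _ := fun h' => hH ⟨h, h'⟩
    rw [eta_P h2, eta_Q hC h1, hz.zQ b h1, hz.zP a h2] at hn
    have := hC.ltQ b h1
    obtain ⟨a', b', p1, p2, p3, p4, p5⟩ := w_spec (C := C) (a := a) (by omega)
    exact ⟨a', b', p1, p2, p3, by omega, pot_dir hC hz hx p1 p2 p4⟩

end Dat

end Pool.Agent.Lib.MP_6d5d56_co.T2
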